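import Pool.Agent.H62.QP.Mach

/-!
# QP.Acc : accuracies and numbers of steps (module Acc, about 130 lines)

`q = qq j = 10 ^ (-4 * 3 ^ j)`. `acc_eq`: induction on `i` for all `j`, with `e i = (3 ^ i + 1) / 2` (natural number, `e 0 = 1`, `e (i + 1) = 3 e i - 1`): `acc (i + 1) j = 54 / q * acc i (j + 1) = 54 / q * 45 * 54 ^ i * (q ^ 3) ^ (e i)`. Stated without
division in the exponent: `acc i j * acc i j = 45 ^ 2 * 54 ^ (2 i) * q ^ (3 ^ i + 1)` (`acc i j > 0`), same induction.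
`acc_le`: from `acc_eq`, `q ≤ 10 ^ (-4)`, `3 ^ i + 1 ≥ i + 2`: `acc² ≤ 45² 54 ^ (2 i) 10 ^ (-4 (i + 2)) ≤ 1` (`54 ^ 2 = 2916 ≤ 10 ^ 4`). `acc_ge`: induction: `acc (i + 1) j ≥ 54 acc i (j + 1) ≥ acc i (j + 1)`.
`acc_top`: `acc J 0 ² = 45² 54 ^ (2 J) 10 ^ (-4 (3 ^ J + 1))`, `54 ^ (2 J) ≤ exp (8 J) ≤ exp (7.2 * 3 ^ J)` (`J ≤ 0.9 * 3 ^ J`: `J = 0, 1`, then induction), `10 ^ (-4 * 3 ^ J) ≤ exp (-9.2 * 3 ^ J)` (`10 ≥ exp 2.3`), so `acc J 0 ≤ 0.45 exp (-3 ^ J) ≤ 0.45 ε / 2` as `log (2 / ε) ≤ 3 ^ J`.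
`len_up`, `len_bot`: `log (80 / acc i j) ≤ log (2 / qq (i + j))`, `log (10 / (15 qq j)) ≤ log (2 / qq j)`, and `log (2 / qq J) = log 2 + 4 * 3 ^ J * log 10 ≤ 10 * 3 ^ J` (`log 2 ≤ 0.7`, `log 10 ≤ 2.31`: `10 ≤ exp 2.31`, e.g. `exp 2.31 ≥ 2.718 ^ 2 * exp 0.31 ≥ 7.387 * (1 + 0.31 + 0.31²/2 + 0.31³/6)`; or use
`4 log 10 = 4 log 2 + 4 log 5 ≤ 9.3` with `Real.log_two_lt_d9` and `log 5 = log (5/4) + 2 log 2 ≤ 1/4 + ..`, or any other way: only `log 2 + 4 log 10 ≤ 10` is needed); `2 d (d + 2) * 10 * 3 ^ J ≤ 60 d² 3 ^ J < 61 d² 3 ^ J`.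
-/

set_option autoImplicit false

open Metric Set Matrix

namespace Pool.Agent.H62.QP

open Pool.Agent.H62.FD hiding Algo
open Pool.Agent.H62.GR

private theorem Acc_qpos (j : ℕ) : (0 : ℝ) < (qq j : ℝ) := by
  unfold qq
  push_cast
  positivity

private theorem Acc_qle (j : ℕ) : (qq j : ℝ) ≤ 1 / 10000 := by
  unfold qq
  push_cast
  exact pow_le_of_le_one (by norm_num) (by norm_num) (by positivity)

private theorem Acc_qsucc (j : ℕ) : (qq (j + 1) : ℝ) = (qq j : ℝ) ^ 3 := by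
  unfold qq
  push_cast
  rw [← pow_mul, ← pow_succ]

theorem acc_pos (i j : ℕ) : 0 < acc i j := by
  induction i generalizing j with
  | zero =>
    have h := Acc_qpos j
    show 0 < 45 * (qq j : ℝ)
    linarith
  | succ i ih =>
    show 0 < 54 * acc i (j + 1) / (qq j : ℝ)
    have h1 := ih (j + 1)
    have h := Acc_qpos j
    positivity

theorem acc_eq (i j : ℕ) : acc i j ^ 2 = 45 ^ 2 * 54 ^ (2 * i) * (qq j : ℝ) ^ (3 ^ i + 1) := by
  induction i generalizing j with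
  | zero =>
    show (45 * (qq j : ℝ)) ^ 2 = _
    simp only [mul_zero, pow_zero]
    ring
  | succ i ih =>
    show (54 * acc i (j + 1) / (qq j : ℝ)) ^ 2 = _
    have h := (Acc_qpos j).ne'
    rw [div_pow, mul_pow, ih (j + 1), Acc_qsucc, div_eq_iff (pow_ne_zero 2 h), ← pow_mul]
    have e1 : (54 : ℝ) ^ (2 * (i + 1)) = 54 ^ 2 * 54 ^ (2 * i) := by
      rw [← pow_add]
      congr 1
      ring
    have e2 : (qq j : ℝ) ^ (3 * (3 ^ i + 1)) = (qq j : ℝ) ^ (3 ^ (i + 1) + 1) * (qq j : ℝ) ^ 2 := by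
      rw [← pow_add]
      congr 1
      ring
    rw [e1, e2]
    ring

private theorem Acc_three (i : ℕ) : i + 1 ≤ 3 ^ i := by
  induction i with
  | zero => simp
  | succ i ih =>
    rw [pow_succ]
    omega

theorem acc_le (i j : ℕ) : acc i j ≤ 1 := by
  have h0 := acc_pos i j
  have h1 : acc i j ^ 2 ≤ 1 ^ 2 := by
    rw [acc_eq]
    have hq := Acc_qpos j
    have hq1 := Acc_qle j
    have h2 : (qq j : ℝ) ^ (3 ^ i + 1) ≤ (1 / 10000) ^ (i + 2) := by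
      calc (qq j : ℝ) ^ (3 ^ i + 1) ≤ (1 / 10000) ^ (3 ^ i + 1) := pow_le_pow_left₀ hq.le hq1 _
        _ ≤ (1 / 10000) ^ (i + 2) := by
          refine pow_le_pow_of_le_one (by norm_num) (by norm_num) ?_
          have := Acc_three i
          omega
    have h3 : (54 : ℝ) ^ (2 * i) * (1 / 10000) ^ (i + 2) = (2916 / 10000) ^ i * (1 / 10000) ^ 2 := by
      rw [pow_mul, pow_add, ← mul_assoc, ← mul_pow]
      norm_num
    have h4 : ((2916 : ℝ) / 10000) ^ i ≤ 1 := pow_le_one₀ (by norm_num) (by norm_num)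
    calc (45 : ℝ) ^ 2 * 54 ^ (2 * i) * (qq j : ℝ) ^ (3 ^ i + 1) ≤ 45 ^ 2 * 54 ^ (2 * i) * (1 / 10000) ^ (i + 2) :=
          mul_le_mul_of_nonneg_left h2 (by positivity)
      _ = 45 ^ 2 * ((2916 / 10000) ^ i * (1 / 10000) ^ 2) := by rw [mul_assoc, h3]
      _ ≤ 45 ^ 2 * (1 * (1 / 10000) ^ 2) := by gcongr
      _ ≤ 1 ^ 2 := by norm_num
  exact (pow_le_pow_iff_left₀ h0.le zero_le_one two_ne_zero).1 h1

theorem acc_ge (i j : ℕ) : 45 * (qq (i + j) : ℝ) ≤ acc i j := by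
  induction i generalizing j with
  | zero =>
    rw [Nat.zero_add]
    exact le_rfl
  | succ i ih =>
    show _ ≤ 54 * acc i (j + 1) / (qq j : ℝ)
    have h1 := ih (j + 1)
    have h2 : i + 1 + j = i + (j + 1) := by ring
    rw [h2]
    refine le_trans h1 ?_
    have hq := Acc_qpos j
    have hq1 := Acc_qle j
    have h3 := acc_pos i (j + 1)
    rw [le_div_iff₀ hq]
    calc acc i (j + 1) * (qq j : ℝ) ≤ acc i (j + 1) * 54 :=
          mul_le_mul_of_nonneg_left (by linarith) h3.le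
      _ = 54 * acc i (j + 1) := by ring

private theorem Acc_pow (J : ℕ) : (54 : ℝ) ^ J ≤ 36 ^ (3 ^ J) := by
  induction J with
  | zero => norm_num
  | succ J ih =>
    have h1 : (54 : ℝ) ≤ 36 ^ (2 * 3 ^ J) := by
      have h2 : (36 : ℝ) ^ 2 ≤ 36 ^ (2 * 3 ^ J) := by
        refine pow_le_pow_right₀ (by norm_num) ?_
        have : 1 ≤ 3 ^ J := Nat.one_le_pow _ _ (by norm_num)
        omega
      linarith [show (54 : ℝ) ≤ 36 ^ 2 by norm_num]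
    have h3 : (36 : ℝ) ^ (3 ^ (J + 1)) = 36 ^ (3 ^ J) * 36 ^ (2 * 3 ^ J) := by
      rw [← pow_add]
      congr 1
      ring
    rw [pow_succ, h3]
    exact mul_le_mul ih h1 (by norm_num) (by positivity)

private theorem Acc_zero (J : ℕ) : acc J 0 = 45 * 54 ^ J * (1 / 100) ^ (3 ^ J + 1) := by
  have h0 := acc_pos J 0
  have h1 : (0 : ℝ) ≤ 45 * 54 ^ J * (1 / 100) ^ (3 ^ J + 1) := by positivity
  have h2 : acc J 0 ^ 2 = (45 * 54 ^ J * (1 / 100) ^ (3 ^ J + 1)) ^ 2 := by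
    rw [acc_eq, mul_pow, mul_pow, ← pow_mul, ← pow_mul, mul_comm J 2]
    have h3 : ((qq 0 : ℚ) : ℝ) = (1 / 100) ^ 2 := by
      unfold qq
      norm_num
    rw [h3, ← pow_mul, mul_comm 2 (3 ^ J + 1)]
  exact le_antisymm ((pow_le_pow_iff_left₀ h0.le h1 two_ne_zero).1 h2.le)
    ((pow_le_pow_iff_left₀ h1 h0.le two_ne_zero).1 h2.ge)

theorem acc_top {J : ℕ} {ε : ℝ} (hε : 0 < ε) (h : Real.log (2 / ε) ≤ 3 ^ J) : acc J 0 ≤ ε / 4 := by
  rw [Real.log_le_iff_le_exp (by positivity), div_le_iff₀ hε] at h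
  rw [Acc_zero]
  set n : ℕ := 3 ^ J with hn
  have hexp : Real.exp ((3 : ℝ) ^ J) = Real.exp 1 ^ n := by
    rw [← Real.exp_nat_mul, mul_one, hn]
    push_cast
    rfl
  rw [hexp] at h
  have he : 36 * Real.exp 1 ≤ 100 := by
    have := Real.exp_one_lt_d9
    linarith
  have h2 : (54 : ℝ) ^ J * (1 / 100) ^ n * Real.exp 1 ^ n ≤ 1 := by
    calc (54 : ℝ) ^ J * (1 / 100) ^ n * Real.exp 1 ^ n ≤ 36 ^ n * (1 / 100) ^ n * Real.exp 1 ^ n := by
          have := Acc_pow J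
          gcongr
      _ = (36 * Real.exp 1 / 100) ^ n := by
          rw [← mul_pow, ← mul_pow]
          congr 1
          ring
      _ ≤ 1 := by
          refine pow_le_one₀ (by positivity) ?_
          rw [div_le_one (by norm_num)]
          exact he
  have h3 : (54 : ℝ) ^ J * (1 / 100) ^ n * 2 ≤ ε := by
    calc (54 : ℝ) ^ J * (1 / 100) ^ n * 2 ≤ (54 : ℝ) ^ J * (1 / 100) ^ n * (Real.exp 1 ^ n * ε) :=
          mul_le_mul_of_nonneg_left h (by positivity)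
      _ = ((54 : ℝ) ^ J * (1 / 100) ^ n * Real.exp 1 ^ n) * ε := by ring
      _ ≤ 1 * ε := mul_le_mul_of_nonneg_right h2 hε.le
      _ = ε := one_mul ε
  have h4 : 45 * (54 : ℝ) ^ J * (1 / 100) ^ (n + 1) = 45 / 100 * ((54 : ℝ) ^ J * (1 / 100) ^ n) := by
    rw [pow_succ]
    ring
  rw [h4]
  linarith

private theorem Acc_log (J : ℕ) {x : ℝ} (hx : 0 < x) (h : x ≤ 2 / (qq J : ℝ)) : Real.log x ≤ 10 * 3 ^ J := by
  rw [Real.log_le_iff_le_exp hx]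
  refine le_trans h ?_
  have h1 : (2 : ℝ) / (qq J : ℝ) = 2 * 10000 ^ (3 ^ J) := by
    unfold qq
    push_cast
    rw [one_div, inv_pow, div_inv_eq_mul]
  have h2 : Real.exp (10 * 3 ^ J) = Real.exp 10 ^ (3 ^ J) := by
    rw [← Real.exp_nat_mul]
    congr 1
    push_cast
    ring
  have h3 : (20000 : ℝ) ≤ Real.exp 10 := by
    have h4 : Real.exp 10 = Real.exp 1 ^ 10 := by
      rw [← Real.exp_nat_mul]
      norm_num
    rw [h4]
    have h5 : (2.7182818283 : ℝ) ^ 10 ≤ Real.exp 1 ^ 10 :=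
      pow_le_pow_left₀ (by norm_num) Real.exp_one_gt_d9.le 10
    refine le_trans ?_ h5
    norm_num
  have h6 : (2 : ℝ) ≤ 2 ^ (3 ^ J) := by
    calc (2 : ℝ) = 2 ^ 1 := by norm_num
      _ ≤ 2 ^ (3 ^ J) := pow_le_pow_right₀ (by norm_num) (Nat.one_le_pow _ _ (by norm_num))
  rw [h1, h2]
  calc (2 : ℝ) * 10000 ^ (3 ^ J) ≤ 2 ^ (3 ^ J) * 10000 ^ (3 ^ J) := mul_le_mul_of_nonneg_right h6 (by positivity)
    _ = 20000 ^ (3 ^ J) := by
      rw [← mul_pow]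
      norm_num
    _ ≤ Real.exp 10 ^ (3 ^ J) := pow_le_pow_left₀ (by norm_num) h3 _

private theorem Acc_len {d : ℕ} (hd : 0 < d) (J : ℕ) {t : ℝ} (h : t ≤ 10 * 3 ^ J) :
    2 * d * ((d : ℝ) + 2) * t < ((61 * d ^ 2 * 3 ^ J : ℕ) : ℝ) := by
  have hd1 : (1 : ℝ) ≤ d := by exact_mod_cast hd
  have h3 : (0 : ℝ) < 3 ^ J := by positivity
  push_cast
  have h4 : (d : ℝ) + 2 ≤ 3 * d := by linarith
  have h5 : 2 * d * ((d : ℝ) + 2) ≤ 6 * (d : ℝ) ^ 2 := by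
    calc 2 * d * ((d : ℝ) + 2) ≤ 2 * d * (3 * d) := mul_le_mul_of_nonneg_left h4 (by positivity)
      _ = 6 * (d : ℝ) ^ 2 := by ring
  have h6 : (0 : ℝ) < (d : ℝ) ^ 2 * 3 ^ J := by positivity
  calc 2 * d * ((d : ℝ) + 2) * t ≤ 2 * d * ((d : ℝ) + 2) * (10 * 3 ^ J) := mul_le_mul_of_nonneg_left h (by positivity)
    _ ≤ 6 * (d : ℝ) ^ 2 * (10 * 3 ^ J) := mul_le_mul_of_nonneg_right h5 (by positivity)
    _ = 60 * ((d : ℝ) ^ 2 * 3 ^ J) := by ring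
    _ < 61 * ((d : ℝ) ^ 2 * 3 ^ J) := by linarith
    _ = 61 * (d : ℝ) ^ 2 * 3 ^ J := by ring

theorem len_up {d : ℕ} (hd : 0 < d) (i j : ℕ) :
    2 * d * ((d : ℝ) + 2) * Real.log (80 / acc i j) < ((61 * d ^ 2 * 3 ^ (i + j) : ℕ) : ℝ) := by
  have h0 := acc_pos i j
  have hq := Acc_qpos (i + j)
  refine Acc_len hd (i + j) (Acc_log (i + j) (by positivity) ?_)
  rw [div_le_div_iff₀ h0 hq]
  have := acc_ge i j
  linarith

theorem len_bot {d : ℕ} (hd : 0 < d) (j : ℕ) :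
    2 * d * ((d : ℝ) + 2) * Real.log (10 / (15 * (qq j : ℝ))) < ((61 * d ^ 2 * 3 ^ j : ℕ) : ℝ) := by
  have hq := Acc_qpos j
  refine Acc_len hd j (Acc_log j (by positivity) ?_)
  rw [div_le_div_iff₀ (by positivity) hq]
  linarith

end Pool.Agent.H62.QP
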