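import Pool.Agent.H62.GR.LogLip

/-!
# QP.Tgt : the target ball (module Tgt, about 130 lines)

Same idea as `Pool/Agent/H62/GR/Target.lean` (proved, read it). `w`: if `dist x x0 ≤ 3 ρ / 4` take `w = x0`, otherwise `w = A.H x x0 (3 ρ / (4 dist x x0))` (`geo_dist_left`, `geo_dist_right`): `dist x w ≤ 3 ρ / 4`, `dist x0 w ≤ r - ρ / 4`. `z' = A.H z w lam`, `u' = Log x z'`.
`conv_dist`: from `h.cat` and `dist q z ≥ |dist p q - dist p z|`: `(1-t) a² + t b² - t (1-t) c² ≤ ((1-t) a + t b)²` if `c ≥ |a - b|`. So `dist x z' ≤ (1 - lam) ρ + lam 3 ρ / 4 = ρ - lam ρ / 4`, `dist x0 z' ≤ (1 - lam) r + lam (r - ρ / 4) = r - lam ρ / 4`.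
`f z' ≤ (1 - lam) f z + lam f w ≤ f z + lam L dist z w`, `dist z w ≤ ρ + 3 ρ / 4`. For `‖u - u'‖ ≤ lam ρ / 10`: `‖u‖ ≤ ρ - lam ρ / 4 + lam ρ / 10 ≤ ρ`; `y = Exp x u`, `Log x y = u`; `tri` at `(x, z', y)`: `‖Tr z' x (Log z' y) - (u - u')‖ ≤ 200 K ρ area(u', u) ≤ 200 K ρ² ‖u - u'‖ ≤ 0.2 ‖u - u'‖`
(`area_le_sub`, `h.small`), so `dist z' y ≤ 1.2 lam ρ / 10 = 0.12 lam ρ`; `dist x0 y ≤ r - 0.13 lam ρ`, `y` is in the ball and `f y ≤ f z' + 0.12 lam L ρ`. Total `1.75 + 0.12 ≤ 2`.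
-/

set_option autoImplicit false

open Metric Set

namespace Pool.Agent.H62.QP

open Pool.Agent.H62.FD hiding Algo
open Pool.Agent.H62.GR

variable {d : ℕ} {A : Man d} {K ρ : ℝ}

theorem conv_dist (h : Geo A K ρ) (p q z : A.M) {t : ℝ} (ht : t ∈ Icc (0 : ℝ) 1) :
    dist p (A.H q z t) ≤ (1 - t) * dist p q + t * dist p z := by
  have h1 := h.cat p q z t ht
  have h2 : (dist p q - dist p z) ^ 2 ≤ dist q z ^ 2 := by
    have h3 : |dist p q - dist p z| ≤ dist q z := by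
      rw [abs_le]
      have h4 := dist_triangle p q z
      have h5 := dist_triangle p z q
      rw [dist_comm z q] at h5
      constructor <;> linarith
    have h6 := pow_le_pow_left₀ (abs_nonneg _) h3 2
    rwa [sq_abs] at h6
  have h3 : 0 ≤ t * (1 - t) := mul_nonneg ht.1 (by linarith [ht.2])
  have h4 := mul_le_mul_of_nonneg_left h2 h3
  have h5 : 0 ≤ (1 - t) * dist p q + t * dist p z :=
    add_nonneg (mul_nonneg (by linarith [ht.2]) dist_nonneg) (mul_nonneg ht.1 dist_nonneg)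
  have h6 : dist p (A.H q z t) ^ 2 ≤ ((1 - t) * dist p q + t * dist p z) ^ 2 := by
    have h7 : ((1 - t) * dist p q + t * dist p z) ^ 2 = (1 - t) * dist p q ^ 2 +
        t * dist p z ^ 2 - t * (1 - t) * (dist p q - dist p z) ^ 2 := by ring
    rw [h7]
    linarith
  exact le_of_sq_le_sq h6 h5

/-- a point of the ball near `x`, away from the boundary -/
private theorem tgt_pt (h : Geo A K ρ) {x0 x : A.M} {r : ℝ} (hr : ρ ≤ r)
    (hx : dist x0 x ≤ r + ρ / 2) : ∃ w : A.M, dist x w ≤ 3 * ρ / 4 ∧ dist x0 w ≤ r - ρ / 4 := by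
  have hρ := h.s_pos
  rcases le_or_gt (dist x x0) (3 * ρ / 4) with h1 | h1
  · exact ⟨x0, h1, by rw [dist_self]; linarith⟩
  · have hpos : 0 < dist x x0 := by linarith
    have ht : 3 * ρ / 4 / dist x x0 ∈ Icc (0 : ℝ) 1 :=
      ⟨div_nonneg (by linarith) hpos.le, (div_le_one hpos).2 h1.le⟩
    refine ⟨A.H x x0 (3 * ρ / 4 / dist x x0), ?_, ?_⟩
    · rw [geo_dist_left h x x0 ht, div_mul_cancel₀ _ hpos.ne']
    · rw [dist_comm, geo_dist_right h x x0 ht, sub_mul, div_mul_cancel₀ _ hpos.ne', one_mul,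
        dist_comm x x0]
      linarith

theorem tgt (h : Geo A K ρ) {x0 x z : A.M} {r L lam : ℝ} {f : A.M → ℝ} (hr : ρ ≤ r) (hL : 0 ≤ L)
    (hlip : Lip A x0 r L f) (hconv : GConv A.toPrim x0 r f) (hx : dist x0 x ≤ r + ρ / 2)
    (hz : z ∈ closedBall x0 r) (hxz : dist x z ≤ ρ) (h0 : 0 < lam) (h1 : lam ≤ 1) :
    ∃ u' : E d, ∀ u, ‖u - u'‖ ≤ lam * ρ / 10 → ‖u‖ ≤ ρ ∧ dist x0 (A.Exp x u) ≤ r - 0.13 * lam * ρ ∧
      f (A.Exp x u) ≤ f z + 2 * lam * L * ρ := by
  have hK := h.K_pos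
  have hρ := h.s_pos
  obtain ⟨w, hw1, hw2⟩ := tgt_pt h hr hx
  have hz' : dist x0 z ≤ r := by rw [dist_comm]; exact mem_closedBall.1 hz
  have hlam : lam ∈ Icc (0 : ℝ) 1 := ⟨h0.le, h1⟩
  have hlr : 0 < lam * ρ := mul_pos h0 hρ
  have hwb : w ∈ closedBall x0 r := by
    rw [mem_closedBall, dist_comm]
    linarith
  set z' := A.H z w lam with hz'def
  have hd1 : dist x z' ≤ ρ - lam * ρ / 4 := by
    have e1 := conv_dist h x z w hlam
    have e2 : (1 - lam) * dist x z ≤ (1 - lam) * ρ :=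
      mul_le_mul_of_nonneg_left hxz (by linarith)
    have e3 : lam * dist x w ≤ lam * (3 * ρ / 4) := mul_le_mul_of_nonneg_left hw1 h0.le
    have e4 : (1 - lam) * ρ + lam * (3 * ρ / 4) = ρ - lam * ρ / 4 := by ring
    linarith
  have hd0 : dist x0 z' ≤ r - lam * ρ / 4 := by
    have e1 := conv_dist h x0 z w hlam
    have e2 : (1 - lam) * dist x0 z ≤ (1 - lam) * r :=
      mul_le_mul_of_nonneg_left hz' (by linarith)
    have e3 : lam * dist x0 w ≤ lam * (r - ρ / 4) := mul_le_mul_of_nonneg_left hw2 h0.le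
    have e4 : (1 - lam) * r + lam * (r - ρ / 4) = r - lam * ρ / 4 := by ring
    linarith
  have hz'b : z' ∈ closedBall x0 r := by
    rw [mem_closedBall, dist_comm]
    linarith
  have hfz : f z' ≤ f z + lam * (L * (7 / 4 * ρ)) := by
    have e1 : f z' ≤ (1 - lam) * f z + lam * f w := hconv z hz w hwb lam hlam
    have e2 : f w - f z ≤ L * dist w z := (le_abs_self _).trans (hlip w hwb z hz)
    have e3 : dist w z ≤ 7 / 4 * ρ := by
      have e4 := dist_triangle w x z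
      rw [dist_comm w x] at e4
      linarith
    have e5 : L * dist w z ≤ L * (7 / 4 * ρ) := mul_le_mul_of_nonneg_left e3 hL
    have e6 : lam * (f w - f z) ≤ lam * (L * (7 / 4 * ρ)) :=
      mul_le_mul_of_nonneg_left (e2.trans e5) h0.le
    have e7 : (1 - lam) * f z + lam * f w = f z + lam * (f w - f z) := by ring
    linarith
  refine ⟨A.Log x z', fun u hu => ?_⟩
  have hu' : ‖A.Log x z'‖ ≤ ρ - lam * ρ / 4 := by rw [h.log_norm]; exact hd1
  have hun : ‖u‖ ≤ ρ := by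
    have e1 := norm_add_le (u - A.Log x z') (A.Log x z')
    rw [sub_add_cancel] at e1
    linarith
  have hxy : dist x (A.Exp x u) = ‖u‖ := exp_dist h x hun
  have hzy4 : dist z' (A.Exp x u) ≤ 4 * ρ := by
    have e1 := dist_triangle z' x (A.Exp x u)
    rw [dist_comm z' x, hxy] at e1
    linarith
  have htri := h.tri x z' (A.Exp x u) (by linarith) (by rw [hxy]; linarith) hzy4
  rw [h.log_exp x u hun] at htri
  have har : area (A.Log x z') u ≤ ρ * (lam * ρ / 10) := by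
    refine (area_le_sub _ _).trans ?_
    exact mul_le_mul (by linarith) hu (norm_nonneg _) hρ.le
  have hdist : dist z' (A.Exp x u) ≤ 0.12 * lam * ρ := by
    have e1 : dist z' (A.Exp x u) = ‖A.Tr z' x (A.Log z' (A.Exp x u))‖ := by
      rw [tr_norm h, h.log_norm]
    have e2 := norm_add_le (A.Tr z' x (A.Log z' (A.Exp x u)) - (u - A.Log x z'))
      (u - A.Log x z')
    rw [sub_add_cancel] at e2
    have e3 : 200 * K * ρ * area (A.Log x z') u ≤ 200 * K * ρ * (ρ * (lam * ρ / 10)) :=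
      mul_le_mul_of_nonneg_left har (by positivity)
    have e4 : 200 * K * ρ * (ρ * (lam * ρ / 10)) = lam * ρ / 50 * (1000 * K * ρ ^ 2) := by
      ring
    have e5 : lam * ρ / 50 * (1000 * K * ρ ^ 2) ≤ lam * ρ / 50 * 1 :=
      mul_le_mul_of_nonneg_left h.small (by positivity)
    rw [e1]
    linarith
  have hy0 : dist x0 (A.Exp x u) ≤ r - 0.13 * lam * ρ := by
    have e1 := dist_triangle x0 z' (A.Exp x u)
    linarith
  refine ⟨hun, hy0, ?_⟩
  have hyb : A.Exp x u ∈ closedBall x0 r := by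
    rw [mem_closedBall, dist_comm]
    linarith
  have e1 : f (A.Exp x u) - f z' ≤ L * dist (A.Exp x u) z' :=
    (le_abs_self _).trans (hlip _ hyb z' hz'b)
  have e2 : L * dist (A.Exp x u) z' ≤ L * (0.12 * lam * ρ) := by
    rw [dist_comm]
    exact mul_le_mul_of_nonneg_left hdist hL
  have e3 : 0 ≤ L * (lam * ρ) := mul_nonneg hL hlr.le
  linarith

end Pool.Agent.H62.QP
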