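import Pool.Agent.H62.QP.LvRun
import Pool.Agent.H62.QP.Tgt

/-!
# QP.BotG : the bottom level finds a good point (module BotG, about 130 lines)

Same structure as the proof of `epoch_good` in `Pool/Agent/H62/GR/EpochG.lean` (proved, read it), with `tgt` instead of `target`. `q = 1000 K ρ²`, `lam = 15 q`, `σ = 3 ρ / 2`, `h' : Geo A K σ`, `δ = 300 K σ³ = 1012.5 K ρ³`.
`run_target` (GR.RunG) with `T = ρ`, radius `lam ρ / 10`, `p = u'` (`tgt`), `good k c := Exp x c ∈ D ∧ f (Exp x c) ≤ f z + 45 q L ρ`. `hN`: `T / (lam ρ / 10) = 10 / (15 q)`.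
`hcut`: `hsq I y = dist x0 y ^ 2` (`sum_sq` in GR.EpochG), so the condition of `orcL` is `y ∈ D`. For `u` in the target ball: `‖u‖ ≤ ρ = 2 σ / 3`, `dist x0 (Exp x u) ≤ r - 0.13 lam ρ = r - 1950 K ρ³ ≤ r - 1.9 δ` (`1.9 δ = 1923.75 K ρ³`). `y ∉ D`: `cut_out`. `y ∈ D` not good: `f (Exp x u) + L δ ≤ f z + 30 q L ρ + 1.0125 q L ρ ≤ f z + 45 q L ρ < f y`:
`cut_in` (needs `10000 K σ² = 22500 K ρ² = 22.5 q ≤ 1`).
-/

set_option autoImplicit false

open Metric Set Matrix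

namespace Pool.Agent.H62.QP

open Pool.Agent.H62.FD hiding Algo
open Pool.Agent.H62.GR
open Pool.Agent.H36.GC (run)

variable {d : ℕ} {A : Man d}

/-- the vectors of the bottom level -/
noncomputable def wB (x : A.M) (g : ℕ → A.M → E d) (k : ℕ) (c : Fin d → ℝ) : Fin d → ℝ := fun i =>
  A.Tr (A.Exp x (WithLp.toLp 2 c)) x (g k (A.Exp x (WithLp.toLp 2 c))) i

private lemma botG_dot (w : Fin d → ℝ) : w ⬝ᵥ w = ‖(WithLp.toLp 2 w : E d)‖ ^ 2 := by
  rw [EuclideanSpace.real_norm_sq_eq]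
  exact Finset.sum_congr rfl fun j _ => (sq _).symm

private lemma botG_inner (v w : Fin d → ℝ) :
    v ⬝ᵥ w = Inner.inner ℝ (WithLp.toLp 2 v : E d) (WithLp.toLp 2 w) := by
  simp [PiLp.inner_apply, dotProduct, mul_comm]

private lemma botG_norm {w : Fin d → ℝ} {s : ℝ} (hs : 0 ≤ s) (h : w ⬝ᵥ w ≤ s ^ 2) :
    ‖(WithLp.toLp 2 w : E d)‖ ≤ s := by
  rw [botG_dot] at h
  exact le_of_sq_le_sq h hs

private lemma botG_near (u' : E d) {δ : ℝ} (hδ : 0 ≤ δ) {u : Fin d → ℝ} (hu : u ⬝ᵥ u ≤ 1) :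
    ‖(WithLp.toLp 2 (WithLp.ofLp u' + δ • u) : E d) - u'‖ ≤ δ := by
  have h1 : (WithLp.toLp 2 (WithLp.ofLp u' + δ • u) : E d) - u' = δ • (WithLp.toLp 2 u : E d) := by
    ext i
    simp
  have h2 : ‖(WithLp.toLp 2 u : E d)‖ ≤ 1 := botG_norm zero_le_one (by rwa [one_pow])
  rw [h1, norm_smul, Real.norm_of_nonneg hδ]
  calc δ * ‖(WithLp.toLp 2 u : E d)‖ ≤ δ * 1 := mul_le_mul_of_nonneg_left h2 hδ
    _ = δ := mul_one δ

theorem bot_good (hd : 0 < d) {K ρ : ℝ} (h : Geo A K ρ) (h' : Geo A K (3 * ρ / 2)) (hq : 1000 * K * ρ ^ 2 ≤ 1 / 10000)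
    {I : Inp A} (hr : ρ ≤ I.r) {x z : A.M} (hx : dist I.x0 x ≤ I.r + ρ / 2) (hz : z ∈ closedBall I.x0 I.r)
    (hxz : dist x z ≤ ρ) {L : ℝ} {f : A.M → ℝ} (hL : 0 ≤ L) (hlip : Lip A I.x0 I.r L f)
    (hconv : GConv A.toPrim I.x0 I.r f) {g : ℕ → A.M → E d} (hg : Orc I f g) {N : ℕ}
    (hN : 2 * d * ((d : ℝ) + 2) * Real.log (10 / (15 * (1000 * K * ρ ^ 2))) < N) :
    ∃ k < N, (run ρ (orcL I (I.r * I.r) x (wB x g)) k).c ⬝ᵥ (run ρ (orcL I (I.r * I.r) x (wB x g)) k).c ≤ ρ ^ 2 ∧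
      hsq I (A.Exp x (WithLp.toLp 2 (run ρ (orcL I (I.r * I.r) x (wB x g)) k).c)) ≤ I.r * I.r ∧
      f (A.Exp x (WithLp.toLp 2 (run ρ (orcL I (I.r * I.r) x (wB x g)) k).c)) ≤
        f z + 45 * (1000 * K * ρ ^ 2) * L * ρ := by
  have hK := h.K_pos
  have hρ := h.s_pos
  have hr0 : 0 ≤ I.r := by linarith
  obtain ⟨q, hqe⟩ : ∃ q, q = 1000 * K * ρ ^ 2 := ⟨_, rfl⟩
  have hq0 : 0 < q := by rw [hqe]; positivity
  have hqρ : 300 * K * (3 * ρ / 2) ^ 3 = 1.0125 * (q * ρ) := by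
    rw [hqe]
    ring
  rw [← hqe] at hq hN
  have hKs : 10000 * K * (3 * ρ / 2) ^ 2 ≤ 1 := by
    have : 10000 * K * (3 * ρ / 2) ^ 2 = 22.5 * q := by
      rw [hqe]
      ring
    rw [this]
    linarith
  obtain ⟨u', hu'⟩ := tgt h (lam := 15 * q) hr hL hlip hconv hx hz hxz (by positivity) (by linarith)
  obtain ⟨δ, hδe⟩ : ∃ δ, δ = 15 * q * ρ / 10 := ⟨_, rfl⟩
  have hδ : 0 < δ := by rw [hδe]; positivity
  have hqρ0 : 0 < q * ρ := mul_pos hq0 hρ
  have hLq : 0 ≤ L * (q * ρ) := mul_nonneg hL hqρ0.le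
  have hnear : ∀ u : Fin d → ℝ, u ⬝ᵥ u ≤ 1 →
      ‖(WithLp.toLp 2 (WithLp.ofLp u' + δ • u) : E d) - u'‖ ≤ 15 * q * ρ / 10 := by
    intro u hu
    rw [← hδe]
    exact botG_near u' hδ.le hu
  have hsqe : ∀ y : A.M, hsq I y = dist I.x0 y ^ 2 := fun y => sum_sq h.log_norm I.x0 y
  rw [← hqe]
  have hratio : ρ / δ = 10 / (15 * q) := by
    rw [hδe]
    field_simp
  refine run_target hd (T := ρ) hρ (G := orcL I (I.r * I.r) x (wB x g))
    (good := fun _ c => hsq I (A.Exp x (WithLp.toLp 2 c)) ≤ I.r * I.r ∧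
      f (A.Exp x (WithLp.toLp 2 c)) ≤ f z + 45 * q * L * ρ)
    (p := WithLp.ofLp u') (ρ := δ) hδ ?_ ?_ (by rw [hratio]; exact hN)
  · intro u hu
    have h1 := (hu' _ (hnear u hu)).1
    rw [botG_dot]
    exact pow_le_pow_left₀ (norm_nonneg _) h1 2
  · intro k c hc hng
    have hcs : ‖(WithLp.toLp 2 c : E d)‖ ≤ 3 * ρ / 2 := (botG_norm hρ.le hc).trans (by linarith)
    by_cases hcond : hsq I (A.Exp x (WithLp.toLp 2 c)) ≤ I.r * I.r
    · have hxb : A.Exp x (WithLp.toLp 2 c) ∈ closedBall I.x0 I.r := by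
        rw [hsqe, ← sq] at hcond
        exact mem_closedBall'.2 (le_of_sq_le_sq hcond hr0)
      have horc : orcL I (I.r * I.r) x (wB x g) k c =
          WithLp.ofLp (A.Tr (A.Exp x (WithLp.toLp 2 c)) x (g k (A.Exp x (WithLp.toLp 2 c)))) := by
        funext i
        unfold orcL
        rw [if_pos hcond]
        rfl
      have hfx : f z + 45 * q * L * ρ < f (A.Exp x (WithLp.toLp 2 c)) := by
        by_contra hcon
        exact hng ⟨hcond, not_lt.1 hcon⟩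
      have hkey : ∀ u : E d, ‖u - u'‖ ≤ 15 * q * ρ / 10 →
          A.Tr (A.Exp x (WithLp.toLp 2 c)) x (g k (A.Exp x (WithLp.toLp 2 c))) ≠ 0 ∧
          Inner.inner ℝ (A.Tr (A.Exp x (WithLp.toLp 2 c)) x (g k (A.Exp x (WithLp.toLp 2 c))))
            (u - WithLp.toLp 2 c) ≤ 0 := by
        intro u hu
        obtain ⟨h1, h2, h3⟩ := hu' u hu
        refine cut_in h' hKs hL hlip hcs (by linarith) hxb (hg k _ hxb) ?_ ?_
        · rw [hqρ]
          linarith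
        · rw [hqρ]
          linarith
      refine ⟨?_, ?_⟩
      · have h0 := (hkey u' (by rw [sub_self, norm_zero]; positivity)).1
        rw [horc]
        intro h1
        exact h0 (by ext i; exact congrFun h1 i)
      · intro u hu
        have h2 := (hkey _ (hnear u hu)).2
        rw [botG_inner, horc]
        exact h2
    · have hlt : I.r < dist I.x0 (A.Exp x (WithLp.toLp 2 c)) := by
        by_contra hcon
        refine hcond ?_
        rw [hsqe, ← sq]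
        exact pow_le_pow_left₀ dist_nonneg (not_lt.1 hcon) 2
      have horc : orcL I (I.r * I.r) x (wB x g) k c =
          -WithLp.ofLp (A.Tr (A.Exp x (WithLp.toLp 2 c)) x (A.Log (A.Exp x (WithLp.toLp 2 c)) I.x0)) := by
        funext i
        unfold orcL
        rw [if_neg hcond, zero_sub]
        rfl
      have hkey : ∀ u : E d, ‖u - u'‖ ≤ 15 * q * ρ / 10 →
          A.Tr (A.Exp x (WithLp.toLp 2 c)) x (A.Log (A.Exp x (WithLp.toLp 2 c)) I.x0) ≠ 0 ∧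
          0 ≤ Inner.inner ℝ (A.Tr (A.Exp x (WithLp.toLp 2 c)) x (A.Log (A.Exp x (WithLp.toLp 2 c)) I.x0))
            (u - WithLp.toLp 2 c) := by
        intro u hu
        obtain ⟨h1, h2, _⟩ := hu' u hu
        refine cut_out h' hcs (by linarith) hlt ?_
        rw [hqρ]
        linarith
      refine ⟨?_, ?_⟩
      · have h0 := (hkey u' (by rw [sub_self, norm_zero]; positivity)).1
        rw [horc]
        intro h1
        exact h0 (by ext i; exact congrFun (neg_eq_zero.1 h1) i)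
      · intro u hu
        have h2 := (hkey _ (hnear u hu)).2
        rw [horc, neg_dotProduct, botG_inner]
        exact neg_nonpos.2 h2

end Pool.Agent.H62.QP
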