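import Pool.Agent.H62.QP.Mach
import Pool.Agent.H62.FD.MainFD

/-!
# QP.Rad : radii (module Rad, about 90 lines)

`rad0 K r ^ 2 = 1 / (10 ^ 7 (K + 1 / r²))` (`Real.sq_sqrt`). `rad_q`: induction on `j`: `rad (rc (j + 1)) = qq j * rad (rc j)`, so `1000 K' ρ_(j+1)² = qq j ^ 2 * qq j = qq (j + 1)` (`qq_succ`: `pow_succ`, `pow_mul`).
`rad_le`: `rc j ≤ 1`, `rad0 ≤ r / √(10 ^ 7) ≤ r / 1000`. `rad_zeta`: `2 r / rad0 = 2 √(10 ^ 7 (K r² + 1)) ≤ 2 * 3163 * √(2 ζ²) ≤ 10000 ζ` (`le_zeta`, `one_le_zeta` in FD.MainFD; `√(10 ^ 7) ≤ 3163`, `√2 ≤ 1.5`).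
-/

set_option autoImplicit false

open Metric Set Matrix

namespace Pool.Agent.H62.QP

open Pool.Agent.H62.FD hiding Algo
open Pool.Agent.H62.GR

variable {K r : ℝ}

private theorem rad_qq_cast (j : ℕ) : (qq j : ℝ) = (1 / 10000) ^ 3 ^ j := by
  unfold qq
  push_cast
  rfl

theorem qq_pos (j : ℕ) : (0 : ℝ) < (qq j : ℝ) := by
  rw [rad_qq_cast]
  positivity

theorem qq_le (j : ℕ) : (qq j : ℝ) ≤ 1 / 10000 := by
  rw [rad_qq_cast]
  have h1 : 1 ≤ 3 ^ j := Nat.one_le_pow _ _ (by norm_num)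
  calc ((1 : ℝ) / 10000) ^ 3 ^ j ≤ (1 / 10000) ^ 1 := pow_le_pow_of_le_one (by norm_num) (by norm_num) h1
    _ = 1 / 10000 := by norm_num

theorem qq_succ (j : ℕ) : (qq (j + 1) : ℝ) = (qq j : ℝ) ^ 3 := by
  rw [rad_qq_cast, rad_qq_cast, pow_succ, pow_mul]

private theorem rad_rc_pos (j : ℕ) : (0 : ℝ) < (rc j : ℝ) := by
  induction j with
  | zero => simp [rc]
  | succ j ih =>
    have h : (rc (j + 1) : ℝ) = (qq j : ℝ) * (rc j : ℝ) := by
      simp only [rc]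
      push_cast
      rfl
    rw [h]
    exact mul_pos (qq_pos j) ih

private theorem rad_rc_le (j : ℕ) : (rc j : ℝ) ≤ 1 := by
  induction j with
  | zero => simp [rc]
  | succ j ih =>
    have h : (rc (j + 1) : ℝ) = (qq j : ℝ) * (rc j : ℝ) := by
      simp only [rc]
      push_cast
      rfl
    rw [h]
    have h1 := qq_le j
    have h2 := qq_pos j
    have h3 := rad_rc_pos j
    nlinarith

private theorem rad_c_pos (hK : 0 < K) (hr : 0 < r) : 0 < 10000000 * (K + 1 / (r * r)) := by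
  positivity

private theorem rad_rad0_pos (hK : 0 < K) (hr : 0 < r) : 0 < rad0 K r := by
  unfold rad0
  have h1 := rad_c_pos hK hr
  have h2 := Real.sqrt_pos.2 h1
  positivity

private theorem rad_rad0_sq (hK : 0 < K) (hr : 0 < r) : 10000000 * (K + 1 / (r * r)) * rad0 K r ^ 2 = 1 := by
  unfold rad0
  have h1 := rad_c_pos hK hr
  rw [div_pow, Real.sq_sqrt h1.le, one_pow]
  field_simp

theorem rad_pos (hK : 0 < K) (hr : 0 < r) (j : ℕ) : 0 < rad K r (rc j) := by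
  unfold rad
  exact mul_pos (rad_rc_pos j) (rad_rad0_pos hK hr)

theorem rad_succ (K r : ℝ) (j : ℕ) : rad K r (rc (j + 1)) = (qq j : ℝ) * rad K r (rc j) := by
  have h : (rc (j + 1) : ℝ) = (qq j : ℝ) * (rc j : ℝ) := by
    simp only [rc]
    push_cast
    rfl
  unfold rad
  rw [h, mul_assoc]

theorem rad_q (hK : 0 < K) (hr : 0 < r) (j : ℕ) : 1000 * (K + 1 / (r * r)) * rad K r (rc j) ^ 2 = (qq j : ℝ) := by
  induction j with
  | zero =>
    have h1 := rad_rad0_sq hK hr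
    have h2 : (qq 0 : ℝ) = 1 / 10000 := by rw [rad_qq_cast]; norm_num
    have h3 : rad K r (rc 0) = rad0 K r := by simp [rad, rc]
    rw [h2, h3]
    linarith
  | succ j ih =>
    rw [rad_succ, qq_succ]
    calc 1000 * (K + 1 / (r * r)) * ((qq j : ℝ) * rad K r (rc j)) ^ 2
        = (qq j : ℝ) ^ 2 * (1000 * (K + 1 / (r * r)) * rad K r (rc j) ^ 2) := by ring
      _ = (qq j : ℝ) ^ 3 := by rw [ih]; ring

theorem rad_le (hK : 0 < K) (hr : 0 < r) (j : ℕ) : rad K r (rc j) ≤ r / 1000 := by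
  have h1 := rad_rad0_sq hK hr
  have h2 := rad_rad0_pos hK hr
  have h3 : rad K r (rc j) ≤ rad0 K r := by
    unfold rad
    have := rad_rc_le j
    nlinarith
  refine h3.trans ?_
  refine le_of_sq_le_sq ?_ (by positivity)
  have h4 : 10000000 * (1 / (r * r)) * rad0 K r ^ 2 ≤ 1 := by
    have h7 : 0 ≤ K * rad0 K r ^ 2 := by positivity
    have h8 : 10000000 * (K + 1 / (r * r)) * rad0 K r ^ 2 = 10000000 * (K * rad0 K r ^ 2) + 10000000 * (1 / (r * r)) * rad0 K r ^ 2 := by ring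
    linarith
  have h5 : 10000000 * rad0 K r ^ 2 ≤ r * r := by
    have h6 : 10000000 * (1 / (r * r)) * rad0 K r ^ 2 = (10000000 * rad0 K r ^ 2) / (r * r) := by ring
    rw [h6, div_le_one (by positivity)] at h4
    exact h4
  nlinarith

theorem rad_zeta (hK : 0 < K) (hr : 0 < r) : 2 * r / rad K r (rc 0) ≤ 10000 * zeta (r * √K) := by
  have h1 := rad_rad0_sq hK hr
  have h2 := rad_rad0_pos hK hr
  have h3 : rad K r (rc 0) = rad0 K r := by simp [rad, rc]
  have hs : 0 < √K := Real.sqrt_pos.2 hK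
  have hx : 0 < r * √K := by positivity
  have hz1 := le_zeta hx
  have hz2 := one_le_zeta hx
  rw [h3, div_le_iff₀ h2]
  refine le_of_sq_le_sq ?_ (by positivity)
  have h5 : K = √K ^ 2 := (Real.sq_sqrt hK.le).symm
  have h6 : 10000000 * ((r * √K) ^ 2 + 1) * rad0 K r ^ 2 = r ^ 2 := by
    have : 10000000 * (K + 1 / (r * r)) * rad0 K r ^ 2 * (r ^ 2) = r ^ 2 := by rw [h1, one_mul]
    rw [← this, mul_pow, ← h5]
    field_simp
  have h7 : (r * √K) ^ 2 + 1 ≤ 2 * zeta (r * √K) ^ 2 := by nlinarith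
  have h8 : r ^ 2 ≤ 20000000 * zeta (r * √K) ^ 2 * rad0 K r ^ 2 := by
    rw [← h6]
    have : 0 ≤ rad0 K r ^ 2 := by positivity
    nlinarith
  have h9 : 0 ≤ zeta (r * √K) ^ 2 * rad0 K r ^ 2 := by positivity
  nlinarith

end Pool.Agent.H62.QP
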