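import Pool.Agent.H62.QP.BotG
import Pool.Agent.H62.QP.Rad

/-!
# QP.BotS : the bottom machine (module BotS, about 110 lines)

`bot_it`: induction on `k`: the state after `k` steps is `enL (lvs ..)` with `W = wB x g`, `P k c = Exp x c`: if `1 ≤ ok` then the query point is `y` (so `g k y` and `f y` are as in `lvs`), otherwise `upd_congr`. `l.y = Exp l.x (toLp l.c)` with `l.x = x` (`lvs_x`).
`bot_solves`: `K = I.K + 1 / (I.r * I.r)`, `ρ = rad .. (rc j)`, `1000 K ρ² = qq j ≤ 1 / 10000` (`rad_q`, `qq_le`), `ρ ≤ I.r` (`rad_le`), `Geo` at `ρ` and at `3 ρ / 2` from `S.geo`. For a point `z`: `bot_good` and `lvs_best` with `θ = f z + 45 qq j L ρ`. The result `bx = Exp x c_k` with `‖c_k‖ ≤ ρ` and `hsq ≤ r²`: so it is in `D` (`sum_sq`) and at distance `‖c_k‖ ≤ ρ` from `x`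
(`exp_dist`). To have a point `z` for the first three claims: the point `x` moved by `3 ρ / 4` towards `x0` (see `tgt`; or: `D ∩ closedBall x ρ` is not empty: `z = x` if `x ∈ D`, otherwise `A.H x x0 t` with `dist x z = dist x x0 - r ≤ ρ / 2`). `45 * (1000 K ρ²) = acc 0 j`.
-/

set_option autoImplicit false

open Metric Set Matrix

namespace Pool.Agent.H62.QP

open Pool.Agent.H62.FD hiding Algo
open Pool.Agent.H62.GR

variable {d : ℕ} {A : Man d}

/-- the standing assumptions -/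
structure Sd (A : Man d) (I : Inp A) (f : A.M → ℝ) (L : ℝ) : Prop where
  K_pos : 0 < I.K
  r_pos : 0 < I.r
  L_nonneg : 0 ≤ L
  geo : ∀ s, 0 < s → 1000 * (I.K + 1 / (I.r * I.r)) * s ^ 2 ≤ 1 → Geo A (I.K + 1 / (I.r * I.r)) s
  conv : GConv A.toPrim I.x0 I.r f
  lip : Lip A I.x0 I.r L f

private lemma botS_dot (w : Fin d → ℝ) : w ⬝ᵥ w = ‖(WithLp.toLp 2 w : E d)‖ ^ 2 := by
  rw [EuclideanSpace.real_norm_sq_eq]
  exact Finset.sum_congr rfl fun i _ => (sq _).symm

/-- the intersection of the balls is not empty -/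
theorem near_D {K ρ : ℝ} (h : Geo A K ρ) {x0 x : A.M} {r : ℝ} (hr : 0 ≤ r) (hx : dist x0 x ≤ r + ρ / 2) :
    ∃ z ∈ closedBall x0 r, dist x z ≤ ρ := by
  have hρ := h.s_pos
  by_cases hc : dist x0 x ≤ r
  · exact ⟨x, by rw [mem_closedBall, dist_comm]; exact hc, by rw [dist_self]; exact hρ.le⟩
  · push Not at hc
    have hD : 0 < dist x0 x := lt_of_le_of_lt hr hc
    have hD' : dist x x0 = dist x0 x := dist_comm _ _
    have ht1 : r / dist x0 x ≤ 1 := by
      rw [div_le_one hD]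
      exact hc.le
    have ht0 : 0 ≤ r / dist x0 x := div_nonneg hr hD.le
    have ht : 1 - r / dist x0 x ∈ Icc (0 : ℝ) 1 := ⟨by linarith, by linarith⟩
    have e : r / dist x0 x * dist x0 x = r := div_mul_cancel₀ _ hD.ne'
    refine ⟨A.H x x0 (1 - r / dist x0 x), ?_, ?_⟩
    · rw [mem_closedBall, geo_dist_right h x x0 ht, hD', sub_sub_cancel, e]
    · rw [geo_dist_left h x x0 ht, hD', sub_mul, one_mul, e]
      linarith

theorem bot_it {I : Inp A} (f : A.M → ℝ) (g : ℕ → A.M → E d) (c : ℚ) (x : A.M) (k : ℕ) :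
    (bot d c).it I f g ((bot d c).start I x) k =
      enL (lvs I (rad I.K I.r c) (I.r * I.r) x f (wB x g) (fun _ c => A.Exp x (WithLp.toLp 2 c)) k) := by
  induction k with
  | zero => rfl
  | succ k ih =>
    show (bot d c).step I ((bot d c).it I f g ((bot d c).start I x) k)
      (f ((bot d c).query I ((bot d c).it I f g ((bot d c).start I x) k)))
      (g k ((bot d c).query I ((bot d c).it I f g ((bot d c).start I x) k))) = _
    rw [ih]
    set l := lvs I (rad I.K I.r c) (I.r * I.r) x f (wB x g)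
      (fun _ c => A.Exp x (WithLp.toLp 2 c)) k with hl
    have hx : l.x = x := lvs_x k
    have hy : l.y = A.Exp x (WithLp.toLp 2 l.c) := by
      unfold Lv.y
      rw [hx]
    set q : A.M := (bot d c).query I (enL l) with hq
    have hq2 : q = if 1 ≤ l.ok I (rad I.K I.r c) (I.r * I.r) then l.y else I.x0 := rfl
    show enL (l.upd I (rad I.K I.r c) (I.r * I.r) (fun i => A.Tr l.y l.x (g k q) i) l.y (f q)) =
      enL (l.upd I (rad I.K I.r c) (I.r * I.r) (wB x g k l.c) (A.Exp x (WithLp.toLp 2 l.c))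
        (f (A.Exp x (WithLp.toLp 2 l.c))))
    congr 1
    refine upd_congr l fun hok => ?_
    rw [if_pos hok] at hq2
    refine ⟨?_, hy, by rw [hq2, hy]⟩
    funext i
    unfold wB
    rw [hq2, hx, hy]

theorem bot_solves (hd : 0 < d) {I : Inp A} {f : A.M → ℝ} {L : ℝ} (S : Sd A I f L) (j : ℕ) {N : ℕ}
    (hN : 2 * d * ((d : ℝ) + 2) * Real.log (10 / (15 * (qq j : ℝ))) < N) :
    Solves (bot d (rc j)) N I f L (rad I.K I.r (rc j)) (acc 0 j) := by
  intro g hg x hx
  have hK := S.K_pos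
  have hr := S.r_pos
  have hρ : 0 < rad I.K I.r (rc j) := rad_pos hK hr j
  have hρr : rad I.K I.r (rc j) ≤ I.r := (rad_le hK hr j).trans (by linarith)
  have h1000 := rad_q hK hr j
  have hqq := qq_le j
  have hqp := qq_pos j
  set ρ := rad I.K I.r (rc j) with hρdef
  set K := I.K + 1 / (I.r * I.r) with hKdef
  have h : Geo A K ρ := S.geo ρ hρ (by rw [h1000]; linarith)
  have h' : Geo A K (3 * ρ / 2) := by
    refine S.geo (3 * ρ / 2) (by linarith) ?_
    have e : 1000 * K * (3 * ρ / 2) ^ 2 = 9 / 4 * (1000 * K * ρ ^ 2) := by ring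
    rw [e, h1000]
    linarith
  have hq : 1000 * K * ρ ^ 2 ≤ 1 / 10000 := by rw [h1000]; exact hqq
  have hN' : 2 * d * ((d : ℝ) + 2) * Real.log (10 / (15 * (1000 * K * ρ ^ 2))) < N := by
    rw [h1000]
    exact hN
  set l := lvs I ρ (I.r * I.r) x f (wB x g) (fun _ c => A.Exp x (WithLp.toLp 2 c)) N with hl
  have hit : (bot d (rc j)).it I f g ((bot d (rc j)).start I x) N = enL l := bot_it f g (rc j) x N
  have hres : ((bot d (rc j)).it I f g ((bot d (rc j)).start I x) N).2 (bot d (rc j)).res = l.bx := by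
    rw [hit]
    rfl
  have hrv : ((bot d (rc j)).it I f g ((bot d (rc j)).start I x) N).1 (bot d (rc j)).rv = l.bv := by
    rw [hit]
    rfl
  rw [hres, hrv]
  have key : ∀ z ∈ closedBall I.x0 I.r, dist x z ≤ ρ → l.bv = f l.bx ∧
      f l.bx ≤ f z + 45 * (1000 * K * ρ ^ 2) * L * ρ ∧
      ∃ k < N, (Pool.Agent.H36.GC.run ρ (orcL I (I.r * I.r) x (wB x g)) k).c ⬝ᵥ
          (Pool.Agent.H36.GC.run ρ (orcL I (I.r * I.r) x (wB x g)) k).c ≤ ρ ^ 2 ∧
        hsq I (A.Exp x (WithLp.toLp 2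
          (Pool.Agent.H36.GC.run ρ (orcL I (I.r * I.r) x (wB x g)) k).c)) ≤ I.r * I.r ∧
        l.bx = A.Exp x (WithLp.toLp 2
          (Pool.Agent.H36.GC.run ρ (orcL I (I.r * I.r) x (wB x g)) k).c) := by
    intro z hz hxz
    have hb := bot_good hd h h' hq hρr hx hz hxz S.L_nonneg S.lip S.conv hg hN'
    exact lvs_best (P := fun _ c => A.Exp x (WithLp.toLp 2 c)) hb
  obtain ⟨z₀, hz₀, hxz₀⟩ := near_D h hr.le hx
  obtain ⟨k1, -, k, -, hc, hs, hbx⟩ := key z₀ hz₀ hxz₀
  have hn : ‖(WithLp.toLp 2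
      (Pool.Agent.H36.GC.run ρ (orcL I (I.r * I.r) x (wB x g)) k).c : E d)‖ ≤ ρ := by
    rw [botS_dot] at hc
    exact abs_le_of_sq_le_sq' hc hρ.le |>.2
  refine ⟨?_, ?_, k1, ?_⟩
  · rw [hbx, mem_closedBall, dist_comm]
    unfold hsq at hs
    rw [sum_sq h.log_norm] at hs
    exact abs_le_of_sq_le_sq' (hs.trans_eq (sq I.r).symm) hr.le |>.2
  · rw [hbx, exp_dist h x hn]
    have : 0 ≤ 2000 * K * ρ ^ 3 := by
      have := h.K_pos
      positivity
    linarith
  · intro z hz hxz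
    have h2 := (key z hz hxz).2.1
    rw [h1000] at h2
    exact h2

end Pool.Agent.H62.QP
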