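import Pool.Agent.H62.QP.Mach
import Pool.Agent.H62.GR.CostB

/-!
# QP.CostF : cost of one level (module CostF, about 150 lines)

Calculus: `Pool/Agent/H62/GR/CircA.lean`; a similar proof is `Pool/Agent/H62/GR/CostC.lean` (proved, read it). `LIn`: all components of a level are known.
`circ_rad`: 11 operations. `circ_thH`: `rad`, then `r + rad / 2` twice.
`circ_upd`: stage A: `y = Exp x (toLp c)` (`Circ.exp`), keep; stage B: `Log x0 y`, `Log y x0`, `c ⬝ᵥ c` (`Circ.dot`), `ρ * ρ`, keep; stage C: `hsq` (`Circ.dot` of `Log x0 y`), `Tr y x (Log y x0)`, keep; stage D: the cut (family of two `ite`s), `ok`, keep; stage E: `circ_step` (GR.CostB) with `g = cut`, `L = l.L`, keep; stage F: `bv`, `bf` (`Circ.ite`), `bx` (`Circ.pite`).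
Final set: everything kept; then `LIn`. Numbers: at most `50 d² + 8 d + 40 ≤ 100 d²`.
-/

set_option autoImplicit false

open Metric Set Matrix

namespace Pool.Agent.H62.QP

open Pool.Agent.H62.FD hiding Algo
open Pool.Agent.H62.GR

variable {Ω : Type*} {d : ℕ} {A : Ω → Man d} {S T : Set (Ω → ℝ)} {V U : Set ((ω : Ω) → (A ω).M)}
  {I : (ω : Ω) → Inp (A ω)}

/-- all components of a level are known -/
def LIn (l : (ω : Ω) → Lv (A ω).M d) (T : Set (Ω → ℝ)) (U : Set ((ω : Ω) → (A ω).M)) : Prop :=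
  (∀ i, (fun ω => (l ω).c i) ∈ T) ∧ (∀ i j, (fun ω => (l ω).L i j) ∈ T) ∧ (fun ω => (l ω).bv) ∈ T ∧
    (fun ω => (l ω).bf) ∈ T ∧ (fun ω => (l ω).x) ∈ U ∧ (fun ω => (l ω).bx) ∈ U

private lemma CostF_real {T : Set (Ω → ℝ)} {U : Set ((ω : Ω) → (A ω).M)} {n m : ℕ} {f : Ω → ℝ}
    (h1 : Circ A S V n T U) (h2 : Circ A T U m {f} ∅) : Circ A S V (n + m) (insert f T) U := by
  refine Circ.weaken (h1.trans h2.keep) le_rfl ?_ subset_union_left
  intro g hg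
  rcases hg with rfl | hg
  · exact Or.inr rfl
  · exact Or.inl hg

private lemma CostF_vec {T R : Set (Ω → ℝ)} {U : Set ((ω : Ω) → (A ω).M)} {n m : ℕ}
    (h1 : Circ A S V n T U) (h2 : Circ A T U m R ∅) : Circ A S V (n + m) (T ∪ R) U :=
  Circ.weaken (h1.trans h2.keep) le_rfl subset_rfl subset_union_left

private lemma CostF_pt {T : Set (Ω → ℝ)} {U : Set ((ω : Ω) → (A ω).M)} {n m : ℕ}
    {p : (ω : Ω) → (A ω).M} (h1 : Circ A S V n T U) (h2 : Circ A T U m ∅ {p}) :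
    Circ A S V (n + m) T (insert p U) := by
  refine Circ.weaken (h1.trans h2.keep) le_rfl subset_union_left ?_
  intro g hg
  rcases hg with rfl | hg
  · exact Or.inr rfl
  · exact Or.inl hg

theorem lin_en {l : (ω : Ω) → Lv (A ω).M d} (h : LIn l T U) : RIn (fun ω => enL (l ω)) T U := by
  obtain ⟨h1, h2, h3, h4, h5, h6⟩ := h
  refine ⟨?_, ?_⟩
  · rintro ((i | p) | i)
    · exact h1 i
    · exact h2 p.1 p.2
    · fin_cases i
      · exact h3
      · exact h4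
  · intro j
    fin_cases j
    · exact h5
    · exact h6

theorem lin_de {σ : (ω : Ω) → Regs (A ω).M (RL d) (Fin 2)} (h : RIn σ T U) : LIn (fun ω => deL (σ ω)) T U :=
  ⟨fun i => h.1 (.inl (.inl i)), fun i j => h.1 (.inl (.inr (i, j))), h.1 (.inr 0), h.1 (.inr 1),
    h.2 0, h.2 1⟩

theorem circ_rad (hI : IIn I S V) (c : ℚ) : Circ A S V 12 {fun ω => rad (I ω).K (I ω).r c} ∅ := by
  obtain ⟨hK, hr, -⟩ := hI
  unfold rad rad0
  have c0 := Circ.cst (A := A) S V c (x := (c : ℝ)) rfl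
  have c1 := Circ.cst (A := A) S V 1 (x := 1) (by norm_num)
  have c2 := Circ.cst (A := A) S V 10000000 (x := 10000000) (by norm_num)
  exact (c0.mul (c1.div ((c2.mul ((Circ.var hK).add
    (c1.div ((Circ.var hr).mul (Circ.var hr))))).sqrt))).weaken (by omega) subset_rfl subset_rfl

theorem circ_thH (hI : IIn I S V) (c : ℚ) : Circ A S V 40 {fun ω => thH (I ω).K (I ω).r c} ∅ := by
  have h1 := circ_rad hI c
  obtain ⟨hK, hr, -⟩ := hI
  unfold thH
  have c2 := Circ.cst (A := A) S V 2 (x := 2) (by norm_num)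
  have h2 := (Circ.var (A := A) (V := V) hr).add (h1.div c2)
  exact (h2.mul h2).weaken (by omega) subset_rfl subset_rfl

theorem circ_y {l : (ω : Ω) → Lv (A ω).M d} (hl : LIn l S V) : Circ A S V 1 ∅ {fun ω => (l ω).y} := by
  obtain ⟨h1, -, -, -, h5, -⟩ := hl
  exact Circ.exp (A := A) (w := fun ω => WithLp.toLp 2 (l ω).c) (Circ.pvar h5)
    (Circ.of_subset (U := ∅) (by rintro _ ⟨i, rfl⟩; exact h1 i) (empty_subset _))

/-- the first state of a level -/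
theorem circ_ini {ρ : Ω → ℝ} (hρ : ρ ∈ S) {x : (ω : Ω) → (A ω).M} (hx : x ∈ V) :
    ∃ T U, Circ A S V 1 T U ∧ S ⊆ T ∧ V ⊆ U ∧ LIn (fun ω => Lv.ini (d := d) (ρ ω) (x ω)) T U := by
  have h0 := CostF_real (A := A) (Circ.base (A := A) (S := S) (V := V))
    (Circ.cst (A := A) S V 0 (x := 0) (by norm_num))
  refine ⟨_, _, h0.weaken (by omega) subset_rfl subset_rfl, subset_insert _ _, subset_rfl, ?_⟩
  refine ⟨fun i => mem_insert _ _, fun i j => ?_, mem_insert _ _, mem_insert _ _, hx, hx⟩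
  by_cases hij : i = j
  · have e : (fun ω => (Lv.ini (d := d) (ρ ω) (x ω)).L i j) = ρ := by
      funext ω
      show (if i = j then ρ ω else 0) = ρ ω
      rw [if_pos hij]
    rw [e]
    exact subset_insert _ _ hρ
  · have e : (fun ω => (Lv.ini (d := d) (ρ ω) (x ω)).L i j) = fun _ => (0 : ℝ) := by
      funext ω
      show (if i = j then ρ ω else 0) = 0
      rw [if_neg hij]
    rw [e]
    exact mem_insert _ _

/-- common part of `circ_ok` and `circ_upd` -/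
private lemma CostF_pre {ρ H : Ω → ℝ} (hI : IIn I S V) (hρ : ρ ∈ S) (hH : H ∈ S)
    {l : (ω : Ω) → Lv (A ω).M d} (hl : LIn l S V) :
    ∃ T U, Circ A S V (4 * d + 10) T U ∧ S ⊆ T ∧ V ⊆ U ∧
      (fun ω => (l ω).c ⬝ᵥ (l ω).c) ∈ T ∧ (fun ω => ρ ω * ρ ω) ∈ T ∧
      (fun ω => hsq (I ω) (l ω).y) ∈ T ∧ (fun ω => (l ω).ok (I ω) (ρ ω) (H ω)) ∈ T ∧
      (fun ω => (l ω).y) ∈ U := by
  have hc := hl.1
  have s1 := CostF_pt (A := A) (Circ.base (A := A) (S := S) (V := V)) (circ_y hl)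
  set U1 : Set ((ω : Ω) → (A ω).M) := insert (fun ω => (l ω).y) V with hU1
  have u1 : V ⊆ U1 := subset_insert _ _
  have v1 : (fun ω => (l ω).y) ∈ U1 := mem_insert _ _
  have s2 := CostF_vec s1 (Circ.log (A := A) (p := fun ω => (I ω).x0) (q := fun ω => (l ω).y)
    (Circ.pvar (u1 hI.2.2)) (Circ.pvar v1))
  set S2 : Set (Ω → ℝ) := S ∪ range fun i ω => (A ω).Log (I ω).x0 (l ω).y i with hS2
  have i2 : S ⊆ S2 := subset_union_left
  have j2 : ∀ i : Fin d, (fun ω => (A ω).Log (I ω).x0 (l ω).y i) ∈ S2 := fun i => Or.inr ⟨i, rfl⟩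
  have s3 := CostF_real s2 (Circ.dot (A := A) (V := U1)
    (F := fun (i : Fin d) ω => (A ω).Log (I ω).x0 (l ω).y i)
    (G := fun (i : Fin d) ω => (A ω).Log (I ω).x0 (l ω).y i) j2 j2)
  set S3 : Set (Ω → ℝ) := insert (fun ω => ∑ i, (A ω).Log (I ω).x0 (l ω).y i *
    (A ω).Log (I ω).x0 (l ω).y i) S2 with hS3
  have i3 : S ⊆ S3 := i2.trans (subset_insert _ _)
  have j3 : (fun ω => hsq (I ω) (l ω).y) ∈ S3 := mem_insert _ _
  have s4 := CostF_real s3 (Circ.dot (A := A) (V := U1) (F := fun (i : Fin d) ω => (l ω).c i)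
    (G := fun (i : Fin d) ω => (l ω).c i) (fun i => i3 (hc i)) (fun i => i3 (hc i)))
  set S4 : Set (Ω → ℝ) := insert (fun ω => ∑ i, (l ω).c i * (l ω).c i) S3 with hS4
  have i4 : S ⊆ S4 := i3.trans (subset_insert _ _)
  have j4 : (fun ω => (l ω).c ⬝ᵥ (l ω).c) ∈ S4 := mem_insert _ _
  have s5 := CostF_real s4 (Circ.mul (A := A) (V := U1) (Circ.var (i4 hρ)) (Circ.var (i4 hρ)))
  set S5 : Set (Ω → ℝ) := insert (fun ω => ρ ω * ρ ω) S4 with hS5
  have i5 : S4 ⊆ S5 := subset_insert _ _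
  have j5 : (fun ω => ρ ω * ρ ω) ∈ S5 := mem_insert _ _
  have k3 : (fun ω => hsq (I ω) (l ω).y) ∈ S5 := i5 (subset_insert _ _ j3)
  have c0 := Circ.cst (A := A) S5 U1 0 (x := 0) (by norm_num)
  have c1 := Circ.cst (A := A) S5 U1 1 (x := 1) (by norm_num)
  have s6 := CostF_real s5 (Circ.ite (A := A) (V := U1) (Circ.var (i5 j4)) (Circ.var j5)
    (Circ.ite (Circ.var k3) (Circ.var (i5 (i4 hH))) c1 c0) c0)
  refine ⟨_, _, Circ.weaken s6 ?_ subset_rfl subset_rfl, ?_, u1, ?_, ?_, ?_, ?_, v1⟩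
  · rw [Fintype.card_fin]
    omega
  · exact (i4.trans i5).trans (subset_insert _ _)
  · exact subset_insert _ _ (i5 j4)
  · exact subset_insert _ _ j5
  · exact subset_insert _ _ k3
  · exact mem_insert _ _

theorem circ_ok {ρ H : Ω → ℝ} (hI : IIn I S V) (hρ : ρ ∈ S) (hH : H ∈ S) {l : (ω : Ω) → Lv (A ω).M d} (hl : LIn l S V) :
    Circ A S V (4 * d + 20) {fun ω => (l ω).ok (I ω) (ρ ω) (H ω)} {fun ω => (l ω).y} := by
  obtain ⟨T, U, h, -, -, -, -, -, h1, h2⟩ := CostF_pre (A := A) hI hρ hH hl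
  exact h.weaken (by omega) (singleton_subset_iff.2 h1) (singleton_subset_iff.2 h2)

theorem circ_upd (hd : 0 < d) {ρ H : Ω → ℝ} (hI : IIn I S V) (hρ : ρ ∈ S) (hH : H ∈ S) {l : (ω : Ω) → Lv (A ω).M d}
    (hl : LIn l S V) {w : Ω → Fin d → ℝ} (hw : ∀ i, (fun ω => w ω i) ∈ S) {p : (ω : Ω) → (A ω).M} (hp : p ∈ V)
    {v : Ω → ℝ} (hv : v ∈ S) :
    ∃ T U, Circ A S V (100 * d ^ 2) T U ∧ S ⊆ T ∧ V ⊆ U ∧
      LIn (fun ω => (l ω).upd (I ω) (ρ ω) (H ω) (w ω) (p ω) (v ω)) T U := by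
  obtain ⟨T, U, s0, hS, hV, c1, c2, c3, c4, c5⟩ := CostF_pre (A := A) hI hρ hH hl
  obtain ⟨hc, hL, hbv, hbf, hx, hbx⟩ := hl
  have s1 := CostF_vec s0 (Circ.log (A := A) (p := fun ω => (l ω).y) (q := fun ω => (I ω).x0)
    (Circ.pvar c5) (Circ.pvar (hV hI.2.2)))
  set T1 : Set (Ω → ℝ) := T ∪ range fun i ω => (A ω).Log (l ω).y (I ω).x0 i with hT1
  have i1 : T ⊆ T1 := subset_union_left
  have s2 := CostF_vec s1 (Circ.tr (A := A) (p := fun ω => (l ω).y) (q := fun ω => (l ω).x)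
    (w := fun ω => (A ω).Log (l ω).y (I ω).x0) (Circ.pvar c5) (Circ.pvar (hV hx))
    (Circ.of_subset (U := ∅) (by rintro _ ⟨i, rfl⟩; exact Or.inr ⟨i, rfl⟩) (empty_subset _)))
  set T2 : Set (Ω → ℝ) := T1 ∪ range fun i ω =>
    (A ω).Tr (l ω).y (l ω).x ((A ω).Log (l ω).y (I ω).x0) i with hT2
  have i2 : T ⊆ T2 := i1.trans subset_union_left
  have j2 : ∀ i : Fin d, (fun ω =>
      (A ω).Tr (l ω).y (l ω).x ((A ω).Log (l ω).y (I ω).x0) i) ∈ T2 := fun i => Or.inr ⟨i, rfl⟩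
  have s3 := CostF_vec s2 (Circ.family (A := A) (S := T2) (V := U) (m := 4)
    (F := fun (i : Fin d) ω => (l ω).cut (I ω) (ρ ω) (H ω) (w ω) i) fun i => by
      have k0 : Circ A T2 U 1 {fun _ => (0 : ℝ)} ∅ := Circ.cst T2 U 0 (by norm_num)
      have k1 := Circ.sub k0 (Circ.var (j2 i))
      exact (Circ.ite (Circ.var (i2 c1)) (Circ.var (i2 c2))
        (Circ.ite (Circ.var (i2 c3)) (Circ.var (i2 (hS hH))) (Circ.var (i2 (hS (hw i)))) k1)
        (Circ.var (i2 (hS (hc i))))).weaken (by omega) subset_rfl subset_rfl)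
  set T3 : Set (Ω → ℝ) := T2 ∪ range fun (i : Fin d) ω =>
    (l ω).cut (I ω) (ρ ω) (H ω) (w ω) i with hT3
  have i3 : T ⊆ T3 := i2.trans subset_union_left
  have j3 : ∀ i : Fin d, (fun ω => (l ω).cut (I ω) (ρ ω) (H ω) (w ω) i) ∈ T3 :=
    fun i => Or.inr ⟨i, rfl⟩
  have s4 := CostF_vec s3 (circ_step (A := A) (S := T3) (V := U) hd (c := fun ω => (l ω).c)
    (g := fun ω => (l ω).cut (I ω) (ρ ω) (H ω) (w ω)) (L := fun ω => (l ω).L)
    (fun i => i3 (hS (hc i))) j3 (fun i j => i3 (hS (hL i j))))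
  set R4 : Set (Ω → ℝ) := (range fun (i : Fin d) ω =>
      ((⟨(l ω).c, Matrix.of (l ω).L⟩ : Pool.Agent.H36.GC.Ell d).step
        ((l ω).cut (I ω) (ρ ω) (H ω) (w ω))).c i) ∪
    range fun (q : Fin d × Fin d) ω =>
      ((⟨(l ω).c, Matrix.of (l ω).L⟩ : Pool.Agent.H36.GC.Ell d).step
        ((l ω).cut (I ω) (ρ ω) (H ω) (w ω))).L q.1 q.2 with hR4
  have i4 : T ⊆ T3 ∪ R4 := i3.trans subset_union_left
  have b1 : Circ A (T3 ∪ R4) U 1 {fun _ => (1 : ℝ)} ∅ := Circ.cst _ _ 1 (by norm_num)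
  have s5 := CostF_real s4 (Circ.ite (A := A) (V := U) b1 (Circ.var (i4 c4))
    (Circ.ite b1 (Circ.var (i4 (hS hbf)))
      (Circ.ite (Circ.var (i4 (hS hv))) (Circ.var (i4 (hS hbv))) (Circ.var (i4 (hS hv)))
        (Circ.var (i4 (hS hbv)))) (Circ.var (i4 (hS hv)))) (Circ.var (i4 (hS hbv))))
  set T5 : Set (Ω → ℝ) := insert (fun ω => if 1 ≤ (l ω).ok (I ω) (ρ ω) (H ω) then
    (if 1 ≤ (l ω).bf then (if v ω ≤ (l ω).bv then v ω else (l ω).bv) else v ω) else (l ω).bv)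
    (T3 ∪ R4) with hT5
  have i5 : T ⊆ T5 := i4.trans (subset_insert _ _)
  have b5 : Circ A T5 U 1 {fun _ => (1 : ℝ)} ∅ := Circ.cst _ _ 1 (by norm_num)
  have s6 := CostF_real s5 (Circ.ite (A := A) (V := U) b5 (Circ.var (i5 c4)) b5
    (Circ.var (i5 (hS hbf))))
  set T6 : Set (Ω → ℝ) := insert (fun ω => if 1 ≤ (l ω).ok (I ω) (ρ ω) (H ω) then 1 else (l ω).bf)
    T5 with hT6
  have i6 : T ⊆ T6 := i5.trans (subset_insert _ _)
  have b6 : Circ A T6 U 1 {fun _ => (1 : ℝ)} ∅ := Circ.cst _ _ 1 (by norm_num)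
  have s7 := CostF_pt s6 (Circ.pite (A := A) (V := U) b6 (Circ.var (i6 c4))
    (Circ.pite b6 (Circ.var (i6 (hS hbf)))
      (Circ.pite (Circ.var (i6 (hS hv))) (Circ.var (i6 (hS hbv))) (Circ.pvar (hV hp))
        (Circ.pvar (hV hbx))) (Circ.pvar (hV hp))) (Circ.pvar (hV hbx)))
  refine ⟨_, _, Circ.weaken s7 ?_ subset_rfl subset_rfl, hS.trans i6,
    hV.trans (subset_insert _ _), ?_, ?_, ?_, ?_, ?_, ?_⟩
  · rw [Fintype.card_fin]
    have h1 : d ≤ d ^ 2 := Nat.le_self_pow (by norm_num) d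
    have h2 : 1 ≤ d ^ 2 := le_trans hd h1
    omega
  · intro i
    exact subset_insert _ _ (subset_insert _ _ (Or.inr (Or.inl ⟨i, rfl⟩)))
  · intro i j
    exact subset_insert _ _ (subset_insert _ _ (Or.inr (Or.inr ⟨(i, j), rfl⟩)))
  · exact subset_insert _ _ (mem_insert _ _)
  · exact mem_insert _ _
  · exact subset_insert _ _ (hV hx)
  · exact mem_insert _ _

end Pool.Agent.H62.QP
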