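import Pool.Agent.H62.QP.CostF

/-!
# QP.CostM : cost of the machines (module CostM, about 170 lines)

`circ_sel`: the numbers `t`, `u` and both register contents are known: one `ite`/`pite` per register (`Circ.family`; for the points prove the same family statement for points by induction over the finite type, or insert them one by one). `bot_cost`: start: `circ_rad`, `circ_ini`; query: `circ_rad`, `r * r`, `circ_ok`, `Circ.pite` with the constant `1`; step: `circ_rad`, `r * r`, `y` (`circ_y`), `Tr y x g` (`Circ.tr`), `circ_upd`.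
`up_cost`: start: `circ_rad`, `circ_ini`, `circ_y`, start of `𝓜` at `y` (`h`), constant `0`; registers: `card 𝓜.R + (d + d² + 2 + 1) + card 𝓜.Q + 2`. Query: that of `𝓜` at `inner σ`. Step: step of `𝓜`, `circ_rad`, `circ_thH`, `Log y p`, `Tr y x (Log y p)`, `0 - ..` (family), `circ_upd`, `circ_y` of the result, start of `𝓜` there, `clk + 1`, constants `T`, `0`, `circ_sel`
(`2 a + b + 100 d² + 100 + ..` operations). The predicates `RIn` of `inner σ`, `own σ`, `jn ..` are immediate from those of `σ` and of the parts.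
`mk_cost`: induction on `i` for all `j`.
-/

set_option autoImplicit false

open Metric Set Matrix

namespace Pool.Agent.H62.QP

open Pool.Agent.H62.FD hiding Algo
open Pool.Agent.H62.GR

private lemma CostM_real {Ω : Type*} {d : ℕ} {A : Ω → Man d} {S T : Set (Ω → ℝ)} {V U : Set ((ω : Ω) → (A ω).M)}
    {n m : ℕ} {f : Ω → ℝ} (h1 : Circ A S V n T U) (h2 : Circ A T U m {f} ∅) :
    Circ A S V (n + m) (insert f T) U := by
  refine Circ.weaken (h1.trans h2.keep) le_rfl ?_ subset_union_left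
  intro g hg
  rcases hg with rfl | hg
  · exact Or.inr rfl
  · exact Or.inl hg

private lemma CostM_vec {Ω : Type*} {d : ℕ} {A : Ω → Man d} {S T R : Set (Ω → ℝ)} {V U : Set ((ω : Ω) → (A ω).M)}
    {n m : ℕ} (h1 : Circ A S V n T U) (h2 : Circ A T U m R ∅) : Circ A S V (n + m) (T ∪ R) U :=
  Circ.weaken (h1.trans h2.keep) le_rfl subset_rfl subset_union_left

private lemma CostM_pt {Ω : Type*} {d : ℕ} {A : Ω → Man d} {S T : Set (Ω → ℝ)} {V U : Set ((ω : Ω) → (A ω).M)}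
    {n m : ℕ} {p : (ω : Ω) → (A ω).M} (h1 : Circ A S V n T U) (h2 : Circ A T U m ∅ {p}) :
    Circ A S V (n + m) T (insert p U) := by
  refine Circ.weaken (h1.trans h2.keep) le_rfl subset_union_left ?_
  intro g hg
  rcases hg with rfl | hg
  · exact Or.inr rfl
  · exact Or.inl hg

private lemma CostM_all {Ω : Type*} {d : ℕ} {A : Ω → Man d} {S T T' : Set (Ω → ℝ)} {V U U' : Set ((ω : Ω) → (A ω).M)}
    {n m : ℕ} (h1 : Circ A S V n T U) (h2 : Circ A T U m T' U') : Circ A S V (n + m) (T ∪ T') (U ∪ U') :=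
  h1.trans h2.keep

private lemma CostM_pfam {Ω : Type*} {d : ℕ} {A : Ω → Man d} {S : Set (Ω → ℝ)} {V : Set ((ω : Ω) → (A ω).M)}
    {m : ℕ} {ι : Type*} [Fintype ι] {F : ι → (ω : Ω) → (A ω).M} (h : ∀ i, Circ A S V m ∅ {F i}) :
    Circ A S V (Fintype.card ι * m) ∅ (range F) := by
  classical
  have key : ∀ s : Finset ι, Circ A S V (s.card * m) ∅ (F '' (s : Set ι)) := by
    intro s
    induction s using Finset.induction_on with
    | empty => simpa using Circ.of_subset (A := A) (S := S) (V := V) (Set.empty_subset S) (Set.empty_subset V)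
    | insert a s ha ih =>
      rw [Finset.card_insert_of_notMem ha, Finset.coe_insert, Set.image_insert_eq]
      refine ((ih.par (h a))).weaken (by rw [add_mul, one_mul]) (Set.empty_subset _) ?_
      intro x hx
      rcases hx with rfl | hx
      · right; rfl
      · left; exact hx
  have := key Finset.univ
  rwa [Finset.coe_univ, Set.image_univ] at this

private lemma CostM_lmono {Ω : Type*} {d : ℕ} {A : Ω → Man d} {T T' : Set (Ω → ℝ)} {U U' : Set ((ω : Ω) → (A ω).M)}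
    {l : (ω : Ω) → Lv (A ω).M d} (h : LIn l T U) (hT : T ⊆ T') (hU : U ⊆ U') : LIn l T' U' :=
  ⟨fun i => hT (h.1 i), fun i j => hT (h.2.1 i j), hT h.2.2.1, hT h.2.2.2.1, hU h.2.2.2.2.1, hU h.2.2.2.2.2⟩

private lemma CostM_rmono {Ω : Type*} {d : ℕ} {A : Ω → Man d} {T T' : Set (Ω → ℝ)} {U U' : Set ((ω : Ω) → (A ω).M)}
    {R Q : Type} {σ : (ω : Ω) → Regs (A ω).M R Q} (h : RIn σ T U) (hT : T ⊆ T') (hU : U ⊆ U') : RIn σ T' U' :=
  ⟨fun i => hT (h.1 i), fun j => hU (h.2 j)⟩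

private lemma CostM_imono {Ω : Type*} {d : ℕ} {A : Ω → Man d} {T T' : Set (Ω → ℝ)} {U U' : Set ((ω : Ω) → (A ω).M)}
    {I : (ω : Ω) → Inp (A ω)} (h : IIn I T U) (hT : T ⊆ T') (hU : U ⊆ U') : IIn I T' U' :=
  ⟨hT h.1, hT h.2.1, hU h.2.2⟩

private lemma CostM_jn {Ω : Type*} {d : ℕ} {A : Ω → Man d} {T : Set (Ω → ℝ)} {U : Set ((ω : Ω) → (A ω).M)}
    {R Q : Type} {a : (ω : Ω) → Regs (A ω).M R Q} {l : (ω : Ω) → Lv (A ω).M d} {t : Ω → ℝ}
    (ha : RIn a T U) (hl : LIn l T U) (ht : t ∈ T) : RIn (fun ω => jn (a ω) (l ω) (t ω)) T U := by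
  refine ⟨?_, ?_⟩
  · rintro (i | i | i)
    · exact ha.1 i
    · exact (lin_en hl).1 i
    · exact ht
  · rintro (j | j)
    · exact ha.2 j
    · exact (lin_en hl).2 j

theorem circ_sel {Ω : Type*} {d : ℕ} {A : Ω → Man d} {S : Set (Ω → ℝ)} {V : Set ((ω : Ω) → (A ω).M)} {R Q : Type}
    [Fintype R] [Fintype Q] {t u : Ω → ℝ} (ht : t ∈ S) (hu : u ∈ S) {a b : (ω : Ω) → Regs (A ω).M R Q}
    (ha : RIn a S V) (hb : RIn b S V) :
    ∃ T U, Circ A S V (Fintype.card R + Fintype.card Q) T U ∧ RIn (fun ω => sel (t ω) (u ω) (a ω) (b ω)) T U := by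
  have h1 : Circ A S V (Fintype.card R * 1)
      (range fun i ω => if t ω ≤ u ω then (a ω).1 i else (b ω).1 i) ∅ :=
    Circ.family fun i => Circ.ite (Circ.var ht) (Circ.var hu) (Circ.var (ha.1 i)) (Circ.var (hb.1 i))
  have h2 : Circ A S V (Fintype.card Q * 1) ∅
      (range fun j ω => if t ω ≤ u ω then (a ω).2 j else (b ω).2 j) :=
    CostM_pfam fun j => Circ.pite (Circ.var ht) (Circ.var hu) (Circ.pvar (ha.2 j)) (Circ.pvar (hb.2 j))
  refine ⟨_, _, (h1.par h2).weaken (by omega) subset_rfl subset_rfl, fun i => Or.inl ⟨i, rfl⟩,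
    fun j => Or.inr ⟨j, rfl⟩⟩

private lemma CostM_mono {d : ℕ} {𝓜 : Mach d} {a b a' b' : ℕ} (h : 𝓜.CostLE a b) (ha : a ≤ a') (hb : b ≤ b') :
    𝓜.CostLE a' b' := by
  refine ⟨h.1.trans ha, ?_⟩
  intro Ω A S V I hI
  obtain ⟨h1, h2⟩ := h.2 A S V I hI
  refine ⟨fun x hx => ?_, fun σ hσ => ⟨?_, fun v g hv hg => ?_⟩⟩
  · obtain ⟨T, U, h3, h4⟩ := h1 x hx
    exact ⟨T, U, h3.weaken ha subset_rfl subset_rfl, h4⟩
  · exact (h2 σ hσ).1.weaken hb subset_rfl subset_rfl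
  · obtain ⟨T, U, h3, h4⟩ := (h2 σ hσ).2 v g hv hg
    exact ⟨T, U, h3.weaken hb subset_rfl subset_rfl, h4⟩

theorem bot_cost {d : ℕ} (hd : 0 < d) (c : ℚ) : (bot d c).CostLE (30 * d ^ 2) (250 * d ^ 2) := by
  have n1 : d ≤ d ^ 2 := Nat.le_self_pow (by norm_num) d
  have n2 : 1 ≤ d ^ 2 := le_trans hd n1
  refine ⟨?_, ?_⟩
  · show Fintype.card (RL d) + Fintype.card (Fin 2) ≤ _
    simp only [Fintype.card_sum, Fintype.card_prod, Fintype.card_fin]
    have n3 : d * d = d ^ 2 := (sq d).symm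
    rw [n3]
    omega
  intro Ω A S V I hI
  have s1 := CostM_real (Circ.base (A := A) (S := S) (V := V)) (circ_rad hI c)
  set S1 : Set (Ω → ℝ) := insert (fun ω => rad (I ω).K (I ω).r c) S with hS1
  have i1 : S ⊆ S1 := subset_insert _ _
  have j1 : (fun ω => rad (I ω).K (I ω).r c) ∈ S1 := mem_insert _ _
  refine ⟨fun x hx => ?_, fun σ hσ => ?_⟩
  · obtain ⟨T, U, h1, -, -, h2⟩ := circ_ini (A := A) (S := S1) (V := V) j1 hx
    exact ⟨T, U, (s1.trans h1).weaken (by omega) subset_rfl subset_rfl, lin_en h2⟩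
  have hl := lin_de hσ
  have s2 := CostM_real s1 (Circ.mul (A := A) (V := V) (Circ.var (i1 hI.2.1)) (Circ.var (i1 hI.2.1)))
  set S2 : Set (Ω → ℝ) := insert (fun ω => (I ω).r * (I ω).r) S1 with hS2
  have i2 : S ⊆ S2 := i1.trans (subset_insert _ _)
  have j2 : (fun ω => (I ω).r * (I ω).r) ∈ S2 := mem_insert _ _
  have k2 : (fun ω => rad (I ω).K (I ω).r c) ∈ S2 := subset_insert _ _ j1
  have hI2 : IIn I S2 V := CostM_imono hI i2 subset_rfl
  have hl2 : LIn (fun ω => deL (σ ω)) S2 V := CostM_lmono hl i2 subset_rfl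
  refine ⟨?_, fun v g hv hg => ?_⟩
  · have s3 := CostM_all s2 (circ_ok hI2 k2 j2 hl2)
    have h1 := Circ.pite (Circ.cst (A := A) (S2 ∪ {fun ω => (deL (σ ω)).ok (I ω) (rad (I ω).K (I ω).r c)
        ((I ω).r * (I ω).r)}) (V ∪ {fun ω => (deL (σ ω)).y}) 1 (x := 1) (by norm_num))
      (Circ.var (Or.inr rfl : (fun ω => (deL (σ ω)).ok (I ω) (rad (I ω).K (I ω).r c)
        ((I ω).r * (I ω).r)) ∈ S2 ∪ {fun ω => (deL (σ ω)).ok (I ω) (rad (I ω).K (I ω).r c)
        ((I ω).r * (I ω).r)}))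
      (Circ.pvar (Or.inr rfl : (fun ω => (deL (σ ω)).y) ∈ V ∪ {fun ω => (deL (σ ω)).y}))
      (Circ.pvar (Or.inl hI.2.2 : (fun ω => (I ω).x0) ∈ V ∪ {fun ω => (deL (σ ω)).y}))
    exact (s3.trans h1).weaken (by omega) subset_rfl subset_rfl
  · have s3 := CostM_pt s2 (circ_y hl2)
    set U3 : Set ((ω : Ω) → (A ω).M) := insert (fun ω => (deL (σ ω)).y) V with hU3
    have u3 : V ⊆ U3 := subset_insert _ _
    have v3 : (fun ω => (deL (σ ω)).y) ∈ U3 := mem_insert _ _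
    have s4 := CostM_vec s3 (Circ.tr (A := A) (p := fun ω => (deL (σ ω)).y) (q := fun ω => (deL (σ ω)).x)
      (w := g) (Circ.pvar v3) (Circ.pvar (u3 hl.2.2.2.2.1)) (Circ.of_subset (U := ∅)
        (by rintro _ ⟨i, rfl⟩; exact i2 (hg i)) (empty_subset _)))
    set S4 : Set (Ω → ℝ) := S2 ∪ range fun i ω => (A ω).Tr (deL (σ ω)).y (deL (σ ω)).x (g ω) i with hS4
    have i4 : S2 ⊆ S4 := subset_union_left
    obtain ⟨T, U, h1, -, -, h2⟩ := circ_upd (A := A) (S := S4) (V := U3) (I := I)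
      (ρ := fun ω => rad (I ω).K (I ω).r c) (H := fun ω => (I ω).r * (I ω).r)
      (l := fun ω => deL (σ ω))
      (w := fun ω i => (A ω).Tr (deL (σ ω)).y (deL (σ ω)).x (g ω) i)
      (p := fun ω => (deL (σ ω)).y) (v := v) hd
      (CostM_imono hI2 i4 u3) (i4 k2) (i4 j2) (CostM_lmono hl2 i4 u3)
      (fun i => Or.inr ⟨i, rfl⟩) v3 (i4 (i2 hv))
    refine ⟨T, U, (s4.trans h1).weaken (by omega) subset_rfl subset_rfl, ?_⟩
    exact lin_en h2

theorem up_cost {d : ℕ} (hd : 0 < d) {𝓜 : Mach d} {a b : ℕ} (h : 𝓜.CostLE a b) (T : ℕ) (c c' : ℚ) :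
    (up 𝓜 T c c').CostLE (a + 30 * d ^ 2) (2 * a + b + 300 * d ^ 2) := by
  have n1 : d ≤ d ^ 2 := Nat.le_self_pow (by norm_num) d
  have n2 : 1 ≤ d ^ 2 := le_trans hd n1
  have n3 : d * d = d ^ 2 := (sq d).symm
  letI := 𝓜.finR
  letI := 𝓜.finQ
  have hcard : Fintype.card (𝓜.R ⊕ (RL d ⊕ Unit)) + Fintype.card (𝓜.Q ⊕ Fin 2) ≤ a + (d + d ^ 2 + 5) := by
    have h1 : Fintype.card 𝓜.R + Fintype.card 𝓜.Q ≤ a := h.1
    simp only [Fintype.card_sum, Fintype.card_prod, Fintype.card_fin, Fintype.card_unit]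
    rw [n3]
    omega
  refine ⟨?_, ?_⟩
  · have h2 : @Fintype.card (up 𝓜 T c c').R (up 𝓜 T c c').finR + @Fintype.card (up 𝓜 T c c').Q
        (up 𝓜 T c c').finQ ≤ a + (d + d ^ 2 + 5) := hcard
    omega
  intro Ω A S V I hI
  refine ⟨fun x hx => ?_, fun σ hσ => ⟨?_, fun v g hv hg => ?_⟩⟩
  · -- start
    have s1 := CostM_real (Circ.base (A := A) (S := S) (V := V)) (circ_rad hI c)
    set S1 : Set (Ω → ℝ) := insert (fun ω => rad (I ω).K (I ω).r c) S with hS1
    have i1 : S ⊆ S1 := subset_insert _ _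
    obtain ⟨T1, U1, h1, hST, hVU, hl⟩ := circ_ini (A := A) (S := S1) (V := V)
      (ρ := fun ω => rad (I ω).K (I ω).r c) (mem_insert _ _) hx
    have s2 := CostM_pt (s1.trans h1) (circ_y hl)
    set U2 : Set ((ω : Ω) → (A ω).M) :=
      insert (fun ω => (Lv.ini (d := d) (rad (I ω).K (I ω).r c) (x ω)).y) U1 with hU2
    have u2 : U1 ⊆ U2 := subset_insert _ _
    obtain ⟨T3, U3, h3, hr⟩ := (h.2 A T1 U2 I (CostM_imono hI (i1.trans hST) (hVU.trans u2))).1
      (fun ω => (Lv.ini (d := d) (rad (I ω).K (I ω).r c) (x ω)).y) (mem_insert _ _)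
    have s3 := CostM_all s2 h3
    have s4 := CostM_real s3 (Circ.cst (A := A) (T1 ∪ T3) (U2 ∪ U3) 0 (x := 0) (by norm_num))
    refine ⟨_, _, s4.weaken (by omega) subset_rfl subset_rfl, ?_⟩
    exact CostM_jn (CostM_rmono hr (subset_union_right.trans (subset_insert _ _)) subset_union_right)
      (CostM_lmono hl (subset_union_left.trans (subset_insert _ _)) (u2.trans subset_union_left))
      (mem_insert _ _)
  · -- query
    have hi : RIn (fun ω => inner (σ ω)) S V := ⟨fun i => hσ.1 (.inl i), fun j => hσ.2 (.inl j)⟩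
    exact ((h.2 A S V I hI).2 _ hi).1.weaken (by omega) subset_rfl subset_rfl
  · -- step
    have hi : RIn (fun ω => inner (σ ω)) S V := ⟨fun i => hσ.1 (.inl i), fun j => hσ.2 (.inl j)⟩
    have ho : LIn (fun ω => own (σ ω)) S V :=
      lin_de (σ := fun ω => (fun i => (σ ω).1 (.inr (.inl i)), fun j => (σ ω).2 (.inr j)))
        ⟨fun i => hσ.1 (.inr (.inl i)), fun j => hσ.2 (.inr j)⟩
    have hc : (fun ω => clk (σ ω)) ∈ S := hσ.1 (.inr (.inr ()))
    obtain ⟨T0, U0, h0, hr0⟩ := ((h.2 A S V I hI).2 _ hi).2 v g hv hg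
    have s0 := CostM_all (Circ.base (A := A) (S := S) (V := V)) h0
    -- abbreviations
    set P : (ω : Ω) → (A ω).M := fun ω => (𝓜.step (I ω) (inner (σ ω)) (v ω) (g ω)).2 𝓜.res with hP
    set W : Ω → ℝ := fun ω => (𝓜.step (I ω) (inner (σ ω)) (v ω) (g ω)).1 𝓜.rv with hW
    set SS0 : Set (Ω → ℝ) := S ∪ T0 with hSS0
    set VV0 : Set ((ω : Ω) → (A ω).M) := V ∪ U0 with hVV0
    have a0 : S ⊆ SS0 := subset_union_left
    have b0 : V ⊆ VV0 := subset_union_left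
    have hr0' : RIn (fun ω => 𝓜.step (I ω) (inner (σ ω)) (v ω) (g ω)) SS0 VV0 :=
      CostM_rmono hr0 subset_union_right subset_union_right
    have p0 : P ∈ VV0 := hr0'.2 𝓜.res
    have w0 : W ∈ SS0 := hr0'.1 𝓜.rv
    have hI0 : IIn I SS0 VV0 := CostM_imono hI a0 b0
    have s1 := CostM_real s0 (circ_rad hI0 c)
    set SS1 : Set (Ω → ℝ) := insert (fun ω => rad (I ω).K (I ω).r c) SS0 with hSS1
    have a1 : SS0 ⊆ SS1 := subset_insert _ _
    have s2 := CostM_real s1 (circ_thH (CostM_imono hI0 a1 subset_rfl) c')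
    set SS2 : Set (Ω → ℝ) := insert (fun ω => thH (I ω).K (I ω).r c') SS1 with hSS2
    have a2 : SS0 ⊆ SS2 := a1.trans (subset_insert _ _)
    have ho2 : LIn (fun ω => own (σ ω)) SS2 VV0 := CostM_lmono ho (a0.trans a2) b0
    have s3 := CostM_pt s2 (circ_y ho2)
    set VV3 : Set ((ω : Ω) → (A ω).M) := insert (fun ω => (own (σ ω)).y) VV0 with hVV3
    have b3 : VV0 ⊆ VV3 := subset_insert _ _
    have y3 : (fun ω => (own (σ ω)).y) ∈ VV3 := mem_insert _ _
    have s4 := CostM_vec s3 (Circ.log (A := A) (p := fun ω => (own (σ ω)).y) (q := P)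
      (Circ.pvar y3) (Circ.pvar (b3 p0)))
    set SS4 : Set (Ω → ℝ) := SS2 ∪ range fun i ω => (A ω).Log (own (σ ω)).y (P ω) i with hSS4
    have a4 : SS2 ⊆ SS4 := subset_union_left
    have s5 := CostM_vec s4 (Circ.tr (A := A) (p := fun ω => (own (σ ω)).y) (q := fun ω => (own (σ ω)).x)
      (w := fun ω => (A ω).Log (own (σ ω)).y (P ω))
      (Circ.pvar y3) (Circ.pvar (b3 ho2.2.2.2.2.1)) (Circ.of_subset (U := ∅)
        (by rintro _ ⟨i, rfl⟩; exact Or.inr ⟨i, rfl⟩) (empty_subset _)))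
    set SS5 : Set (Ω → ℝ) := SS4 ∪ range fun i ω =>
      (A ω).Tr (own (σ ω)).y (own (σ ω)).x ((A ω).Log (own (σ ω)).y (P ω)) i with hSS5
    have a5 : SS4 ⊆ SS5 := subset_union_left
    have t5 : ∀ i : Fin d, (fun ω =>
        (A ω).Tr (own (σ ω)).y (own (σ ω)).x ((A ω).Log (own (σ ω)).y (P ω)) i) ∈ SS5 :=
      fun i => Or.inr ⟨i, rfl⟩
    have f5 : Circ A SS5 VV3 (Fintype.card (Fin d) * 2) (range fun (i : Fin d) ω =>
        (0 : ℝ) - (A ω).Tr (own (σ ω)).y (own (σ ω)).x ((A ω).Log (own (σ ω)).y (P ω)) i) ∅ := by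
      refine Circ.family fun i => ?_
      have k0 : Circ A SS5 VV3 1 {fun _ => (0 : ℝ)} ∅ := Circ.cst SS5 VV3 0 (by norm_num)
      exact Circ.sub k0 (Circ.var (t5 i))
    have s6 := CostM_vec s5 f5
    set SS6 : Set (Ω → ℝ) := SS5 ∪ range fun (i : Fin d) ω =>
      (0 : ℝ) - (A ω).Tr (own (σ ω)).y (own (σ ω)).x ((A ω).Log (own (σ ω)).y (P ω)) i with hSS6
    have a6 : SS5 ⊆ SS6 := subset_union_left
    have a26 : SS2 ⊆ SS6 := (a4.trans a5).trans a6
    obtain ⟨T7, U7, h7, hT7, hU7, hl7⟩ := circ_upd (A := A) (S := SS6) (V := VV3) (I := I)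
      (ρ := fun ω => rad (I ω).K (I ω).r c) (H := fun ω => thH (I ω).K (I ω).r c')
      (l := fun ω => own (σ ω))
      (w := fun ω i => 0 - (A ω).Tr (own (σ ω)).y (own (σ ω)).x ((A ω).Log (own (σ ω)).y (P ω)) i)
      (p := P) (v := W) hd
      (CostM_imono hI0 (a2.trans a26) b3) (a26 (subset_insert _ _ (mem_insert _ _)))
      (a26 (mem_insert _ _)) (CostM_lmono ho2 a26 b3)
      (fun i => Or.inr ⟨i, rfl⟩) (b3 p0) (a26 (a2 w0))
    have s7 := s6.trans h7
    have hl7' : LIn (fun ω => updU (I ω) c c' (own (σ ω)) (P ω) (W ω)) T7 U7 := hl7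
    have s8 := CostM_pt s7 (circ_y hl7')
    set VV8 : Set ((ω : Ω) → (A ω).M) :=
      insert (fun ω => (updU (I ω) c c' (own (σ ω)) (P ω) (W ω)).y) U7 with hVV8
    have b8 : U7 ⊆ VV8 := subset_insert _ _
    have hSa : S ⊆ T7 := ((a0.trans a2).trans a26).trans hT7
    have hVa : V ⊆ U7 := (b0.trans b3).trans hU7
    obtain ⟨T9, U9, h9, hr9⟩ := (h.2 A T7 VV8 I (CostM_imono hI hSa (hVa.trans b8))).1
      (fun ω => (updU (I ω) c c' (own (σ ω)) (P ω) (W ω)).y) (mem_insert _ _)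
    have s9 := CostM_all s8 h9
    set SS9 : Set (Ω → ℝ) := T7 ∪ T9 with hSS9
    set VV9 : Set ((ω : Ω) → (A ω).M) := VV8 ∪ U9 with hVV9
    have a9 : T7 ⊆ SS9 := subset_union_left
    have b9 : U7 ⊆ VV9 := b8.trans subset_union_left
    have s10 := CostM_real s9 (Circ.add (A := A) (V := VV9) (Circ.var (a9 (hSa hc)))
      (Circ.cst SS9 VV9 1 (x := 1) (by norm_num)))
    set SS10 : Set (Ω → ℝ) := insert (fun ω => clk (σ ω) + 1) SS9 with hSS10
    have a10 : SS9 ⊆ SS10 := subset_insert _ _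
    have s11 := CostM_real s10 (Circ.cst (A := A) SS10 VV9 (T : ℚ) (x := (T : ℝ)) (by norm_cast))
    set SS11 : Set (Ω → ℝ) := insert (fun _ => (T : ℝ)) SS10 with hSS11
    have a11 : SS10 ⊆ SS11 := subset_insert _ _
    have s12 := CostM_real s11 (Circ.cst (A := A) SS11 VV9 0 (x := 0) (by norm_num))
    set SS12 : Set (Ω → ℝ) := insert (fun _ => (0 : ℝ)) SS11 with hSS12
    have a12 : SS11 ⊆ SS12 := subset_insert _ _
    have e1 : RIn (fun ω => jn (𝓜.start (I ω) (updU (I ω) c c' (own (σ ω)) (P ω) (W ω)).y)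
        (updU (I ω) c c' (own (σ ω)) (P ω) (W ω)) 0) SS12 VV9 :=
      CostM_jn (t := fun _ => (0 : ℝ))
        (CostM_rmono hr9 (((subset_union_right.trans a10).trans a11).trans a12) subset_union_right)
        (CostM_lmono hl7' (((a9.trans a10).trans a11).trans a12) b9) (mem_insert _ _)
    have hT0 : SS0 ⊆ SS12 := ((((((a2.trans a26).trans hT7).trans a9).trans a10).trans a11).trans a12)
    have hU0 : VV0 ⊆ VV9 := (b3.trans hU7).trans b9
    have e2 : RIn (fun ω => jn (𝓜.step (I ω) (inner (σ ω)) (v ω) (g ω)) (own (σ ω)) (clk (σ ω) + 1))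
        SS12 VV9 :=
      CostM_jn (t := fun ω => clk (σ ω) + 1) (CostM_rmono hr0' hT0 hU0)
        (CostM_lmono ho (a0.trans hT0) (b0.trans hU0)) (a12 (a11 (mem_insert _ _)))
    obtain ⟨T13, U13, h13, hr13⟩ := circ_sel (A := A) (S := SS12) (V := VV9)
      (R := 𝓜.R ⊕ (RL d ⊕ Unit)) (Q := 𝓜.Q ⊕ Fin 2)
      (t := fun _ => (T : ℝ)) (u := fun ω => clk (σ ω) + 1)
      (a12 (mem_insert _ _)) (a12 (a11 (mem_insert _ _))) e1 e2
    refine ⟨T13, U13, (s12.trans h13).weaken ?_ subset_rfl subset_rfl, hr13⟩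
    rw [Fintype.card_fin]
    omega

theorem mk_cost {d : ℕ} (hd : 0 < d) (N i j : ℕ) :
    (mk d N i j).CostLE (30 * (i + 1) * d ^ 2) (400 * (i + 1) ^ 2 * d ^ 2) := by
  induction i generalizing j with
  | zero =>
    refine CostM_mono (bot_cost hd (rc j)) ?_ ?_
    · nlinarith [Nat.zero_le (d ^ 2)]
    · nlinarith [Nat.zero_le (d ^ 2)]
  | succ i ih =>
    refine CostM_mono (up_cost hd (ih (j + 1)) (N ^ (i + 1)) (rc j) (rc (j + 1))) ?_ ?_
    · nlinarith [Nat.zero_le (d ^ 2)]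
    · nlinarith [Nat.zero_le (d ^ 2), Nat.zero_le (i * d ^ 2)]

end Pool.Agent.H62.QP
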