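import Pool.Agent.H62.QP.CostM

/-!
# QP.CostT : cost of the algorithm (module CostT, about 90 lines)

`Ω = Env d R Q` with `R = 𝓜.R ⊕ Fin 2`, `Q = 𝓜.Q ⊕ Unit`, `A ω = ω.A`, `I ω = ⟨ω.x0, ω.K, ω.r, ω.κ⟩`, `S = reals ∪ answer`, `V = points`. `RIn` of `innerT (ω.reg, ω.pt)` is immediate. Step of `𝓜`; start at its result; start at `x0`; constants `0`, `1`, `T`; `clk + 1`; two `circ_sel` (registers: at most `a + 3`). Query: from `reals` only (`h` with `S = reals`).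
-/

set_option autoImplicit false

open Metric Set Matrix

namespace Pool.Agent.H62.QP

open Pool.Agent.H62.FD hiding Algo
open Pool.Agent.H62.GR

private lemma costT_mono {Ω : Type*} {d : ℕ} {A : Ω → Man d} {R Q : Type}
    {σ : (ω : Ω) → Regs (A ω).M R Q} {T T' : Set (Ω → ℝ)} {U U' : Set ((ω : Ω) → (A ω).M)}
    (h : RIn σ T U) (hT : T ⊆ T') (hU : U ⊆ U') : RIn σ T' U' :=
  ⟨fun i => hT (h.1 i), fun j => hU (h.2 j)⟩

private lemma costT_jt {Ω : Type*} {d : ℕ} {A : Ω → Man d} {R Q : Type}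
    {σ : (ω : Ω) → Regs (A ω).M R Q} {S : Set (Ω → ℝ)} {V : Set ((ω : Ω) → (A ω).M)}
    (h : RIn σ S V) {t u : Ω → ℝ} (ht : t ∈ S) (hu : u ∈ S) {m : (ω : Ω) → (A ω).M} (hm : m ∈ V) :
    RIn (fun ω => jt (σ ω) (t ω) (u ω) (m ω)) S V := by
  constructor
  · rintro (i | i)
    · exact h.1 i
    · fin_cases i
      · exact ht
      · exact hu
  · rintro (j | j)
    · exact h.2 j
    · exact hm

private lemma costT_st {Ω : Type*} {d : ℕ} {A : Ω → Man d} {S T T' : Set (Ω → ℝ)}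
    {V U U' : Set ((ω : Ω) → (A ω).M)} {n m : ℕ} (h1 : Circ A S V n T U) (h2 : Circ A T U m T' U') :
    Circ A S V (n + m) (T ∪ T') (U ∪ U') := h1.trans h2.keep

private lemma costT_le {d : ℕ} {𝒜 : Algo d} {n m : ℕ} (h : 𝒜.CostLE n) (hnm : n ≤ m) :
    𝒜.CostLE m := by
  obtain ⟨h1, ⟨T, U, h2, h3⟩, ⟨T', U', h4, h5⟩⟩ := h
  exact ⟨h1.trans hnm, ⟨T, U, h2.weaken hnm subset_rfl subset_rfl, h3⟩,
    ⟨T', U', h4.weaken hnm subset_rfl subset_rfl, h5⟩⟩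

theorem top_cost {d : ℕ} {𝓜 : Mach d} {a b : ℕ} (h : 𝓜.CostLE a b) (T : ℕ) : (top 𝓜 T).CostLE (b + 4 * a + 30) := by
  let _ := 𝓜.finR
  let _ := 𝓜.finQ
  obtain ⟨hcard, hC⟩ := h
  have hcard' : Fintype.card (𝓜.R ⊕ Fin 2) + Fintype.card (𝓜.Q ⊕ Unit) ≤ a + 3 := by
    rw [Fintype.card_sum, Fintype.card_sum, Fintype.card_fin, Fintype.card_unit]
    omega
  refine ⟨?_, ?_, ?_⟩
  · exact hcard'.trans (by omega)
  · have hI : IIn (A := fun ω : Env d (𝓜.R ⊕ Fin 2) (𝓜.Q ⊕ Unit) => ω.A)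
        (fun ω => ⟨ω.x0, ω.K, ω.r, ω.κ⟩) (reals d (𝓜.R ⊕ Fin 2) (𝓜.Q ⊕ Unit))
        (points d (𝓜.R ⊕ Fin 2) (𝓜.Q ⊕ Unit)) :=
      ⟨Or.inl (Or.inl rfl), Or.inl (Or.inr (Or.inl rfl)), Or.inl rfl⟩
    have hσ : RIn (A := fun ω : Env d (𝓜.R ⊕ Fin 2) (𝓜.Q ⊕ Unit) => ω.A)
        (fun ω => innerT (ω.reg, ω.pt)) (reals d (𝓜.R ⊕ Fin 2) (𝓜.Q ⊕ Unit))
        (points d (𝓜.R ⊕ Fin 2) (𝓜.Q ⊕ Unit)) :=
      ⟨fun i => Or.inr ⟨.inl i, rfl⟩, fun j => Or.inr ⟨.inl j, rfl⟩⟩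
    obtain ⟨-, h2⟩ := hC _ _ _ _ hI
    obtain ⟨h3, -⟩ := h2 _ hσ
    exact ⟨_, _, h3.weaken (by omega) subset_rfl subset_rfl, rfl⟩
  · set Ω := Env d (𝓜.R ⊕ Fin 2) (𝓜.Q ⊕ Unit) with hΩ
    set S : Set (Ω → ℝ) := reals d (𝓜.R ⊕ Fin 2) (𝓜.Q ⊕ Unit) ∪ answer d (𝓜.R ⊕ Fin 2) (𝓜.Q ⊕ Unit)
      with hS
    set V : Set ((ω : Ω) → ω.A.M) := points d (𝓜.R ⊕ Fin 2) (𝓜.Q ⊕ Unit) with hV
    set I : (ω : Ω) → Inp ω.A := fun ω => ⟨ω.x0, ω.K, ω.r, ω.κ⟩ with hIdef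
    have hI : IIn (A := fun ω : Ω => ω.A) I S V :=
      ⟨Or.inl (Or.inl (Or.inl rfl)), Or.inl (Or.inl (Or.inr (Or.inl rfl))), Or.inl rfl⟩
    have hreg : ∀ i, (fun ω : Ω => ω.reg i) ∈ S := fun i => Or.inl (Or.inr ⟨i, rfl⟩)
    have hpt : ∀ j, (fun ω : Ω => ω.pt j) ∈ V := fun j => Or.inr ⟨j, rfl⟩
    have hσ : RIn (A := fun ω : Ω => ω.A) (fun ω => innerT (ω.reg, ω.pt)) S V :=
      ⟨fun i => hreg (.inl i), fun j => hpt (.inl j)⟩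
    have hval : (fun ω : Ω => ω.val) ∈ S := Or.inr (Or.inl rfl)
    have hgrad : ∀ i, (fun ω : Ω => ω.grad i) ∈ S := fun i => Or.inr (Or.inr ⟨i, rfl⟩)
    -- the step of the machine
    obtain ⟨T1, U1, c1, r1⟩ := ((hC _ S V I hI).2 _ hσ).2 _ _ hval hgrad
    have k1 := costT_st (Circ.base (A := fun ω : Ω => ω.A) (S := S) (V := V)) c1
    -- start at the result
    have hI1 : IIn (A := fun ω : Ω => ω.A) I (S ∪ T1) (V ∪ U1) :=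
      ⟨Or.inl hI.1, Or.inl hI.2.1, Or.inl hI.2.2⟩
    obtain ⟨T2, U2, c2, r2⟩ := (hC _ _ _ I hI1).1
      (fun ω => (𝓜.step (I ω) (innerT (ω.reg, ω.pt)) ω.val ω.grad).2 𝓜.res) (Or.inr (r1.2 _))
    have k2 := costT_st k1 c2
    -- start at the base point
    have hI2 : IIn (A := fun ω : Ω => ω.A) I (S ∪ T1 ∪ T2) (V ∪ U1 ∪ U2) :=
      ⟨Or.inl hI1.1, Or.inl hI1.2.1, Or.inl hI1.2.2⟩
    obtain ⟨T3, U3, c3, r3⟩ := (hC _ _ _ I hI2).1 (fun ω => (I ω).x0) hI2.2.2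
    have k3 := costT_st k2 c3
    -- the constants and the clock
    set S3 : Set (Ω → ℝ) := S ∪ T1 ∪ T2 ∪ T3 with hS3
    set V3 : Set ((ω : Ω) → ω.A.M) := V ∪ U1 ∪ U2 ∪ U3 with hV3
    have eS : S ⊆ S3 := subset_union_left.trans (subset_union_left.trans subset_union_left)
    have eV : V ⊆ V3 := subset_union_left.trans (subset_union_left.trans subset_union_left)
    have d0 : Circ (fun ω : Ω => ω.A) S3 V3 1 {fun _ => (0 : ℝ)} ∅ := Circ.cst S3 V3 0 (by simp)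
    have d1 : Circ (fun ω : Ω => ω.A) S3 V3 1 {fun _ => (1 : ℝ)} ∅ := Circ.cst S3 V3 1 (by simp)
    have d2 : Circ (fun ω : Ω => ω.A) S3 V3 1 {fun _ => (T : ℝ)} ∅ :=
      Circ.cst S3 V3 (T : ℚ) (by simp)
    have d3 : Circ (fun ω : Ω => ω.A) S3 V3 2 {fun ω => ω.reg (.inr 0) + 1} ∅ :=
      (Circ.add (Circ.var (eS (hreg (.inr 0)))) d1).weaken (by omega) subset_rfl subset_rfl
    have k4 := costT_st k3 ((d0.par d1).par (d2.par d3))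
    simp only [union_empty] at k4
    set S4 : Set (Ω → ℝ) := S3 ∪ ({fun _ => (0 : ℝ)} ∪ {fun _ => (1 : ℝ)} ∪
      ({fun _ => (T : ℝ)} ∪ {fun ω => ω.reg (.inr 0) + 1})) with hS4
    have f0 : (fun _ : Ω => (0 : ℝ)) ∈ S4 := Or.inr (Or.inl (Or.inl rfl))
    have f1 : (fun _ : Ω => (1 : ℝ)) ∈ S4 := Or.inr (Or.inl (Or.inr rfl))
    have f2 : (fun _ : Ω => (T : ℝ)) ∈ S4 := Or.inr (Or.inr (Or.inl rfl))
    have f3 : (fun ω : Ω => ω.reg (.inr 0) + 1) ∈ S4 := Or.inr (Or.inr (Or.inr rfl))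
    have g1 : RIn (A := fun ω : Ω => ω.A)
        (fun ω => 𝓜.step (I ω) (innerT (ω.reg, ω.pt)) ω.val ω.grad) S4 V3 :=
      costT_mono r1 (fun x hx => Or.inl (Or.inl (Or.inl (Or.inr hx))))
        (fun x hx => Or.inl (Or.inl (Or.inr hx)))
    have g2 := costT_mono (T' := S4) (U' := V3) r2 (fun x hx => Or.inl (Or.inl (Or.inr hx)))
      (fun x hx => Or.inl (Or.inr hx))
    have g3 := costT_mono (T' := S4) (U' := V3) r3 (fun x hx => Or.inl (Or.inr hx))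
      (fun x hx => Or.inr hx)
    have q1 := costT_jt g2 f0 f1 (g1.2 𝓜.res)
    have q2 := costT_jt g1 f3 f1 (eV (hpt (.inr ())))
    obtain ⟨T5, U5, c5, r5⟩ := circ_sel f2 f3 q1 q2
    have k5 := costT_st k4 c5
    have q3 := costT_mono (T' := S4 ∪ T5) (U' := V3 ∪ U5) (costT_jt g3 f0 f1 (eV hI.2.2))
      subset_union_left subset_union_left
    have q4 := costT_mono (T' := S4 ∪ T5) (U' := V3 ∪ U5) r5 subset_union_right subset_union_right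
    have f4 : (fun ω : Ω => ω.reg (.inr 1)) ∈ S4 ∪ T5 := Or.inl (Or.inl (eS (hreg (.inr 1))))
    obtain ⟨T6, U6, c6, r6⟩ := circ_sel (Or.inl f1 : (fun _ : Ω => (1 : ℝ)) ∈ S4 ∪ T5) f4 q4 q3
    have k6 := k5.trans c6
    exact ⟨T6, U6, k6.weaken (by omega) subset_rfl subset_rfl, r6.1, r6.2⟩

theorem alg_cost {d : ℕ} (hd : 0 < d) (N J T : ℕ) : (top (mk d N J 0) T).CostLE (600 * (J + 1) ^ 2 * d ^ 2) := by
  refine costT_le (top_cost (mk_cost hd N J 0) T) ?_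
  have h1 : 1 ≤ d ^ 2 := Nat.one_le_pow _ _ hd
  have h2 : J + 1 ≤ (J + 1) ^ 2 := Nat.le_self_pow (by norm_num) _
  have h3 : (J + 1) * d ^ 2 ≤ (J + 1) ^ 2 * d ^ 2 := Nat.mul_le_mul_right _ h2
  have h4 : 1 ≤ (J + 1) ^ 2 * d ^ 2 := Nat.succ_le_of_lt (Nat.mul_pos (by positivity) h1)
  have e1 : 400 * (J + 1) ^ 2 * d ^ 2 = 400 * ((J + 1) ^ 2 * d ^ 2) := by ring
  have e2 : 30 * (J + 1) * d ^ 2 = 30 * ((J + 1) * d ^ 2) := by ring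
  have e3 : 600 * (J + 1) ^ 2 * d ^ 2 = 600 * ((J + 1) ^ 2 * d ^ 2) := by ring
  rw [e1, e2, e3]
  omega

end Pool.Agent.H62.QP
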