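import Pool.Agent.H62.GR.LogLip

/-!
# QP.CutUp : the cuts of the upper levels (module CutUp, about 170 lines). This is the heart of the theorem.

`X = Exp x c`, `y = Exp x u`, `s = 1000 K ρ³`. `chart_err`: `tri` at `(x, X, y)` (`Log x X = c`, `Log x y = u` by `log_exp`, distances `≤ 2 ρ`): error `≤ 200 K ρ area(c, u) ≤ 200 K ρ³ = s / 5`.
`cut_deep`: `D = dist x0 X > r + s / 2`. `law_cos` at `X` with the points `y`, `x0`: `2 ⟪Log X x0, Log X y⟫ ≥ D² + dist X y ² - dist y x0 ² ≥ D² - r² ≥ D s / 2`; error `D s / 5`; so `⟪Tr X x (Log X x0), u - c⟫ ≥ D s / 4 - D s / 5 ≥ 0` (`tr_inner`, `tr_norm`).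
`cut_up`: `t1 = s² / (40 ρ²) ∈ (0, 1)`, `hh = A.H p y t1` is in the ball (`ball_conv`), `f hh ≤ (1 - t1) f p + t1 f y < f p - a` (`hf`), so `dist X hh > s` by `hmin`. Let `P = dist X p ≤ s + η`, `η = 2000 K s³ ≤ s³ / (1000 ρ²)` (as `K ρ² ≤ 10 ^ (-7)`), `B = dist X y ≤ 2 ρ`, `C = dist p y ≤ P + B ≤ 2.1 ρ`
(`s ≤ ρ / 1000`). `cat` at `X`: `s² < (1-t1) P² + t1 B² - t1 (1-t1) C²`. `law_cos` at `X` with `p`, `y`: `2 ⟪Log X p, Log X y⟫ ≥ P² + B² - C² > (s² - P²) / t1 + 2 P² - t1 C²`. If `P ≥ s`: `(s² - P²) / t1 ≥ -(2 s η + η²) 40 ρ² / s² ≥ -0.13 s²`, `2 P² ≥ 2 s²`. If `P < s`: `(s² - P²) / t1 ≥ s² - P²`.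
`t1 C² ≤ (4.41 / 40) s² ≤ 0.12 s²`. In both cases `2 ⟪Log X p, Log X y⟫ ≥ 0.75 s²`. Error: `P s / 5 ≤ 1.01 s² / 5`. So the inner product with `u - c` is `≥ 0.375 s² - 0.21 s² > 0`.
-/

set_option autoImplicit false

open Metric Set

namespace Pool.Agent.H62.QP

open Pool.Agent.H62.FD hiding Algo
open Pool.Agent.H62.GR

variable {d : ℕ} {A : Man d} {K ρ : ℝ}

theorem chart_err (h : Geo A K ρ) {x : A.M} {c u : E d} (hc : ‖c‖ ≤ ρ) (hu : ‖u‖ ≤ ρ) :
    ‖A.Tr (A.Exp x c) x (A.Log (A.Exp x c) (A.Exp x u)) - (u - c)‖ ≤ 200 * K * ρ ^ 3 := by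
  have hs := h.s_pos
  have hK := h.K_pos
  have h1 : dist x (A.Exp x c) = ‖c‖ := exp_dist h x hc
  have h2 : dist x (A.Exp x u) = ‖u‖ := exp_dist h x hu
  have h3 : dist (A.Exp x c) (A.Exp x u) ≤ ‖c‖ + ‖u‖ := by
    have h4 := dist_triangle_left (A.Exp x c) (A.Exp x u) x
    rw [h1, h2] at h4
    exact h4
  have h5 := h.tri x (A.Exp x c) (A.Exp x u) (by rw [h1]; linarith) (by rw [h2]; linarith) (by linarith)
  rw [h.log_exp x c hc, h.log_exp x u hu] at h5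
  refine h5.trans ?_
  have h6 : area c u ≤ ρ * ρ :=
    (area_le _ _).trans (mul_le_mul hc hu (norm_nonneg _) hs.le)
  have h7 : 200 * K * ρ * area c u ≤ 200 * K * ρ * (ρ * ρ) :=
    mul_le_mul_of_nonneg_left h6 (by positivity)
  refine h7.trans (le_of_eq ?_)
  ring

theorem cut_deep (h : Geo A K ρ) {x0 x : A.M} {r : ℝ} (hr : 0 ≤ r) {c u : E d} (hc : ‖c‖ ≤ ρ) (hu : ‖u‖ ≤ ρ)
    (hx : r + 1000 * K * ρ ^ 3 / 2 < dist x0 (A.Exp x c)) (hy : A.Exp x u ∈ closedBall x0 r) :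
    A.Tr (A.Exp x c) x (A.Log (A.Exp x c) x0) ≠ 0 ∧
    0 ≤ inner ℝ (A.Tr (A.Exp x c) x (A.Log (A.Exp x c) x0)) (u - c) := by
  have hs := h.s_pos
  have hK := h.K_pos
  have hδ : 0 < 200 * K * ρ ^ 3 := by positivity
  have hx' : r + 2.5 * (200 * K * ρ ^ 3) < dist x0 (A.Exp x c) := by
    refine lt_of_eq_of_lt ?_ hx
    ring
  have h1 := law_cos h (A.Exp x c) (A.Exp x u) x0
  have h2 := chart_err h (x := x) hc hu
  have hn : ‖A.Tr (A.Exp x c) x (A.Log (A.Exp x c) x0)‖ = dist x0 (A.Exp x c) := by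
    rw [tr_norm h, h.log_norm, dist_comm]
  have hi := tr_inner h (A.Exp x c) x (A.Log (A.Exp x c) x0) (A.Log (A.Exp x c) (A.Exp x u))
  rw [mem_closedBall] at hy
  rw [dist_comm (A.Exp x c) x0] at h1
  clear hx
  generalize 200 * K * ρ ^ 3 = δ at *
  generalize A.Tr (A.Exp x c) x (A.Log (A.Exp x c) x0) = v at *
  generalize A.Tr (A.Exp x c) x (A.Log (A.Exp x c) (A.Exp x u)) = b at *
  have hy2 : dist (A.Exp x u) x0 ^ 2 ≤ r ^ 2 := pow_le_pow_left₀ dist_nonneg hy 2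
  have hxy : 0 ≤ dist (A.Exp x c) (A.Exp x u) ^ 2 := sq_nonneg _
  generalize dist x0 (A.Exp x c) = D at *
  have hD : 0 < D := by linarith
  constructor
  · intro h0
    rw [h0, norm_zero] at hn
    linarith
  · have h5 : 2.5 * δ * D ≤ D ^ 2 - r ^ 2 := by
      have h3 : 0 ≤ (D - r - 2.5 * δ) * D := mul_nonneg (by linarith) hD.le
      have h4 : 0 ≤ (D - r) * r := mul_nonneg (by linarith) hr
      nlinarith
    have h6 : 1.25 * δ * D ≤ inner ℝ v b := by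
      rw [hi]
      norm_num at h5 ⊢
      linarith
    have h7 : inner ℝ v (u - c) = inner ℝ v b - inner ℝ v (b - (u - c)) := by
      rw [inner_sub_right v b (u - c)]
      ring
    have h8 : inner ℝ v (b - (u - c)) ≤ D * δ := by
      refine (real_inner_le_norm _ _).trans ?_
      rw [hn]
      exact mul_le_mul_of_nonneg_left h2 hD.le
    rw [h7]
    have h9 : 0 ≤ δ * D := by positivity
    norm_num at h6
    linarith

private lemma key {s η P B C t : ℝ} (hs : 0 < s) (ht0 : 0 < t) (ht1 : t ≤ 1) (hP : 0 ≤ P)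
    (hPη : P ≤ s + η) (hη0 : 0 ≤ η) (hη : η ≤ 0.008 * (t * s)) (hC : t * C ^ 2 ≤ 0.12 * s ^ 2)
    (hcat : s ^ 2 < (1 - t) * P ^ 2 + t * B ^ 2 - t * (1 - t) * C ^ 2) :
    0.75 * s ^ 2 ≤ B ^ 2 + P ^ 2 - C ^ 2 := by
  have h1 : t * (t * C ^ 2) ≤ t * (0.12 * s ^ 2) := mul_le_mul_of_nonneg_left hC ht0.le
  have h2 : t * (0.75 * s ^ 2) ≤ t * (B ^ 2 + P ^ 2 - C ^ 2) := by
    have hts : 0 ≤ t * s ^ 2 := by positivity
    rcases le_total s P with h | h
    · have h3 : P ^ 2 ≤ (s + η) ^ 2 := pow_le_pow_left₀ hP hPη 2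
      have h4 : s ^ 2 ≤ P ^ 2 := pow_le_pow_left₀ hs.le h 2
      have h5 : t * s ^ 2 ≤ t * P ^ 2 := mul_le_mul_of_nonneg_left h4 ht0.le
      have h6 : s * η ≤ s * (0.008 * (t * s)) := mul_le_mul_of_nonneg_left hη hs.le
      have h8 : η ≤ s := by
        refine hη.trans ?_
        have : t * s ≤ 1 * s := mul_le_mul_of_nonneg_right ht1 hs.le
        norm_num at this ⊢
        linarith
      have h7 : η * η ≤ s * η := mul_le_mul_of_nonneg_right h8 hη0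
      norm_num at h1 h6 ⊢
      nlinarith
    · have h4 : P ^ 2 ≤ s ^ 2 := pow_le_pow_left₀ hP h 2
      have h5 : 0 ≤ (1 - t) * (s ^ 2 - P ^ 2) := mul_nonneg (by linarith) (by linarith)
      have h6 : 0 ≤ t * P ^ 2 := by positivity
      norm_num at h1 ⊢
      nlinarith
  exact le_of_mul_le_mul_left h2 ht0

theorem cut_up (h : Geo A K ρ) (hKρ : 10000000 * K * ρ ^ 2 ≤ 1) {s : ℝ} (hs : s = 1000 * K * ρ ^ 3) {x0 x p : A.M}
    {r a : ℝ} {f : A.M → ℝ} (hconv : GConv A.toPrim x0 r f) {c u : E d} (hc : ‖c‖ ≤ ρ) (hu : ‖u‖ ≤ ρ)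
    (hp : p ∈ closedBall x0 r) (hpd : dist (A.Exp x c) p ≤ s + 2000 * K * s ^ 3)
    (hmin : ∀ w ∈ closedBall x0 r, dist (A.Exp x c) w ≤ s → f p ≤ f w + a)
    (hy : A.Exp x u ∈ closedBall x0 r) (hf : a < (f p - f (A.Exp x u)) * (s ^ 2 / (40 * ρ ^ 2))) :
    A.Tr (A.Exp x c) x (A.Log (A.Exp x c) p) ≠ 0 ∧
    0 ≤ inner ℝ (A.Tr (A.Exp x c) x (A.Log (A.Exp x c) p)) (u - c) := by
  have hρ := h.s_pos
  have hK := h.K_pos
  have hs0 : 0 < s := by rw [hs]; positivity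
  have hsρ : s ≤ ρ / 10000 := by
    have h1 : ρ * (10000000 * K * ρ ^ 2) ≤ ρ * 1 := mul_le_mul_of_nonneg_left hKρ hρ.le
    rw [hs]
    nlinarith
  obtain ⟨t, ht⟩ : ∃ t : ℝ, t = s ^ 2 / (40 * ρ ^ 2) := ⟨_, rfl⟩
  have ht0 : 0 < t := by rw [ht]; positivity
  have hts : t * (40 * ρ ^ 2) = s ^ 2 := by
    rw [ht]
    field_simp
  have ht1 : t ≤ 1 := by
    rw [ht, div_le_one (by positivity)]
    have h1 : s ^ 2 ≤ (ρ / 10000) ^ 2 := pow_le_pow_left₀ hs0.le hsρ 2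
    nlinarith [sq_nonneg ρ]
  rw [← ht] at hf
  have htI : t ∈ Icc (0 : ℝ) 1 := ⟨ht0.le, ht1⟩
  obtain ⟨η, hη⟩ : ∃ η : ℝ, η = 2000 * K * s ^ 3 := ⟨_, rfl⟩
  have hη0 : 0 ≤ η := by rw [hη]; positivity
  rw [← hη] at hpd
  have hηt : η ≤ 0.008 * (t * s) := by
    have h1 : 0 < 40 * ρ ^ 2 := by positivity
    have h2 : η * (40 * ρ ^ 2) ≤ 0.008 * (t * s) * (40 * ρ ^ 2) := by
      have h3 : 0.008 * (t * s) * (40 * ρ ^ 2) = 0.008 * s * (t * (40 * ρ ^ 2)) := by ring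
      rw [h3, hts, hη]
      have h4 : (10000000 * K * ρ ^ 2) * s ^ 3 ≤ 1 * s ^ 3 :=
        mul_le_mul_of_nonneg_right hKρ (by positivity)
      norm_num
      nlinarith
    exact le_of_mul_le_mul_right h2 h1
  have hηs : η ≤ s := by
    refine hηt.trans ?_
    have : t * s ≤ 1 * s := mul_le_mul_of_nonneg_right ht1 hs0.le
    norm_num
    linarith
  -- distances
  have hXx : dist x (A.Exp x c) = ‖c‖ := exp_dist h x hc
  have hxy : dist x (A.Exp x u) = ‖u‖ := exp_dist h x hu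
  have hB : dist (A.Exp x c) (A.Exp x u) ≤ 2 * ρ := by
    have h4 := dist_triangle_left (A.Exp x c) (A.Exp x u) x
    linarith
  have hCle : dist p (A.Exp x u) ≤ 2.1 * ρ := by
    have h4 := dist_triangle_left p (A.Exp x u) (A.Exp x c)
    norm_num
    linarith
  have hC : t * dist p (A.Exp x u) ^ 2 ≤ 0.12 * s ^ 2 := by
    have h4 : dist p (A.Exp x u) ^ 2 ≤ (2.1 * ρ) ^ 2 := pow_le_pow_left₀ dist_nonneg hCle 2
    have h5 := mul_le_mul_of_nonneg_left h4 ht0.le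
    have h6 : 0 ≤ t * ρ ^ 2 := by positivity
    rw [← hts]
    norm_num at h5 ⊢
    nlinarith
  -- the point `H p y t` is far from `X`
  have hfar : s < dist (A.Exp x c) (A.H p (A.Exp x u) t) := by
    by_contra hcon
    have h1 := hmin _ (ball_conv h hp hy htI) (not_lt.1 hcon)
    have h2 := hconv p hp _ hy t htI
    have h3 : a < t * f p - t * f (A.Exp x u) := by
      refine lt_of_lt_of_eq hf ?_
      ring
    linarith
  have hcat := h.cat (A.Exp x c) p (A.Exp x u) t htI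
  have hfar2 : s ^ 2 < dist (A.Exp x c) (A.H p (A.Exp x u) t) ^ 2 := pow_lt_pow_left₀ hfar hs0.le two_ne_zero
  have hkey := key hs0 ht0 ht1 dist_nonneg hpd hη0 hηt hC (hfar2.trans_le hcat)
  have h1 := law_cos h (A.Exp x c) (A.Exp x u) p
  rw [dist_comm (A.Exp x u) p] at h1
  have h2 := chart_err h (x := x) hc hu
  have h2' : ‖A.Tr (A.Exp x c) x (A.Log (A.Exp x c) (A.Exp x u)) - (u - c)‖ ≤ s / 5 := by
    refine h2.trans (le_of_eq ?_)
    rw [hs]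
    ring
  have hn : ‖A.Tr (A.Exp x c) x (A.Log (A.Exp x c) p)‖ = dist (A.Exp x c) p := by
    rw [tr_norm h, h.log_norm]
  have hi := tr_inner h (A.Exp x c) x (A.Log (A.Exp x c) p) (A.Log (A.Exp x c) (A.Exp x u))
  have hin : 0.375 * s ^ 2 ≤ inner ℝ (A.Log (A.Exp x c) p) (A.Log (A.Exp x c) (A.Exp x u)) := by
    norm_num at hkey ⊢
    linarith
  rw [← hi] at hin
  have hP2 : dist (A.Exp x c) p ≤ 1.01 * s := by
    have h3 : η ≤ 0.008 * s := by
      refine hηt.trans ?_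
      have : t * s ≤ 1 * s := mul_le_mul_of_nonneg_right ht1 hs0.le
      norm_num
      linarith
    norm_num at h3 ⊢
    linarith
  clear hi h1 hkey hcat hfar hfar2 hC hCle
  generalize A.Tr (A.Exp x c) x (A.Log (A.Exp x c) p) = v at *
  generalize A.Tr (A.Exp x c) x (A.Log (A.Exp x c) (A.Exp x u)) = b at *
  have hs2 : 0 < s ^ 2 := by positivity
  constructor
  · intro h0
    rw [h0, inner_zero_left] at hin
    norm_num at hin
    linarith
  · have h7 : inner ℝ v (u - c) = inner ℝ v b - inner ℝ v (b - (u - c)) := by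
      rw [inner_sub_right v b (u - c)]
      ring
    have h8 : inner ℝ v (b - (u - c)) ≤ 1.01 * s * (s / 5) := by
      refine (real_inner_le_norm _ _).trans ?_
      rw [hn]
      exact mul_le_mul hP2 h2' (norm_nonneg _) (by positivity)
    rw [h7]
    norm_num at hin h8
    nlinarith

end Pool.Agent.H62.QP
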