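import Pool.Agent.H62.QP.MainJ

/-!
# QP.Fin : the theorem in terms of the accuracy (module Fin, about 100 lines)

`ℓ = 1 + log (1 / ε₀) ≥ 1`, `log (2 / ε₀) ≤ ℓ` (`log 2 ≤ 1`). `J` = least number with `log (2 / ε₀) ≤ 3 ^ J` (`Nat.find`). If `J ≥ 1`: `3 ^ (J - 1) < ℓ`, so `3 ^ J ≤ 3 ℓ` and `(J - 1) log 3 < log ℓ`, `J + 1 ≤ 2 + log ℓ` (`log 3 ≥ 1`: `Real.exp_one_lt_d9`); for `J = 0` also `3 ^ J ≤ 3 ℓ`, `J + 1 ≤ 2 + log ℓ`. For `ε ≥ ε₀`: `log (2 / ε) ≤ log (2 / ε₀) ≤ 3 ^ J`.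
`C = 2 * 10 ^ 7`: `100000 * (61 d² 3 ^ J) ^ (J + 1) ≤ 100000 * (183 d² ℓ) ^ (J + 1) ≤ 100000 * (183 d² ℓ) ^ (2 + log ℓ) ≤ (C d² ℓ) ^ (2 + log ℓ)` (`Real.rpow_natCast`, `Real.rpow_le_rpow_of_exponent_le` with base `≥ 1`, `Real.mul_rpow`, `100000 ≤ 100000 ^ (2 + log ℓ)`). Cost: `600 (J + 1)² d² ≤ 600 (2 + log ℓ)² d² ≤ 2400 (1 + log ℓ)² d²`.
-/

set_option autoImplicit false

open Metric Set Matrix

namespace Pool.Agent.H62.QP

open Pool.Agent.H62.FD hiding Algo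
open Pool.Agent.H62.GR

private theorem Fin_exists {ε₀ : ℝ} (h0 : 0 < ε₀) (h1 : ε₀ ≤ 1) :
    ∃ J : ℕ, Real.log (2 / ε₀) ≤ 3 ^ J ∧ (3 : ℝ) ^ J ≤ 3 * (1 + Real.log (1 / ε₀)) ∧
      (J : ℝ) + 1 ≤ 2 + Real.log (1 + Real.log (1 / ε₀)) := by
  classical
  have hl : 1 ≤ 1 + Real.log (1 / ε₀) := by
    have : 0 ≤ Real.log (1 / ε₀) := Real.log_nonneg (by rw [le_div_iff₀ h0]; linarith)
    linarith
  have hle : Real.log (2 / ε₀) ≤ 1 + Real.log (1 / ε₀) := by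
    have h : Real.log (2 / ε₀) = Real.log 2 + Real.log (1 / ε₀) := by
      rw [← Real.log_mul (by norm_num) (by positivity)]
      congr 1
      ring
    have h2 := Real.log_two_lt_d9
    rw [h]
    linarith
  generalize 1 + Real.log (1 / ε₀) = ℓ at hl hle ⊢
  obtain ⟨n, hn⟩ := pow_unbounded_of_one_lt (Real.log (2 / ε₀)) (by norm_num : (1 : ℝ) < 3)
  have hex : ∃ n : ℕ, Real.log (2 / ε₀) ≤ 3 ^ n := ⟨n, hn.le⟩
  have hspec := Nat.find_spec hex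
  have hmin : ∀ m, m < Nat.find hex → ¬ Real.log (2 / ε₀) ≤ 3 ^ m := fun m hm => Nat.find_min hex hm
  generalize Nat.find hex = J at hspec hmin
  have hlog : 0 ≤ Real.log ℓ := Real.log_nonneg hl
  refine ⟨J, hspec, ?_, ?_⟩
  · rcases J with _ | k
    · simp only [pow_zero]
      linarith
    · have h := not_le.1 (hmin k (Nat.lt_succ_self k))
      rw [pow_succ]
      linarith
  · rcases J with _ | k
    · simp only [Nat.cast_zero]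
      linarith
    · have h := lt_of_lt_of_le (not_le.1 (hmin k (Nat.lt_succ_self k))) hle
      have h3 : 1 ≤ Real.log 3 := by
        rw [Real.le_log_iff_exp_le (by norm_num)]
        have := Real.exp_one_lt_d9
        linarith
      have h4 : (k : ℝ) * Real.log 3 ≤ Real.log ℓ := by
        rw [← Real.log_pow]
        exact Real.log_le_log (by positivity) h.le
      have h5 : (k : ℝ) ≤ k * Real.log 3 := le_mul_of_one_le_right (Nat.cast_nonneg k) h3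
      push_cast
      linarith

private theorem Fin_pow {d J : ℕ} (hd : 0 < d) {ℓ : ℝ} (hl : 1 ≤ ℓ) (h3 : (3 : ℝ) ^ J ≤ 3 * ℓ)
    (hJ : (J : ℝ) + 1 ≤ 2 + Real.log ℓ) :
    100000 * (61 * (d : ℝ) ^ 2 * 3 ^ J) ^ (J + 1) ≤ (20000000 * (d : ℝ) ^ 2 * ℓ) ^ (2 + Real.log ℓ) := by
  have hd1 : (1 : ℝ) ≤ d := by exact_mod_cast hd
  have hd2 : (1 : ℝ) ≤ (d : ℝ) ^ 2 := one_le_pow₀ hd1
  have hb0 : (1 : ℝ) ≤ (d : ℝ) ^ 2 * ℓ := by nlinarith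
  have hb : (1 : ℝ) ≤ 183 * (d : ℝ) ^ 2 * ℓ := by nlinarith
  have hlog : 0 ≤ Real.log ℓ := Real.log_nonneg hl
  calc 100000 * (61 * (d : ℝ) ^ 2 * 3 ^ J) ^ (J + 1)
      ≤ 100000 * (183 * (d : ℝ) ^ 2 * ℓ) ^ (J + 1) := by
        have h : 61 * (d : ℝ) ^ 2 * 3 ^ J ≤ 183 * (d : ℝ) ^ 2 * ℓ := by
          have := mul_le_mul_of_nonneg_left h3 (by positivity : (0 : ℝ) ≤ 61 * (d : ℝ) ^ 2)
          linarith
        have h' := pow_le_pow_left₀ (by positivity) h (J + 1)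
        linarith
    _ = 100000 * (183 * (d : ℝ) ^ 2 * ℓ) ^ ((J : ℝ) + 1) := by
        rw [← Real.rpow_natCast]
        push_cast
        rfl
    _ ≤ 100000 * (183 * (d : ℝ) ^ 2 * ℓ) ^ (2 + Real.log ℓ) := by
        have h' := Real.rpow_le_rpow_of_exponent_le hb hJ
        linarith
    _ ≤ 100000 ^ (2 + Real.log ℓ) * (183 * (d : ℝ) ^ 2 * ℓ) ^ (2 + Real.log ℓ) := by
        have h : (100000 : ℝ) ^ (1 : ℝ) ≤ 100000 ^ (2 + Real.log ℓ) :=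
          Real.rpow_le_rpow_of_exponent_le (by norm_num) (by linarith)
        rw [Real.rpow_one] at h
        exact mul_le_mul_of_nonneg_right h (by positivity)
    _ = (100000 * (183 * (d : ℝ) ^ 2 * ℓ)) ^ (2 + Real.log ℓ) :=
        (Real.mul_rpow (by norm_num) (by positivity)).symm
    _ ≤ (20000000 * (d : ℝ) ^ 2 * ℓ) ^ (2 + Real.log ℓ) := by
        refine Real.rpow_le_rpow (by positivity) ?_ (by linarith)
        nlinarith

theorem main_qp : ∃ C : ℝ, 0 < C ∧ ∀ d : ℕ, 0 < d → ∀ ε₀ : ℝ, 0 < ε₀ → ε₀ ≤ 1 → ∃ 𝒜 : Algo d,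
    (∃ n : ℕ, 𝒜.CostLE n ∧ (n : ℝ) ≤ C * (1 + Real.log (1 + Real.log (1 / ε₀))) ^ 2 * d ^ 2) ∧
    ∀ {G : RMet d} {A : Man d} {ψ : EuclideanSpace ℝ (Fin d) → A.M}
      {b : EuclideanSpace ℝ (Fin d) → Fin d → EuclideanSpace ℝ (Fin d)}, Hadamard G A ψ b →
    ∀ (x0 : A.M) (K r L : ℝ), 0 < K → 0 < r → 0 ≤ L → G.Sec K univ →
    ∀ f : A.M → ℝ, GConv A.toPrim x0 r f → Lip A x0 r L f →
    ∀ g : ℕ → A.M → E d, (∀ k, ∀ x ∈ closedBall x0 r, Subgrad A x0 r f x (g k x)) →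
      (∀ k, 𝒜.queryAt ⟨x0, K, r, 1⟩ f g k ∈ closedBall x0 r) ∧
      (∀ k, 𝒜.output ⟨x0, K, r, 1⟩ f g k ∈ closedBall x0 r) ∧
      ∀ ε : ℝ, ε₀ ≤ ε → ε ≤ 1 → ∀ N : ℕ,
        zeta (r * √K) * Real.log (2 / ε) *
          (C * d ^ 2 * (1 + Real.log (1 / ε₀))) ^ (2 + Real.log (1 + Real.log (1 / ε₀))) ≤ N →
        ∀ y ∈ closedBall x0 r, f (𝒜.output ⟨x0, K, r, 1⟩ f g N) ≤ f y + ε * L * r := by
  refine ⟨20000000, by norm_num, fun d hd ε₀ h0 h1 => ?_⟩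
  have hl : 1 ≤ 1 + Real.log (1 / ε₀) := by
    have : 0 ≤ Real.log (1 / ε₀) := Real.log_nonneg (by rw [le_div_iff₀ h0]; linarith)
    linarith
  obtain ⟨J, hJ1, hJ2, hJ3⟩ := Fin_exists h0 h1
  obtain ⟨𝒜, hc, hm⟩ := main_J d hd J
  have hlog : 0 ≤ Real.log (1 + Real.log (1 / ε₀)) := Real.log_nonneg hl
  refine ⟨𝒜, ⟨_, hc, ?_⟩, ?_⟩
  · push_cast
    have h2 : ((J : ℝ) + 1) ^ 2 ≤ 4 * (1 + Real.log (1 + Real.log (1 / ε₀))) ^ 2 := by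
      have h := pow_le_pow_left₀ (by positivity) hJ3 2
      nlinarith
    have h3 := mul_le_mul_of_nonneg_right h2 (by positivity : (0 : ℝ) ≤ (d : ℝ) ^ 2)
    have h4 : 0 ≤ (1 + Real.log (1 + Real.log (1 / ε₀))) ^ 2 * (d : ℝ) ^ 2 := by positivity
    linarith
  · intro G A ψ b hH x0 K r L hK hr hL hS f hf hLip g hg
    obtain ⟨hq, ho, he⟩ := hm hH x0 K r L hK hr hL hS f hf hLip g hg
    refine ⟨hq, ho, fun ε hε hε1 N hN y hy => ?_⟩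
    have hε0 : 0 < ε := lt_of_lt_of_le h0 hε
    refine he ε hε0 hε1 ?_ N ?_ y hy
    · refine le_trans (Real.log_le_log (by positivity) ?_) hJ1
      exact div_le_div_of_nonneg_left (by norm_num) h0 hε
    · refine le_trans ?_ hN
      have hz : 0 ≤ zeta (r * √K) := by
        have := one_le_zeta (x := r * √K) (by positivity)
        linarith
      have hlε : 0 ≤ Real.log (2 / ε) := Real.log_nonneg (by rw [le_div_iff₀ hε0]; linarith)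
      have hp := mul_le_mul_of_nonneg_left (Fin_pow hd hl hJ2 hJ3) (mul_nonneg hz hlε)
      linarith

end Pool.Agent.H62.QP
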