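import Pool.Agent.H62.QP.Mach
import Pool.Agent.H62.GR.EpochG

/-!
# QP.LvRun : the run of one level (module LvRun, about 130 lines)

`lvs`: the states of one level when the vectors `w` are `W k c` and the candidates are `P k c` (functions of the number `k` of the step and of the centre `c`). `orcL`: the corresponding oracle.
`lvs_e`: induction on `k`; start: `⟨0, ρ • 1⟩` (see `of_ite` in `Pool/Agent/H36/Ell/Main.lean`); step: `Lv.cut` with `w = W k c` is `cutv ρ (orcL .. k) c` (`sq`), as in `cut_eq` of `Pool/Agent/H62/GR/Steps.lean` (proved, read it).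
`lvs_flag`: `bf` is `0` or `1`; `bf = 1` iff some `k < n` is admissible. `lvs_best`: induction on `N`: for every `N`, either no `k < N` is admissible and `bf = 0`, or `bf = 1`, `bx = P k c_k` for an admissible `k < N`, `bv = f bx` and `f bx ≤ f (P k c_k)` for all admissible `k < N`.
`upd_congr`: if `ok ≠ 1` then `w`, `p`, `v` are not used (`ok` is `1` or `0`; in `cut` `w` is used only if both conditions hold).
-/

set_option autoImplicit false

open Metric Set Matrix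

namespace Pool.Agent.H62.QP

open Pool.Agent.H62.FD hiding Algo
open Pool.Agent.H62.GR
open Pool.Agent.H36.GC (run cutv)

variable {d : ℕ} {A : Man d}

/-- the states of one level -/
noncomputable def lvs (I : Inp A) (ρ H : ℝ) (x : A.M) (f : A.M → ℝ) (W : ℕ → (Fin d → ℝ) → Fin d → ℝ)
    (P : ℕ → (Fin d → ℝ) → A.M) : ℕ → Lv A.M d
  | 0 => Lv.ini ρ x
  | k + 1 => (lvs I ρ H x f W P k).upd I ρ H (W k (lvs I ρ H x f W P k).c) (P k (lvs I ρ H x f W P k).c)
      (f (P k (lvs I ρ H x f W P k).c))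

/-- the oracle of one level -/
noncomputable def orcL (I : Inp A) (H : ℝ) (x : A.M) (W : ℕ → (Fin d → ℝ) → Fin d → ℝ) (k : ℕ) (c : Fin d → ℝ) :
    Fin d → ℝ := fun i =>
  if hsq I (A.Exp x (WithLp.toLp 2 c)) ≤ H then W k c i
  else 0 - A.Tr (A.Exp x (WithLp.toLp 2 c)) x (A.Log (A.Exp x (WithLp.toLp 2 c)) I.x0) i

variable {I : Inp A} {ρ H : ℝ} {x : A.M} {f : A.M → ℝ} {W : ℕ → (Fin d → ℝ) → Fin d → ℝ} {P : ℕ → (Fin d → ℝ) → A.M}

theorem ok_one_iff (l : Lv A.M d) : 1 ≤ l.ok I ρ H ↔ l.c ⬝ᵥ l.c ≤ ρ * ρ ∧ hsq I l.y ≤ H := by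
  unfold Lv.ok
  split_ifs with h1 h2
  · simp [h1, h2]
  · simp [h2]
  · simp [h1]

private theorem lvRun_cut_congr (l : Lv A.M d) {w w' : Fin d → ℝ} (h : ¬ 1 ≤ l.ok I ρ H) :
    l.cut I ρ H w = l.cut I ρ H w' := by
  rw [ok_one_iff] at h
  funext i
  unfold Lv.cut
  split_ifs with h1 h2
  · exact absurd ⟨h1, h2⟩ h
  · rfl
  · rfl

theorem upd_congr (l : Lv A.M d) {w w' : Fin d → ℝ} {p p' : A.M} {v v' : ℝ}
    (h : 1 ≤ l.ok I ρ H → w = w' ∧ p = p' ∧ v = v') : l.upd I ρ H w p v = l.upd I ρ H w' p' v' := by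
  by_cases h1 : 1 ≤ l.ok I ρ H
  · obtain ⟨rfl, rfl, rfl⟩ := h h1
    rfl
  · unfold Lv.upd
    simp only [if_neg h1, lvRun_cut_congr (w := w) (w' := w') l h1]

theorem lvs_x (k : ℕ) : (lvs I ρ H x f W P k).x = x := by
  induction k with
  | zero => rfl
  | succ k ih => exact ih

private theorem lvRun_of_ite (a : ℝ) : (Matrix.of fun i j : Fin d => if i = j then a else 0) =
    a • (1 : Matrix (Fin d) (Fin d) ℝ) := by
  ext i j
  simp [Matrix.one_apply]

private theorem lvRun_upd_e (l : Lv A.M d) (w : Fin d → ℝ) (p : A.M) (v : ℝ) :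
    (l.upd I ρ H w p v).e = l.e.step (l.cut I ρ H w) := by
  have h1 : (l.upd I ρ H w p v).c = (l.e.step (l.cut I ρ H w)).c := rfl
  have h2 : Matrix.of (l.upd I ρ H w p v).L = (l.e.step (l.cut I ρ H w)).L := by
    ext i j
    rfl
  unfold Lv.e at h1 h2 ⊢
  rw [h1, h2]

private theorem lvRun_cut (l : Lv A.M d) (hx : l.x = x) (k : ℕ) :
    l.cut I ρ H (W k l.c) = cutv ρ (orcL I H x W k) l.c := by
  unfold cutv
  rw [sq]
  by_cases h1 : l.c ⬝ᵥ l.c ≤ ρ * ρ
  · rw [if_pos h1]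
    funext i
    unfold Lv.cut orcL
    rw [if_pos h1]
    unfold Lv.y
    rw [hx]
  · rw [if_neg h1]
    funext i
    unfold Lv.cut
    rw [if_neg h1]

theorem lvs_e (k : ℕ) : (lvs I ρ H x f W P k).e = run ρ (orcL I H x W) k := by
  induction k with
  | zero =>
    show (Lv.ini ρ x : Lv A.M d).e = _
    unfold Lv.e Lv.ini run
    rw [lvRun_of_ite]
  | succ k ih =>
    have hc : (lvs I ρ H x f W P k).c = (run ρ (orcL I H x W) k).c := by
      rw [← ih]
      rfl
    show ((lvs I ρ H x f W P k).upd I ρ H (W k (lvs I ρ H x f W P k).c) (P k (lvs I ρ H x f W P k).c)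
      (f (P k (lvs I ρ H x f W P k).c))).e = (run ρ (orcL I H x W) k).step
        (cutv ρ (orcL I H x W k) (run ρ (orcL I H x W) k).c)
    rw [lvRun_upd_e, lvRun_cut _ (lvs_x k), ih, hc]

private theorem lvRun_inv (N : ℕ) :
    ((∀ k < N, ¬ 1 ≤ (lvs I ρ H x f W P k).ok I ρ H) ∧ (lvs I ρ H x f W P N).bf = 0) ∨
    ((lvs I ρ H x f W P N).bf = 1 ∧ (lvs I ρ H x f W P N).bv = f (lvs I ρ H x f W P N).bx ∧
      (∃ k < N, 1 ≤ (lvs I ρ H x f W P k).ok I ρ H ∧
        (lvs I ρ H x f W P N).bx = P k (lvs I ρ H x f W P k).c) ∧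
      ∀ k < N, 1 ≤ (lvs I ρ H x f W P k).ok I ρ H →
        f (lvs I ρ H x f W P N).bx ≤ f (P k (lvs I ρ H x f W P k).c)) := by
  induction N with
  | zero =>
    left
    exact ⟨fun k hk => absurd hk (Nat.not_lt_zero k), rfl⟩
  | succ N ih =>
    have ebf : (lvs I ρ H x f W P (N + 1)).bf =
        if 1 ≤ (lvs I ρ H x f W P N).ok I ρ H then 1 else (lvs I ρ H x f W P N).bf := rfl
    have ebv : (lvs I ρ H x f W P (N + 1)).bv =
        if 1 ≤ (lvs I ρ H x f W P N).ok I ρ H then (if 1 ≤ (lvs I ρ H x f W P N).bf then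
          (if f (P N (lvs I ρ H x f W P N).c) ≤ (lvs I ρ H x f W P N).bv then
            f (P N (lvs I ρ H x f W P N).c) else (lvs I ρ H x f W P N).bv) else
          f (P N (lvs I ρ H x f W P N).c)) else (lvs I ρ H x f W P N).bv := rfl
    have ebx : (lvs I ρ H x f W P (N + 1)).bx =
        if 1 ≤ (lvs I ρ H x f W P N).ok I ρ H then (if 1 ≤ (lvs I ρ H x f W P N).bf then
          (if f (P N (lvs I ρ H x f W P N).c) ≤ (lvs I ρ H x f W P N).bv then
            P N (lvs I ρ H x f W P N).c else (lvs I ρ H x f W P N).bx) else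
          P N (lvs I ρ H x f W P N).c) else (lvs I ρ H x f W P N).bx := rfl
    by_cases hN : 1 ≤ (lvs I ρ H x f W P N).ok I ρ H
    · right
      rw [if_pos hN] at ebf ebv ebx
      refine ⟨ebf, ?_⟩
      rcases ih with ⟨h1, h2⟩ | ⟨h1, h2, ⟨k0, hk0, h3, h4⟩, h5⟩
      · have h3 : ¬ 1 ≤ (lvs I ρ H x f W P N).bf := by rw [h2]; norm_num
        rw [if_neg h3] at ebv ebx
        rw [ebv, ebx]
        refine ⟨rfl, ⟨N, Nat.lt_succ_self N, hN, rfl⟩, ?_⟩
        intro k hk hok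
        rcases Nat.lt_succ_iff_lt_or_eq.1 hk with h | h
        · exact absurd hok (h1 k h)
        · subst h
          exact le_rfl
      · have h6 : 1 ≤ (lvs I ρ H x f W P N).bf := by rw [h1]
        rw [if_pos h6] at ebv ebx
        by_cases h7 : f (P N (lvs I ρ H x f W P N).c) ≤ (lvs I ρ H x f W P N).bv
        · rw [if_pos h7] at ebv ebx
          rw [ebv, ebx]
          refine ⟨rfl, ⟨N, Nat.lt_succ_self N, hN, rfl⟩, ?_⟩
          intro k hk hok
          rcases Nat.lt_succ_iff_lt_or_eq.1 hk with h | h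
          · rw [h2] at h7
            exact h7.trans (h5 k h hok)
          · subst h
            exact le_rfl
        · rw [if_neg h7] at ebv ebx
          rw [ebv, ebx]
          refine ⟨h2, ⟨k0, Nat.lt_succ_of_lt hk0, h3, h4⟩, ?_⟩
          intro k hk hok
          rcases Nat.lt_succ_iff_lt_or_eq.1 hk with h | h
          · exact h5 k h hok
          · subst h
            rw [h2] at h7
            exact (not_le.1 h7).le
    · rw [if_neg hN] at ebf ebv ebx
      rw [ebf, ebv, ebx]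
      rcases ih with ⟨h1, h2⟩ | ⟨h1, h2, ⟨k0, hk0, h3, h4⟩, h5⟩
      · left
        refine ⟨fun k hk => ?_, h2⟩
        rcases Nat.lt_succ_iff_lt_or_eq.1 hk with h | h
        · exact h1 k h
        · subst h
          exact hN
      · right
        refine ⟨h1, h2, ⟨k0, Nat.lt_succ_of_lt hk0, h3, h4⟩, ?_⟩
        intro k hk hok
        rcases Nat.lt_succ_iff_lt_or_eq.1 hk with h | h
        · exact h5 k h hok
        · subst h
          exact absurd hok hN

private theorem lvRun_adm (k : ℕ) : 1 ≤ (lvs I ρ H x f W P k).ok I ρ H ↔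
    (run ρ (orcL I H x W) k).c ⬝ᵥ (run ρ (orcL I H x W) k).c ≤ ρ ^ 2 ∧
      hsq I (A.Exp x (WithLp.toLp 2 (run ρ (orcL I H x W) k).c)) ≤ H := by
  have hc : (lvs I ρ H x f W P k).c = (run ρ (orcL I H x W) k).c := by
    rw [← lvs_e (f := f) (P := P) k]
    rfl
  rw [ok_one_iff]
  unfold Lv.y
  rw [lvs_x, hc, sq]

/-- the best candidate -/
theorem lvs_best {N : ℕ} {θ : ℝ}
    (h : ∃ k < N, (run ρ (orcL I H x W) k).c ⬝ᵥ (run ρ (orcL I H x W) k).c ≤ ρ ^ 2 ∧
      hsq I (A.Exp x (WithLp.toLp 2 (run ρ (orcL I H x W) k).c)) ≤ H ∧ f (P k (run ρ (orcL I H x W) k).c) ≤ θ) :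
    (lvs I ρ H x f W P N).bv = f (lvs I ρ H x f W P N).bx ∧ f (lvs I ρ H x f W P N).bx ≤ θ ∧
      ∃ k < N, (run ρ (orcL I H x W) k).c ⬝ᵥ (run ρ (orcL I H x W) k).c ≤ ρ ^ 2 ∧
        hsq I (A.Exp x (WithLp.toLp 2 (run ρ (orcL I H x W) k).c)) ≤ H ∧
        (lvs I ρ H x f W P N).bx = P k (run ρ (orcL I H x W) k).c := by
  have hc : ∀ k, (lvs I ρ H x f W P k).c = (run ρ (orcL I H x W) k).c := by
    intro k
    rw [← lvs_e (f := f) (P := P) k]
    rfl
  obtain ⟨k, hk, h1, h2, h3⟩ := h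
  have hok : 1 ≤ (lvs I ρ H x f W P k).ok I ρ H := (lvRun_adm k).2 ⟨h1, h2⟩
  rcases lvRun_inv (I := I) (ρ := ρ) (H := H) (x := x) (f := f) (W := W) (P := P) N with
    ⟨h4, -⟩ | ⟨-, h5, ⟨k0, hk0, h6, h7⟩, h8⟩
  · exact absurd hok (h4 k hk)
  · refine ⟨h5, ?_, ⟨k0, hk0, ((lvRun_adm k0).1 h6).1, ((lvRun_adm k0).1 h6).2, ?_⟩⟩
    · have := h8 k hk hok
      rw [hc k] at this
      exact this.trans h3
    · rw [h7, hc k0]

end Pool.Agent.H62.QP
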