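import Pool.Agent.H62.QP.UpRun
import Pool.Agent.H62.QP.BotS
import Pool.Agent.H62.QP.Acc

/-!
# QP.UpS : the upper machines (module UpS, about 150 lines)

`up_solves`: `K = I.K + 1 / (I.r * I.r)`, `ρ = rad .. (rc j)`, `s = rad .. (rc (j + 1)) = qq j * ρ = 1000 K ρ³` (`rad_succ`, `rad_q`), `thH = (r + s / 2)²`. For `hsq I y ≤ thH` we have `dist x0 y ≤ r + s / 2` (`sum_sq` in GR.EpochG, `abs_le_of_sq_le_sq`), so `hin` (for the shifted oracle `fun i => g (k * T + i)`, which is again `Orc`) gives `hval` of `up_run` and `hR` of `up_good`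
(with `Rr = inR ..`, `α' = acc i (j + 1)`). Time `T * N = N * T`: `up_run` with `k = N`. Result: register `.inr 1` of `jn ..` is `(lvU .. N).bx`, value register is `bv`. `lvs_best` with `θ = f z + acc (i + 1) j * L * ρ` for every `z ∈ D` with `dist x z ≤ ρ`; a point `z` exists by `near_D`. The result is `inR k (Exp x c_k)`, so it is in `D`, and
`dist x _ ≤ ‖c_k‖ + s + 2000 K s³ ≤ ρ + 2 s = ρ + 2000 K ρ³` (`exp_dist`; `2000 K s³ ≤ s` as `2000 K s² ≤ 1`). `mk_solves`: induction on `i` for all `j` (`N ^ (i + 1) * N = N ^ (i + 2)`), `bot_solves`, `len_bot`, `len_up`, `acc_pos`, `acc_le`; `N = 61 d² 3 ^ (i + j)` is the same for `(i + 1, j)` and `(i, j + 1)`.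
`mk_query`: induction on `i`; bottom: if `1 ≤ ok` then `hsq I y ≤ r²` (`ok_one_iff`), so `y ∈ D`.
-/

set_option autoImplicit false

open Metric Set Matrix

namespace Pool.Agent.H62.QP

open Pool.Agent.H62.FD hiding Algo
open Pool.Agent.H62.GR

variable {d : ℕ} {A : Man d}

private theorem UpS_hsq {I : Inp A} (hlog : ∀ p q, ‖A.Log p q‖ = dist p q) {y : A.M} {b : ℝ} (hb : 0 ≤ b)
    (h : hsq I y ≤ b * b) : dist I.x0 y ≤ b := by
  have h1 : hsq I y = dist I.x0 y ^ 2 := sum_sq hlog I.x0 y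
  rw [h1, ← sq] at h
  exact (sq_le_sq₀ dist_nonneg hb).1 h

private theorem UpS_norm (w : Fin d → ℝ) {ρ : ℝ} (hρ : 0 ≤ ρ) (h : w ⬝ᵥ w ≤ ρ ^ 2) :
    ‖(WithLp.toLp 2 w : E d)‖ ≤ ρ := by
  have h1 : w ⬝ᵥ w = ‖(WithLp.toLp 2 w : E d)‖ ^ 2 := by
    rw [EuclideanSpace.real_norm_sq_eq]
    exact Finset.sum_congr rfl fun j _ => (sq _).symm
  rw [h1] at h
  exact (sq_le_sq₀ (norm_nonneg _) hρ).1 h

theorem up_solves (hd : 0 < d) {I : Inp A} {f : A.M → ℝ} {L : ℝ} (S : Sd A I f L) (i j : ℕ) (𝓜 : Mach d) {T N : ℕ}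
    (hT : 0 < T) (hin : Solves 𝓜 T I f L (rad I.K I.r (rc (j + 1))) (acc i (j + 1)))
    (hN : 2 * d * ((d : ℝ) + 2) * Real.log (80 / acc (i + 1) j) < N) :
    Solves (up 𝓜 T (rc j) (rc (j + 1))) (T * N) I f L (rad I.K I.r (rc j)) (acc (i + 1) j) := by
  obtain ⟨K', hK'⟩ : ∃ K' : ℝ, K' = I.K + 1 / (I.r * I.r) := ⟨_, rfl⟩
  obtain ⟨ρ, hρe⟩ : ∃ ρ : ℝ, ρ = rad I.K I.r (rc j) := ⟨_, rfl⟩
  obtain ⟨s, hse⟩ : ∃ s : ℝ, s = rad I.K I.r (rc (j + 1)) := ⟨_, rfl⟩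
  have hρ : 0 < ρ := by rw [hρe]; exact rad_pos S.K_pos S.r_pos j
  have hs0 : 0 < s := by rw [hse]; exact rad_pos S.K_pos S.r_pos (j + 1)
  have hq1 : 1000 * K' * ρ ^ 2 = (qq j : ℝ) := by rw [hK', hρe]; exact rad_q S.K_pos S.r_pos j
  have hq2 : 1000 * K' * s ^ 2 = (qq (j + 1) : ℝ) := by rw [hK', hse]; exact rad_q S.K_pos S.r_pos (j + 1)
  have hss : s = 1000 * K' * ρ ^ 3 := by
    have h1 : s = (qq j : ℝ) * ρ := by rw [hse, hρe]; exact rad_succ I.K I.r j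
    rw [h1, ← hq1]
    ring
  have hqle := qq_le j
  have hqle2 := qq_le (j + 1)
  have hgeo : Geo A K' ρ := by
    rw [hK']
    refine S.geo ρ hρ ?_
    rw [← hK', hq1]
    linarith
  have hρr : ρ ≤ I.r := by
    have h1 := rad_le S.K_pos S.r_pos j
    rw [← hρe] at h1
    have h2 := S.r_pos
    linarith
  have hr0 : 0 ≤ I.r := S.r_pos.le
  intro g hg x hx
  rw [← hρe] at hx
  rw [← hse] at hin
  unfold Solves at hin
  rw [← hK'] at hin
  rw [← hρe, ← hK', mul_comm T N]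
  have hsh : ∀ k : ℕ, Orc I f (fun i => g (k * T + i)) := fun k i => hg (k * T + i)
  have hdist : ∀ y, hsq I y ≤ thH I.K I.r (rc (j + 1)) → dist I.x0 y ≤ I.r + s / 2 := by
    intro y hy
    have h1 : thH I.K I.r (rc (j + 1)) = (I.r + s / 2) * (I.r + s / 2) := by rw [hse]; rfl
    rw [h1] at hy
    exact UpS_hsq hgeo.log_norm (by linarith) hy
  have hval : ∀ k y, hsq I y ≤ thH I.K I.r (rc (j + 1)) → inV 𝓜 T I f g k y = f (inR 𝓜 T I f g k y) :=
    fun k y hy => (hin _ (hsh k) y (hdist y hy)).2.2.1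
  have hrun := up_run 𝓜 hT (rc j) (rc (j + 1)) I f g x hval N
  rw [hrun]
  obtain ⟨l, hl⟩ : ∃ l : Lv A.M d, l = lvU 𝓜 T (rc j) (rc (j + 1)) I f g x N := ⟨_, rfl⟩
  rw [← hl]
  change l.bx ∈ closedBall I.x0 I.r ∧ dist x l.bx ≤ ρ + 2000 * K' * ρ ^ 3 ∧ l.bv = f l.bx ∧
    ∀ z ∈ closedBall I.x0 I.r, dist x z ≤ ρ → f l.bx ≤ f z + acc (i + 1) j * L * ρ
  have key : ∀ z ∈ closedBall I.x0 I.r, dist x z ≤ ρ → l.bv = f l.bx ∧ f l.bx ≤ f z + acc (i + 1) j * L * ρ ∧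
      l.bx ∈ closedBall I.x0 I.r ∧ dist x l.bx ≤ ρ + 2000 * K' * ρ ^ 3 := by
    intro z hz hxz
    have hR : ∀ k y, dist I.x0 y ≤ I.r + s / 2 → inR 𝓜 T I f g k y ∈ closedBall I.x0 I.r ∧
        dist y (inR 𝓜 T I f g k y) ≤ s + 2000 * K' * s ^ 3 ∧
        ∀ w ∈ closedBall I.x0 I.r, dist y w ≤ s → f (inR 𝓜 T I f g k y) ≤ f w + acc i (j + 1) * L * s := by
      intro k y hy
      obtain ⟨h1, h2, -, h4⟩ := hin _ (hsh k) y hy
      exact ⟨h1, h2, h4⟩
    have h1 := up_good hd hgeo (by rw [hq1]; exact hqle) hss hρr hx hz hxz S.L_nonneg S.lip S.conv hR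
      (acc_pos i (j + 1)) (by rw [hq1]; rfl) (acc_le (i + 1) j) hN
    have h2 := lvs_best (I := I) (ρ := ρ) (H := (I.r + s / 2) * (I.r + s / 2)) (x := x) (f := f)
      (W := wU x (inR 𝓜 T I f g)) (P := fun k c => inR 𝓜 T I f g k (A.Exp x (WithLp.toLp 2 c))) h1
    have h3 : l = lvs I ρ ((I.r + s / 2) * (I.r + s / 2)) x f (wU x (inR 𝓜 T I f g))
        (fun k c => inR 𝓜 T I f g k (A.Exp x (WithLp.toLp 2 c))) N := by
      rw [hl, hρe, hse]
      rfl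
    rw [← h3] at h2
    obtain ⟨h4, h5, k, -, h6, h7, h8⟩ := h2
    have h9 := UpS_norm _ hρ.le h6
    have h10 := exp_dist hgeo x h9
    have h11 := hR k _ (UpS_hsq hgeo.log_norm (by linarith) h7)
    refine ⟨h4, h5, ?_, ?_⟩
    · rw [h8]
      exact h11.1
    · have h12 : dist x l.bx ≤ dist x (A.Exp x (WithLp.toLp 2 (Pool.Agent.H36.GC.run ρ (orcL I ((I.r + s / 2) * (I.r + s / 2)) x
          (wU x (inR 𝓜 T I f g))) k).c)) + dist (A.Exp x (WithLp.toLp 2 (Pool.Agent.H36.GC.run ρ (orcL I ((I.r + s / 2) *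
          (I.r + s / 2)) x (wU x (inR 𝓜 T I f g))) k).c)) l.bx := dist_triangle _ _ _
      rw [h10] at h12
      have h13 := h11.2.1
      rw [← h8] at h13
      have h14 : 2000 * K' * s ^ 3 ≤ s := by
        have h15 : 2000 * K' * s ^ 3 = 2 * (1000 * K' * s ^ 2) * s := by ring
        rw [h15, hq2]
        have h16 : 2 * (qq (j + 1) : ℝ) ≤ 1 := by linarith
        have h17 := mul_le_mul_of_nonneg_right h16 hs0.le
        linarith
      have h18 : 2000 * K' * ρ ^ 3 = 2 * s := by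
        rw [hss]
        ring
      rw [h18]
      linarith
  obtain ⟨z, hz, hxz⟩ := near_D hgeo hr0 hx
  obtain ⟨h1, -, h3, h4⟩ := key z hz hxz
  exact ⟨h3, h4, h1, fun z hz hxz => (key z hz hxz).2.1⟩

theorem mk_solves (hd : 0 < d) {I : Inp A} {f : A.M → ℝ} {L : ℝ} (S : Sd A I f L) (J i j : ℕ) (hJ : i + j = J) :
    Solves (mk d (61 * d ^ 2 * 3 ^ J) i j) ((61 * d ^ 2 * 3 ^ J) ^ (i + 1)) I f L (rad I.K I.r (rc j)) (acc i j) := by
  subst hJ
  obtain ⟨N, hN⟩ : ∃ N : ℕ, N = 61 * d ^ 2 * 3 ^ (i + j) := ⟨_, rfl⟩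
  rw [← hN]
  have hN0 : 0 < N := by
    rw [hN]
    positivity
  induction i generalizing j with
  | zero =>
    rw [zero_add, pow_one]
    refine bot_solves hd S j ?_
    have h := len_bot hd j
    rw [hN, zero_add]
    exact h
  | succ i ih =>
    have h1 := ih (j + 1) (by rw [hN]; congr 2; ring)
    have h2 := up_solves hd S i j (mk d N i (j + 1)) (T := N ^ (i + 1)) (N := N) (pow_pos hN0 _) h1
      (by rw [hN]; exact len_up hd (i + 1) j)
    rw [← pow_succ] at h2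
    exact h2

theorem mk_query (N : ℕ) {I : Inp A} (hlog : ∀ p q, ‖A.Log p q‖ = dist p q) (hr : 0 ≤ I.r) (i j : ℕ)
    (s : Regs A.M (mk d N i j).R (mk d N i j).Q) : (mk d N i j).query I s ∈ closedBall I.x0 I.r := by
  induction i generalizing j with
  | zero =>
    change (if 1 ≤ (deL s).ok I (rad I.K I.r (rc j)) (I.r * I.r) then (deL s).y else I.x0) ∈ closedBall I.x0 I.r
    split_ifs with h
    · rw [mem_closedBall, dist_comm]
      exact UpS_hsq hlog hr ((ok_one_iff _).1 h).2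
    · exact mem_closedBall_self hr
  | succ i ih => exact ih (j + 1) (inner s)

end Pool.Agent.H62.QP
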