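import Pool.Agent.H62.QP.TopG
import Pool.Agent.H62.QP.UpS
import Pool.Agent.H62.QP.CostT
import Pool.Agent.H62.GR.HadG
import Pool.Agent.H62.GR.EpochA

/-!
# QP.MainJ : the theorem with `J + 1` levels (module MainJ, about 120 lines)

Algorithm `top (mk d N J 0) T`, `N = 61 d² 3 ^ J`, `T = N ^ (J + 1)`, cost `alg_cost`. `I = ⟨x0, K, r, 1⟩`. `Sd`: `geo` from `had_geo` (GR.HadG) and `geo_mono` (GR.EpochA): `1000 K s² ≤ 1000 K' s² ≤ 1`. Queries: `mk_query`, `top_query`. Outputs: every `k` is `0` or `1 + n * T + t` with `t < T` (`Nat.div_add_mod` of `k - 1`). `top_gap` with `ρ = rad K r (rc 0)` (`rad_le`, `rad_pos`), `α = acc J 0`, `mk_solves`.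
Final: `k - 1 = n T + t` with `t < T`, so `n + 1 > (k - 1) / T`; with `C = 10 ^ 5`: `C ζ log (2 / ε) T ≤ k` gives `n ≥ k / T - 2 ≥ 10 ^ 5 ζ log (2 / ε) - 2 ≥ 10 ^ 4 ζ log (2 / ε) ≥ (2 r / ρ) log (2 / ε)` (`ζ ≥ 1`, `log (2 / ε) ≥ log 2 ≥ 1 / 2`, `rad_zeta`). So `(1 - τ) ^ n ≤ exp (-n τ) ≤ ε / 2` (`pow_le` in FD.MainFD), and `2 acc J 0 ≤ ε / 2` (`acc_top`).
-/

set_option autoImplicit false

open Metric Set Matrix

namespace Pool.Agent.H62.QP

open Pool.Agent.H62.FD hiding Algo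
open Pool.Agent.H62.GR

private theorem MainJ_split {T : ℕ} (hT : 0 < T) (k : ℕ) :
    k = 0 ∨ ∃ n t, t < T ∧ k = 1 + n * T + t := by
  rcases Nat.eq_zero_or_pos k with h | h
  · exact Or.inl h
  · refine Or.inr ⟨(k - 1) / T, (k - 1) % T, Nat.mod_lt _ hT, ?_⟩
    have h1 := Nat.div_add_mod (k - 1) T
    rw [mul_comm] at h1
    omega

private theorem MainJ_num {z l T n N ρ r : ℝ} (hz : 1 ≤ z) (hl : 1 / 2 ≤ l) (hT : 0 < T)
    (hN : 100000 * z * l * T ≤ N) (hn : N ≤ (n + 1) * T) (hρ : 0 < ρ) (hr : 0 < r)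
    (hζ : 2 * r / ρ ≤ 10000 * z) : l ≤ ρ / (2 * r) * n := by
  have h1 : 100000 * z * l ≤ n + 1 := le_of_mul_le_mul_right (hN.trans hn) hT
  have h2 : 1 / 2 ≤ z * l := by nlinarith
  have h3 : 10000 * z * l ≤ n := by nlinarith
  have h4 : 2 * r / ρ * l ≤ n := by
    refine le_trans ?_ h3
    exact mul_le_mul_of_nonneg_right hζ (by linarith)
  have h5 : l = ρ / (2 * r) * (2 * r / ρ * l) := by
    field_simp
  rw [h5]
  exact mul_le_mul_of_nonneg_left h4 (by positivity)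

theorem main_J (d : ℕ) (hd : 0 < d) (J : ℕ) : ∃ 𝒜 : Algo d, 𝒜.CostLE (600 * (J + 1) ^ 2 * d ^ 2) ∧
    ∀ {G : RMet d} {A : Man d} {ψ : EuclideanSpace ℝ (Fin d) → A.M}
      {b : EuclideanSpace ℝ (Fin d) → Fin d → EuclideanSpace ℝ (Fin d)}, Hadamard G A ψ b →
    ∀ (x0 : A.M) (K r L : ℝ), 0 < K → 0 < r → 0 ≤ L → G.Sec K univ →
    ∀ f : A.M → ℝ, GConv A.toPrim x0 r f → Lip A x0 r L f →
    ∀ g : ℕ → A.M → E d, (∀ k, ∀ x ∈ closedBall x0 r, Subgrad A x0 r f x (g k x)) →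
      (∀ k, 𝒜.queryAt ⟨x0, K, r, 1⟩ f g k ∈ closedBall x0 r) ∧
      (∀ k, 𝒜.output ⟨x0, K, r, 1⟩ f g k ∈ closedBall x0 r) ∧
      ∀ ε : ℝ, 0 < ε → ε ≤ 1 → Real.log (2 / ε) ≤ 3 ^ J → ∀ N : ℕ,
        100000 * zeta (r * √K) * Real.log (2 / ε) * (61 * d ^ 2 * 3 ^ J) ^ (J + 1) ≤ N →
        ∀ y ∈ closedBall x0 r, f (𝒜.output ⟨x0, K, r, 1⟩ f g N) ≤ f y + ε * L * r := by
  have hTpos : 0 < (61 * d ^ 2 * 3 ^ J) ^ (J + 1) := by positivity
  refine ⟨top (mk d (61 * d ^ 2 * 3 ^ J) J 0) ((61 * d ^ 2 * 3 ^ J) ^ (J + 1)), alg_cost hd _ J _, ?_⟩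
  intro G A ψ b hH x0 K r L hK hr hL hsec f hconv hlip g hg
  have hS : Sd A (⟨x0, K, r, 1⟩ : Inp A) f L :=
    { K_pos := hK
      r_pos := hr
      L_nonneg := hL
      geo := fun s hs hs1 => by
        have hKK : K ≤ K + 1 / (r * r) := by
          have : 0 < 1 / (r * r) := by positivity
          linarith
        have h1 : 1000 * K * s ^ 2 ≤ 1 := by
          have h2 : K * s ^ 2 ≤ (K + 1 / (r * r)) * s ^ 2 :=
            mul_le_mul_of_nonneg_right hKK (by positivity)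
          have h3 : 1000 * (K + 1 / (r * r)) * s ^ 2 ≤ 1 := hs1
          nlinarith
        exact geo_mono (had_geo hH hK hsec hs h1) hKK hs1
      conv := hconv
      lip := hlip }
  have hρ : 0 < rad K r (rc 0) := rad_pos hK hr 0
  have hρr : rad K r (rc 0) ≤ r := by
    have := rad_le hK hr 0
    linarith
  have hlog : ∀ p q, ‖A.Log p q‖ = dist p q := by
    have h1 : 1000 * (K + 1 / (r * r)) * rad K r (rc 0) ^ 2 ≤ 1 := by
      rw [rad_q hK hr 0]
      have := qq_le 0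
      linarith
    exact (hS.geo _ hρ h1).log_norm
  have hOrc : Orc (⟨x0, K, r, 1⟩ : Inp A) f g := hg
  have hSol := mk_solves hd hS J J 0 (by omega)
  have hgap := fun n => top_gap hS hρ hρr (acc_pos J 0).le hSol hOrc n
  refine ⟨fun k => ?_, fun k => ?_, ?_⟩
  · exact top_query _ _ _ f g (fun s => mk_query _ hlog hr.le J 0 s) k
  · rcases MainJ_split hTpos k with h | ⟨n, t, ht, h⟩
    · rw [h, top_output0]
      exact mem_closedBall_self hr.le
    · rw [h, top_output _ hTpos _ f g n ht]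
      exact (hgap n).1
  · intro ε hε hε1 hεJ N hN y hy
    have hz : 1 ≤ zeta (r * √K) := one_le_zeta (by positivity)
    have hl : 1 / 2 ≤ Real.log (2 / ε) := by
      have h1 : Real.log 2 ≤ Real.log (2 / ε) := by
        refine Real.log_le_log (by norm_num) ?_
        rw [le_div_iff₀ hε]
        linarith
      have h2 := Real.log_two_gt_d9
      linarith
    have hT' : (0 : ℝ) < (61 * (d : ℝ) ^ 2 * 3 ^ J) ^ (J + 1) := by
      have hd' : (0 : ℝ) < d := by exact_mod_cast hd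
      positivity
    rcases MainJ_split hTpos N with h | ⟨n, t, ht, h⟩
    · exfalso
      rw [h, Nat.cast_zero] at hN
      have h1 : 0 < 100000 * zeta (r * √K) * Real.log (2 / ε) * (61 * (d : ℝ) ^ 2 * 3 ^ J) ^ (J + 1) := by
        have : 0 < zeta (r * √K) := by linarith
        have : 0 < Real.log (2 / ε) := by linarith
        positivity
      linarith
    · have hn : (N : ℝ) ≤ ((n : ℝ) + 1) * (61 * (d : ℝ) ^ 2 * 3 ^ J) ^ (J + 1) := by
        have h1 : N ≤ (n + 1) * (61 * d ^ 2 * 3 ^ J) ^ (J + 1) := by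
          rw [h, add_mul, one_mul]
          omega
        exact_mod_cast h1
      have hx := MainJ_num hz hl hT' hN hn hρ hr (rad_zeta hK hr)
      have hx0 : 0 ≤ rad K r (rc 0) / (2 * r) := by positivity
      have hx1 : rad K r (rc 0) / (2 * r) ≤ 1 := by
        rw [div_le_one (by positivity)]
        linarith
      have hp := pow_le hx0 hx1 hε hx
      have ha := acc_top hε hεJ
      rw [h, top_output _ hTpos _ f g n ht]
      refine ((hgap n).2 y hy).trans ?_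
      have h3 : (1 - rad K r (rc 0) / (2 * r)) ^ n + 2 * acc J 0 ≤ ε := by linarith
      have h4 := mul_le_mul_of_nonneg_right h3 (mul_nonneg hL hr.le)
      have h5 : ε * (L * r) = ε * L * r := by ring
      rw [h5] at h4
      linarith

end Pool.Agent.H62.QP
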