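import Pool.Agent.H62.QP.TopRun
import Pool.Agent.H62.QP.BotS

/-!
# QP.TopG : the gap (module TopG, about 80 lines)

Induction on `n`. `n = 0`: Lipschitz, `dist x0 y ≤ r`. Step: `m = mT n ∈ D` (so `dist x0 m ≤ r + ρ / 2`), `y ∈ D`, `τ = ρ / (2 r) ∈ (0, 1]`, `z = A.H m y τ ∈ D` (`ball_conv`), `dist m z = τ dist m y ≤ τ 2 r = ρ` (`geo_dist_left`), `f z ≤ (1 - τ) f m + τ f y` (`S.conv`). `hs` with the oracle `fun i => g (1 + n * T + i)` (again `Orc`):
`f (mT (n + 1)) ≤ f z + α L ρ` and `α L ρ = 2 α τ (L r)`. So the gap is `≤ (1 - τ) ((1 - τ) ^ n + 2 α) L r + 2 α τ L r = ((1 - τ) ^ (n + 1) + 2 α) L r`.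
`Geo` for `ball_conv`, `geo_dist_left`: `S.geo` at any small scale `t` (e.g. `t = rad0 I.K I.r`, or `min 1 (1 / (1000 K'))`).
-/

set_option autoImplicit false

open Metric Set Matrix

namespace Pool.Agent.H62.QP

open Pool.Agent.H62.FD hiding Algo
open Pool.Agent.H62.GR

variable {d : ℕ} {A : Man d}

private theorem topG_geo {I : Inp A} {f : A.M → ℝ} {L : ℝ} (S : Sd A I f L) : ∃ K s, Geo A K s := by
  have hr := S.r_pos
  have hK0 := S.K_pos
  have hK : 0 < I.K + 1 / (I.r * I.r) := by positivity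
  refine ⟨I.K + 1 / (I.r * I.r), min 1 (1 / (1000 * (I.K + 1 / (I.r * I.r)))), S.geo _ ?_ ?_⟩
  · exact lt_min one_pos (by positivity)
  · generalize I.K + 1 / (I.r * I.r) = K' at hK ⊢
    have h1 : min 1 (1 / (1000 * K')) ≤ 1 := min_le_left _ _
    have h2 : min 1 (1 / (1000 * K')) ≤ 1 / (1000 * K') := min_le_right _ _
    have h3 : 0 < min 1 (1 / (1000 * K')) := lt_min one_pos (by positivity)
    generalize min 1 (1 / (1000 * K')) = s at h1 h2 h3 ⊢
    have h4 : 1000 * K' * s ≤ 1 := by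
      have h5 := mul_le_mul_of_nonneg_left h2 (by positivity : (0 : ℝ) ≤ 1000 * K')
      rwa [mul_one_div_cancel (by positivity)] at h5
    calc 1000 * K' * s ^ 2 = 1000 * K' * s * s := by ring
      _ ≤ 1 * s := mul_le_mul_of_nonneg_right h4 h3.le
      _ ≤ 1 := by linarith

theorem top_gap {I : Inp A} {f : A.M → ℝ} {L : ℝ} (S : Sd A I f L) {𝓜 : Mach d} {T : ℕ} {ρ α : ℝ} (hρ : 0 < ρ)
    (hρr : ρ ≤ I.r) (hα : 0 ≤ α) (hs : Solves 𝓜 T I f L ρ α) {g : ℕ → A.M → E d} (hg : Orc I f g) (n : ℕ) :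
    mT 𝓜 T I f g n ∈ closedBall I.x0 I.r ∧ ∀ y ∈ closedBall I.x0 I.r,
      f (mT 𝓜 T I f g n) ≤ f y + ((1 - ρ / (2 * I.r)) ^ n + 2 * α) * (L * I.r) := by
  obtain ⟨K', s, hG⟩ := topG_geo S
  have hr := S.r_pos
  have hL := S.L_nonneg
  have horc : ∀ k, Orc I f (fun i => g (k + i)) := fun k i x hx => hg (k + i) x hx
  induction n with
  | zero =>
    have hx0 : I.x0 ∈ closedBall I.x0 I.r := mem_closedBall_self hr.le
    refine ⟨hx0, fun y hy => ?_⟩
    have h1 := S.lip I.x0 hx0 y hy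
    have h2 := (abs_le.1 h1).2
    have h3 : dist I.x0 y ≤ I.r := by
      rw [mem_closedBall'] at hy
      exact hy
    have h4 := mul_le_mul_of_nonneg_left h3 hL
    have h5 : 0 ≤ 2 * α * (L * I.r) := by positivity
    rw [pow_zero]
    change f I.x0 ≤ _
    linarith
  | succ n ih =>
    obtain ⟨hmD, hgap⟩ := ih
    generalize hm : mT 𝓜 T I f g n = m at hmD hgap
    have hm1 : dist I.x0 m ≤ I.r := by
      rw [mem_closedBall'] at hmD
      exact hmD
    obtain ⟨h1, -, -, h4⟩ := hs (fun i => g (1 + n * T + i)) (horc _) m (by linarith)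
    have hsucc : mT 𝓜 T I f g (n + 1) =
        (𝓜.it I f (fun i => g (1 + n * T + i)) (𝓜.start I m) T).2 𝓜.res := by
      rw [← hm]
      rfl
    rw [hsucc]
    refine ⟨h1, fun y hy => ?_⟩
    have hy1 : dist I.x0 y ≤ I.r := by
      rw [mem_closedBall'] at hy
      exact hy
    generalize hτ : ρ / (2 * I.r) = τ at hgap ⊢
    have hτ0 : 0 < τ := by
      rw [← hτ]
      positivity
    have hτρ : τ * (2 * I.r) = ρ := by
      rw [← hτ]
      exact div_mul_cancel₀ _ (by positivity)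
    have hτ1 : τ ≤ 1 := by
      rw [← hτ, div_le_one (by positivity)]
      linarith
    have hτI : τ ∈ Icc (0 : ℝ) 1 := ⟨hτ0.le, hτ1⟩
    have hz : A.H m y τ ∈ closedBall I.x0 I.r := ball_conv hG hmD hy hτI
    have hd : dist m (A.H m y τ) ≤ ρ := by
      rw [geo_dist_left hG m y hτI, ← hτρ]
      have a1 := dist_triangle m I.x0 y
      rw [dist_comm m I.x0] at a1
      exact mul_le_mul_of_nonneg_left (by linarith) hτ0.le
    have h5 := h4 _ hz hd
    have h6 := S.conv m hmD y hy τ hτI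
    have h7 := mul_le_mul_of_nonneg_left (hgap y hy) (by linarith : (0 : ℝ) ≤ 1 - τ)
    have h8 : α * L * ρ = 2 * α * τ * (L * I.r) := by
      rw [← hτρ]
      ring
    calc f ((𝓜.it I f (fun i => g (1 + n * T + i)) (𝓜.start I m) T).2 𝓜.res)
        ≤ f (A.H m y τ) + α * L * ρ := h5
      _ ≤ (1 - τ) * (f y + ((1 - τ) ^ n + 2 * α) * (L * I.r)) + τ * f y + 2 * α * τ * (L * I.r) := by
        rw [h8]
        linarith
      _ = f y + ((1 - τ) ^ (n + 1) + 2 * α) * (L * I.r) := by ring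

end Pool.Agent.H62.QP
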