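import Pool.Agent.H62.QP.UpRun

/-!
# QP.TopRun : the run of the algorithm (module TopRun, about 120 lines)

`mT n`: the base points. `top_state`: the contents of the registers at the time `1 + n * T + t`, `t < T`, are `jt (it .. t) t 1 (mT n)`: induction on `n`, inside induction on `t`: time `1`: the flag is `0` at time `0` (`init _ := 0`), so `sel 1 0` takes the second branch `jt (start x0) 0 1 x0`; for `t + 1 < T` the inner `sel` takes its second branch; for `t + 1 = T` the first branch: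
new output `(it .. T).2 res = mT (n + 1)`, machine started there, clock `0`. See `run_eq` in `Pool/Agent/H62/GR/Alg.lean` for the form of `Algo.run`; `(top 𝓜 T).R = 𝓜.R ⊕ Fin 2` by `rfl`. Then `top_output`, `top_output0` (all point registers start with `x0`), `top_query` (`queryAt` is `𝓜.query I` of something).
-/

set_option autoImplicit false

open Metric Set Matrix

namespace Pool.Agent.H62.QP

open Pool.Agent.H62.FD hiding Algo
open Pool.Agent.H62.GR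

variable {d : ℕ} {A : Man d}

/-- the outputs -/
noncomputable def mT (𝓜 : Mach d) (T : ℕ) (I : Inp A) (f : A.M → ℝ) (g : ℕ → A.M → E d) : ℕ → A.M
  | 0 => I.x0
  | n + 1 => (𝓜.it I f (fun i => g (1 + n * T + i)) (𝓜.start I (mT 𝓜 T I f g n)) T).2 𝓜.res

/-- one step of the run -/
private theorem TopRun_step (𝓜 : Mach d) (T : ℕ) (I : Inp A) (f : A.M → ℝ) (g : ℕ → A.M → E d) (k : ℕ) :
    (top 𝓜 T).run I f g (k + 1) = stT 𝓜 T I ((top 𝓜 T).run I f g k)
      (f (𝓜.query I (innerT ((top 𝓜 T).run I f g k)))) (g k (𝓜.query I (innerT ((top 𝓜 T).run I f g k)))) := rfl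

/-- a step inside a run of the machine -/
private theorem TopRun_in (𝓜 : Mach d) {T : ℕ} (I : Inp A) (a : Regs A.M 𝓜.R 𝓜.Q) {t : ℕ} (ht : t + 1 < T) (m : A.M)
    (v : ℝ) (g : E d) :
    stT 𝓜 T I (jt a (t : ℝ) 1 m) v g = jt (𝓜.step I a v g) ((t + 1 : ℕ) : ℝ) 1 m := by
  have h1 : (1 : ℝ) ≤ (jt a (t : ℝ) 1 m).1 (.inr 1) := le_refl (1 : ℝ)
  have h2 : ¬ ((T : ℝ) ≤ (jt a (t : ℝ) 1 m).1 (.inr 0) + 1) := by
    change ¬ ((T : ℝ) ≤ (t : ℝ) + 1)
    have : ((t + 1 : ℕ) : ℝ) < T := by exact_mod_cast ht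
    push_cast at this
    linarith
  unfold stT
  rw [sel_pos h1, sel_neg h2]
  have e : ((t + 1 : ℕ) : ℝ) = (t : ℝ) + 1 := by push_cast; ring
  rw [e]
  rfl

/-- the last step of a run of the machine -/
private theorem TopRun_last (𝓜 : Mach d) {T : ℕ} (I : Inp A) (a : Regs A.M 𝓜.R 𝓜.Q) {t : ℕ} (ht : t + 1 = T) (m : A.M)
    (v : ℝ) (g : E d) :
    stT 𝓜 T I (jt a (t : ℝ) 1 m) v g =
      jt (𝓜.start I ((𝓜.step I a v g).2 𝓜.res)) 0 1 ((𝓜.step I a v g).2 𝓜.res) := by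
  have h1 : (1 : ℝ) ≤ (jt a (t : ℝ) 1 m).1 (.inr 1) := le_refl (1 : ℝ)
  have h2 : (T : ℝ) ≤ (jt a (t : ℝ) 1 m).1 (.inr 0) + 1 := by
    change (T : ℝ) ≤ (t : ℝ) + 1
    rw [← ht]
    push_cast
    exact le_refl _
  unfold stT
  rw [sel_pos h1, sel_pos h2]
  rfl

/-- the first step -/
private theorem TopRun_first (𝓜 : Mach d) (T : ℕ) (I : Inp A) (f : A.M → ℝ) (g : ℕ → A.M → E d) :
    (top 𝓜 T).run I f g 1 = jt (𝓜.start I I.x0) 0 1 I.x0 := by
  rw [TopRun_step]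
  have h1 : ¬ ((1 : ℝ) ≤ ((top 𝓜 T).run I f g 0).1 (.inr 1)) := by
    change ¬ ((1 : ℝ) ≤ ((0 : ℚ) : ℝ))
    norm_num
  unfold stT
  rw [sel_neg h1]

/-- the state at the time `1 + n * T + t`, from the state at the time `1 + n * T` -/
private theorem TopRun_run (𝓜 : Mach d) {T : ℕ} (I : Inp A) (f : A.M → ℝ) (g : ℕ → A.M → E d) (n : ℕ)
    (m : A.M) (h : (top 𝓜 T).run I f g (1 + n * T) = jt (𝓜.start I m) 0 1 m) (t : ℕ) (ht : t < T) :
    (top 𝓜 T).run I f g (1 + n * T + t) =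
      jt (𝓜.it I f (fun i => g (1 + n * T + i)) (𝓜.start I m) t) (t : ℝ) 1 m := by
  induction t with
  | zero =>
    rw [Nat.add_zero, h, Nat.cast_zero]
    rfl
  | succ t ih =>
    rw [← Nat.add_assoc, TopRun_step, ih (by omega)]
    exact TopRun_in 𝓜 I _ ht m _ _

/-- the state at the time `1 + n * T` -/
private theorem TopRun_main (𝓜 : Mach d) {T : ℕ} (hT : 0 < T) (I : Inp A) (f : A.M → ℝ) (g : ℕ → A.M → E d) (n : ℕ) :
    (top 𝓜 T).run I f g (1 + n * T) = jt (𝓜.start I (mT 𝓜 T I f g n)) 0 1 (mT 𝓜 T I f g n) := by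
  induction n with
  | zero =>
    rw [Nat.zero_mul, Nat.add_zero]
    exact TopRun_first 𝓜 T I f g
  | succ n ih =>
    obtain ⟨t, ht⟩ : ∃ t, t + 1 = T := ⟨T - 1, by omega⟩
    have e : 1 + (n + 1) * T = (1 + n * T + t) + 1 := by
      rw [Nat.add_mul, Nat.one_mul, ← ht]
      omega
    rw [e, TopRun_step, TopRun_run 𝓜 I f g n _ ih t (by omega)]
    have h1 := TopRun_last 𝓜 I (𝓜.it I f (fun i => g (1 + n * T + i)) (𝓜.start I (mT 𝓜 T I f g n)) t) ht
      (mT 𝓜 T I f g n)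
      (f (𝓜.query I (innerT (jt (𝓜.it I f (fun i => g (1 + n * T + i)) (𝓜.start I (mT 𝓜 T I f g n)) t)
        (t : ℝ) 1 (mT 𝓜 T I f g n)))))
      (g (1 + n * T + t) (𝓜.query I (innerT (jt (𝓜.it I f (fun i => g (1 + n * T + i))
        (𝓜.start I (mT 𝓜 T I f g n)) t) (t : ℝ) 1 (mT 𝓜 T I f g n)))))
    have h2 : mT 𝓜 T I f g (n + 1) =
        (𝓜.it I f (fun i => g (1 + n * T + i)) (𝓜.start I (mT 𝓜 T I f g n)) (t + 1)).2 𝓜.res := by
      rw [ht]
      rfl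
    rw [h2]
    exact h1

theorem top_output (𝓜 : Mach d) {T : ℕ} (hT : 0 < T) (I : Inp A) (f : A.M → ℝ) (g : ℕ → A.M → E d) (n : ℕ) {t : ℕ}
    (ht : t < T) : (top 𝓜 T).output I f g (1 + n * T + t) = mT 𝓜 T I f g n := by
  have h := TopRun_run 𝓜 I f g n _ (TopRun_main 𝓜 hT I f g n) t ht
  change ((top 𝓜 T).run I f g (1 + n * T + t)).2 (.inr ()) = _
  rw [h]
  rfl

theorem top_output0 (𝓜 : Mach d) (T : ℕ) (I : Inp A) (f : A.M → ℝ) (g : ℕ → A.M → E d) :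
    (top 𝓜 T).output I f g 0 = I.x0 := rfl

theorem top_query (𝓜 : Mach d) (T : ℕ) (I : Inp A) (f : A.M → ℝ) (g : ℕ → A.M → E d)
    (h : ∀ s, 𝓜.query I s ∈ closedBall I.x0 I.r) (k : ℕ) : (top 𝓜 T).queryAt I f g k ∈ closedBall I.x0 I.r :=
  h (innerT ((top 𝓜 T).run I f g k))

end Pool.Agent.H62.QP
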