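import Pool.Agent.H62.QP.LvRun
import Pool.Agent.H62.QP.Tgt
import Pool.Agent.H62.QP.CutUp

/-!
# QP.UpG : the upper levels find a good point (module UpG, about 150 lines)

`q = 1000 K ρ²`, `s = q ρ = 1000 K ρ³`, `α = 54 α' / q`, `lam = α / 8 ≤ 1`, `H = (r + s / 2)²`. `run_target` (GR.RunG) with `T = ρ`, radius `lam ρ / 10 = α ρ / 80`, `p = u'` from `tgt` (`2 lam L ρ = α L ρ / 4`), `good k c := hsq I (Exp x c) ≤ H ∧ f (Rr k (Exp x c)) ≤ f z + α L ρ`. `hN`: `T / (α ρ / 80) = 80 / α`.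
`hcut` at `‖c‖ ≤ ρ`, `X = Exp x c`, not good: `hsq I X = dist x0 X ^ 2` (`sum_sq` in GR.EpochG). If `dist x0 X > r + s / 2` (deep): `orcL = 0 - Tr ..`, `cut_deep` (the target points are in `D`). Otherwise `hR k X` gives `p = Rr k X ∈ D`, `dist X p ≤ s + 2000 K s³`, `f p ≤ f w + α' L s` on `D ∩ closedBall X s`;
not good: `f p > f z + α L ρ`; for a target point `y` (`f y ≤ f z + α L ρ / 4`): `f p - f y > (3/4) α L ρ`, so `(f p - f y) s² / (40 ρ²) > (3/160) α L s² / ρ = (162 / 160) α' L s ≥ α' L s` (`α q = 54 α'`, `s = q ρ`). So `cut_up` with `a = α' L s`; `orcL = wU = 0 - Tr X x (Log X p)`.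
Inner products of `Fin d → ℝ` and `E d`: as in `epoch_good` (GR.EpochG).
-/

set_option autoImplicit false

open Metric Set Matrix

namespace Pool.Agent.H62.QP

open Pool.Agent.H62.FD hiding Algo
open Pool.Agent.H62.GR
open Pool.Agent.H36.GC (run)

variable {d : ℕ} {A : Man d}

/-- the vectors of the upper levels; `Rr k y` is the result of the inner machine started at `y` in step `k` -/
noncomputable def wU (x : A.M) (Rr : ℕ → A.M → A.M) (k : ℕ) (c : Fin d → ℝ) : Fin d → ℝ := fun i =>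
  0 - A.Tr (A.Exp x (WithLp.toLp 2 c)) x (A.Log (A.Exp x (WithLp.toLp 2 c)) (Rr k (A.Exp x (WithLp.toLp 2 c)))) i

private lemma upG_dot (w : Fin d → ℝ) : w ⬝ᵥ w = ‖(WithLp.toLp 2 w : E d)‖ ^ 2 := by
  rw [EuclideanSpace.real_norm_sq_eq]
  exact Finset.sum_congr rfl fun j _ => (sq _).symm

private lemma upG_inner (v w : Fin d → ℝ) :
    v ⬝ᵥ w = Inner.inner ℝ (WithLp.toLp 2 v : E d) (WithLp.toLp 2 w) := by
  simp [PiLp.inner_apply, dotProduct, mul_comm]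

private lemma upG_norm {w : Fin d → ℝ} {s : ℝ} (hs : 0 ≤ s) (h : w ⬝ᵥ w ≤ s ^ 2) :
    ‖(WithLp.toLp 2 w : E d)‖ ≤ s := by
  rw [upG_dot] at h
  exact le_of_sq_le_sq h hs

private lemma upG_near (u' : E d) {δ : ℝ} (hδ : 0 ≤ δ) {u : Fin d → ℝ} (hu : u ⬝ᵥ u ≤ 1) :
    ‖(WithLp.toLp 2 (WithLp.ofLp u' + δ • u) : E d) - u'‖ ≤ δ := by
  have h1 : (WithLp.toLp 2 (WithLp.ofLp u' + δ • u) : E d) - u' = δ • (WithLp.toLp 2 u : E d) := by
    ext i
    simp
  have h2 : ‖(WithLp.toLp 2 u : E d)‖ ≤ 1 := upG_norm zero_le_one (by rwa [one_pow])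
  rw [h1, norm_smul, Real.norm_of_nonneg hδ]
  calc δ * ‖(WithLp.toLp 2 u : E d)‖ ≤ δ * 1 := mul_le_mul_of_nonneg_left h2 hδ
    _ = δ := mul_one δ

/-- the numerical inequality: `α' L s` against the excess `3 α L ρ / 4` -/
private lemma upG_num {K ρ s L α α' Δ : ℝ} (hK : 0 < K) (hρ : 0 < ρ) (hs : s = 1000 * K * ρ ^ 3) (hL : 0 ≤ L)
    (hα' : 0 < α') (hα : α = 54 * α' / (1000 * K * ρ ^ 2)) (hΔ : 3 / 4 * (α * L * ρ) < Δ) :
    α' * L * s < Δ * (s ^ 2 / (40 * ρ ^ 2)) := by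
  have hq : 0 < 1000 * K * ρ ^ 2 := by positivity
  have hs0 : 0 < s := by rw [hs]; positivity
  have hw : 0 < s ^ 2 / (40 * ρ ^ 2) := by positivity
  have h1 : 3 / 4 * (α * L * ρ) * (s ^ 2 / (40 * ρ ^ 2)) = 162 / 160 * (α' * L * s) := by
    rw [hα, hs]
    field_simp
    norm_num
    ring
  have h2 : 0 ≤ α' * L * s := by positivity
  have h3 : 3 / 4 * (α * L * ρ) * (s ^ 2 / (40 * ρ ^ 2)) < Δ * (s ^ 2 / (40 * ρ ^ 2)) :=
    mul_lt_mul_of_pos_right hΔ hw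
  rw [h1] at h3
  linarith

theorem up_good (hd : 0 < d) {K ρ s : ℝ} (h : Geo A K ρ) (hq : 1000 * K * ρ ^ 2 ≤ 1 / 10000) (hs : s = 1000 * K * ρ ^ 3)
    {I : Inp A} (hr : ρ ≤ I.r) {x z : A.M} (hx : dist I.x0 x ≤ I.r + ρ / 2) (hz : z ∈ closedBall I.x0 I.r)
    (hxz : dist x z ≤ ρ) {L α α' : ℝ} {f : A.M → ℝ} (hL : 0 ≤ L) (hlip : Lip A I.x0 I.r L f)
    (hconv : GConv A.toPrim I.x0 I.r f) {Rr : ℕ → A.M → A.M}
    (hR : ∀ k y, dist I.x0 y ≤ I.r + s / 2 → Rr k y ∈ closedBall I.x0 I.r ∧ dist y (Rr k y) ≤ s + 2000 * K * s ^ 3 ∧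
      ∀ w ∈ closedBall I.x0 I.r, dist y w ≤ s → f (Rr k y) ≤ f w + α' * L * s)
    (hα' : 0 < α') (hα : α = 54 * α' / (1000 * K * ρ ^ 2)) (hα1 : α ≤ 1) {N : ℕ}
    (hN : 2 * d * ((d : ℝ) + 2) * Real.log (80 / α) < N) :
    ∃ k < N, (run ρ (orcL I ((I.r + s / 2) * (I.r + s / 2)) x (wU x Rr)) k).c ⬝ᵥ
        (run ρ (orcL I ((I.r + s / 2) * (I.r + s / 2)) x (wU x Rr)) k).c ≤ ρ ^ 2 ∧
      hsq I (A.Exp x (WithLp.toLp 2 (run ρ (orcL I ((I.r + s / 2) * (I.r + s / 2)) x (wU x Rr)) k).c)) ≤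
        (I.r + s / 2) * (I.r + s / 2) ∧
      f (Rr k (A.Exp x (WithLp.toLp 2 (run ρ (orcL I ((I.r + s / 2) * (I.r + s / 2)) x (wU x Rr)) k).c))) ≤
        f z + α * L * ρ := by
  have hK := h.K_pos
  have hρ := h.s_pos
  have hqp : 0 < 1000 * K * ρ ^ 2 := by positivity
  have hα0 : 0 < α := by rw [hα]; positivity
  have hs0 : 0 < s := by rw [hs]; positivity
  have hr0 : 0 ≤ I.r := hρ.le.trans hr
  obtain ⟨u', hu'⟩ := tgt h hr hL hlip hconv hx hz hxz (lam := α / 8) (by positivity) (by linarith)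
  obtain ⟨δ, hδe⟩ : ∃ δ, δ = α / 8 * ρ / 10 := ⟨_, rfl⟩
  have hδ : 0 < δ := by rw [hδe]; positivity
  have hnear : ∀ u : Fin d → ℝ, u ⬝ᵥ u ≤ 1 →
      ‖(WithLp.toLp 2 (WithLp.ofLp u' + δ • u) : E d) - u'‖ ≤ α / 8 * ρ / 10 := by
    intro u hu
    rw [← hδe]
    exact upG_near u' hδ.le hu
  have hkr : 0 ≤ I.r + s / 2 := by linarith
  refine run_target hd (T := ρ) hρ (G := orcL I ((I.r + s / 2) * (I.r + s / 2)) x (wU x Rr))
    (good := fun k c => hsq I (A.Exp x (WithLp.toLp 2 c)) ≤ (I.r + s / 2) * (I.r + s / 2) ∧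
      f (Rr k (A.Exp x (WithLp.toLp 2 c))) ≤ f z + α * L * ρ)
    (p := WithLp.ofLp u') (ρ := δ) hδ ?_ ?_ ?_
  · intro u hu
    have h1 := (hu' _ (hnear u hu)).1
    rw [upG_dot]
    exact pow_le_pow_left₀ (norm_nonneg _) h1 2
  · intro k c hc hng
    have hcs : ‖(WithLp.toLp 2 c : E d)‖ ≤ ρ := upG_norm hρ.le hc
    have hball : ∀ u : E d, ‖u - u'‖ ≤ α / 8 * ρ / 10 → A.Exp x u ∈ closedBall I.x0 I.r := by
      intro u hu
      have h2 := (hu' u hu).2.1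
      have h3 : 0 ≤ 0.13 * (α / 8) * ρ := by positivity
      rw [mem_closedBall']
      linarith
    by_cases hX : hsq I (A.Exp x (WithLp.toLp 2 c)) ≤ (I.r + s / 2) * (I.r + s / 2)
    · have hdist : dist I.x0 (A.Exp x (WithLp.toLp 2 c)) ≤ I.r + s / 2 := by
        unfold hsq at hX
        rw [sum_sq h.log_norm, ← sq] at hX
        exact le_of_sq_le_sq hX hkr
      have horc : orcL I ((I.r + s / 2) * (I.r + s / 2)) x (wU x Rr) k c =
          -WithLp.ofLp (A.Tr (A.Exp x (WithLp.toLp 2 c)) x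
            (A.Log (A.Exp x (WithLp.toLp 2 c)) (Rr k (A.Exp x (WithLp.toLp 2 c))))) := by
        funext i
        unfold orcL
        rw [if_pos hX]
        unfold wU
        rw [zero_sub]
        rfl
      obtain ⟨hR1, hR2, hR3⟩ := hR k _ hdist
      have hfx : f z + α * L * ρ < f (Rr k (A.Exp x (WithLp.toLp 2 c))) := by
        by_contra hcon
        exact hng ⟨hX, not_lt.1 hcon⟩
      have hkey : ∀ u : E d, ‖u - u'‖ ≤ α / 8 * ρ / 10 →
          A.Tr (A.Exp x (WithLp.toLp 2 c)) x (A.Log (A.Exp x (WithLp.toLp 2 c)) (Rr k (A.Exp x (WithLp.toLp 2 c)))) ≠ 0 ∧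
          0 ≤ Inner.inner ℝ (A.Tr (A.Exp x (WithLp.toLp 2 c)) x
            (A.Log (A.Exp x (WithLp.toLp 2 c)) (Rr k (A.Exp x (WithLp.toLp 2 c))))) (u - WithLp.toLp 2 c) := by
        intro u hu
        obtain ⟨h1, _, h3⟩ := hu' u hu
        have h4 : 3 / 4 * (α * L * ρ) < f (Rr k (A.Exp x (WithLp.toLp 2 c))) - f (A.Exp x u) := by
          have h5 : 2 * (α / 8) * L * ρ = 1 / 4 * (α * L * ρ) := by ring
          rw [h5] at h3
          linarith
        exact cut_up h (by linarith) hs hconv hcs h1 hR1 hR2 hR3 (hball u hu) (upG_num hK hρ hs hL hα' hα h4)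
      refine ⟨?_, ?_⟩
      · have h0 := (hkey u' (by rw [sub_self, norm_zero]; positivity)).1
        rw [horc]
        intro h1
        exact h0 (by ext i; exact congrFun (neg_eq_zero.1 h1) i)
      · intro u hu
        have h2 := (hkey _ (hnear u hu)).2
        rw [horc, neg_dotProduct, upG_inner]
        exact neg_nonpos.2 h2
    · have hlt : I.r + s / 2 < dist I.x0 (A.Exp x (WithLp.toLp 2 c)) := by
        by_contra hcon
        refine hX ?_
        unfold hsq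
        rw [sum_sq h.log_norm, ← sq]
        exact pow_le_pow_left₀ dist_nonneg (not_lt.1 hcon) 2
      have horc : orcL I ((I.r + s / 2) * (I.r + s / 2)) x (wU x Rr) k c =
          -WithLp.ofLp (A.Tr (A.Exp x (WithLp.toLp 2 c)) x (A.Log (A.Exp x (WithLp.toLp 2 c)) I.x0)) := by
        funext i
        unfold orcL
        rw [if_neg hX, zero_sub]
        rfl
      have hkey : ∀ u : E d, ‖u - u'‖ ≤ α / 8 * ρ / 10 →
          A.Tr (A.Exp x (WithLp.toLp 2 c)) x (A.Log (A.Exp x (WithLp.toLp 2 c)) I.x0) ≠ 0 ∧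
          0 ≤ Inner.inner ℝ (A.Tr (A.Exp x (WithLp.toLp 2 c)) x (A.Log (A.Exp x (WithLp.toLp 2 c)) I.x0)) (u - WithLp.toLp 2 c) := by
        intro u hu
        obtain ⟨h1, _, _⟩ := hu' u hu
        exact cut_deep h hr0 hcs h1 (by rw [← hs]; exact hlt) (hball u hu)
      refine ⟨?_, ?_⟩
      · have h0 := (hkey u' (by rw [sub_self, norm_zero]; positivity)).1
        rw [horc]
        intro h1
        exact h0 (by ext i; exact congrFun (neg_eq_zero.1 h1) i)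
      · intro u hu
        have h2 := (hkey _ (hnear u hu)).2
        rw [horc, neg_dotProduct, upG_inner]
        exact neg_nonpos.2 h2
  · have h1 : ρ / δ = 80 / α := by
      rw [hδe]
      field_simp
      norm_num
    rw [h1]
    exact hN

end Pool.Agent.H62.QP
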