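import Pool.Agent.H62.QP.UpG

/-!
# QP.UpRun : the run of the machine `up` (module UpRun, about 150 lines)

`it_add`: induction on `b`. `inR`, `inV`: result of the inner machine started at `y` at the time `k * T`, and its value. `up_inner`: for `i < T` the state of `up` after `i` steps from `jn (start y) l 0` is `jn (it .. i) l i` (the clock is `i`, `i + 1 < T` selects the second branch; the query point of `up` is that of the inner machine);
induction on `i`. After `T` steps: the first branch. `up_run`: induction on `k`, with `it_add` (`(k + 1) * T = k * T + T`): own level `lvs` with `W = wU x (inR ..)`, `P k c = inR .. k (Exp x c)`, value `f (P k c)`: by `upd_congr` only the case `1 ≤ ok` matters, where `hval` gives `inV = f inR`; inner machine started at `(lvs k).y`.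
`updU` is `Lv.upd` with `H = thH` and `w i = 0 - Tr l.y l.x (Log l.y p) i`, which is `wU x _ k l.c` as `l.x = x` (`lvs_x`).
-/

set_option autoImplicit false

open Metric Set Matrix

namespace Pool.Agent.H62.QP

open Pool.Agent.H62.FD hiding Algo
open Pool.Agent.H62.GR

variable {d : ℕ} {A : Man d}

theorem it_add (𝓜 : Mach d) (I : Inp A) (f : A.M → ℝ) (g : ℕ → A.M → E d) (s : Regs A.M 𝓜.R 𝓜.Q) (a b : ℕ) :
    𝓜.it I f g s (a + b) = 𝓜.it I f (fun i => g (a + i)) (𝓜.it I f g s a) b := by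
  induction b with
  | zero => rfl
  | succ b ih =>
    have h1 : 𝓜.it I f g s (a + (b + 1)) = 𝓜.step I (𝓜.it I f g s (a + b)) (f (𝓜.query I (𝓜.it I f g s (a + b))))
        (g (a + b) (𝓜.query I (𝓜.it I f g s (a + b)))) := rfl
    rw [h1, ih]
    rfl

/-- result of the inner machine started at `y` at the time `k * T` -/
noncomputable def inR (𝓜 : Mach d) (T : ℕ) (I : Inp A) (f : A.M → ℝ) (g : ℕ → A.M → E d) (k : ℕ) (y : A.M) : A.M :=
  (𝓜.it I f (fun i => g (k * T + i)) (𝓜.start I y) T).2 𝓜.res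

/-- its value -/
noncomputable def inV (𝓜 : Mach d) (T : ℕ) (I : Inp A) (f : A.M → ℝ) (g : ℕ → A.M → E d) (k : ℕ) (y : A.M) : ℝ :=
  (𝓜.it I f (fun i => g (k * T + i)) (𝓜.start I y) T).1 𝓜.rv

/-- the levels of `up 𝓜 T c c'` started at `x` -/
noncomputable def lvU (𝓜 : Mach d) (T : ℕ) (c c' : ℚ) (I : Inp A) (f : A.M → ℝ) (g : ℕ → A.M → E d) (x : A.M) :
    ℕ → Lv A.M d :=
  lvs I (rad I.K I.r c) (thH I.K I.r c') x f (wU x (inR 𝓜 T I f g))
    (fun k c => inR 𝓜 T I f g k (A.Exp x (WithLp.toLp 2 c)))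

private lemma upRun_inner (𝓜 : Mach d) {T : ℕ} (c c' : ℚ) (I : Inp A) (f : A.M → ℝ) (g : ℕ → A.M → E d)
    (a : Regs A.M 𝓜.R 𝓜.Q) (l : Lv A.M d) (i : ℕ) (hi : i < T) :
    (up 𝓜 T c c').it I f g (jn a l 0) i = jn (𝓜.it I f g a i) l (i : ℝ) := by
  induction i with
  | zero =>
    rw [Nat.cast_zero]
    rfl
  | succ i ih =>
    have hi' : i < T := by omega
    have h1 : (up 𝓜 T c c').it I f g (jn a l 0) (i + 1) =
        (up 𝓜 T c c').step I ((up 𝓜 T c c').it I f g (jn a l 0) i)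
          (f ((up 𝓜 T c c').query I ((up 𝓜 T c c').it I f g (jn a l 0) i)))
          (g i ((up 𝓜 T c c').query I ((up 𝓜 T c c').it I f g (jn a l 0) i))) := rfl
    rw [h1, ih hi']
    have h2 : ¬ ((T : ℝ) ≤ clk (jn (𝓜.it I f g a i) l (i : ℝ)) + 1) := by
      rw [clk_jn]
      have h3 : ((i + 1 : ℕ) : ℝ) < T := by exact_mod_cast hi
      push_cast at h3
      linarith
    have h4 : (up 𝓜 T c c').step I (jn (𝓜.it I f g a i) l (i : ℝ))
          (f ((up 𝓜 T c c').query I (jn (𝓜.it I f g a i) l (i : ℝ))))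
          (g i ((up 𝓜 T c c').query I (jn (𝓜.it I f g a i) l (i : ℝ)))) = _ := sel_neg h2 _ _
    rw [h4, Nat.cast_succ]
    rfl

private lemma upRun_block (𝓜 : Mach d) {T : ℕ} (hT : 0 < T) (c c' : ℚ) (I : Inp A) (f : A.M → ℝ)
    (g : ℕ → A.M → E d) (a : Regs A.M 𝓜.R 𝓜.Q) (l : Lv A.M d) :
    (up 𝓜 T c c').it I f g (jn a l 0) T =
      jn (𝓜.start I (updU I c c' l ((𝓜.it I f g a T).2 𝓜.res) ((𝓜.it I f g a T).1 𝓜.rv)).y)
        (updU I c c' l ((𝓜.it I f g a T).2 𝓜.res) ((𝓜.it I f g a T).1 𝓜.rv)) 0 := by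
  obtain ⟨t, rfl⟩ : ∃ t, T = t + 1 := ⟨T - 1, by omega⟩
  have h1 : (up 𝓜 (t + 1) c c').it I f g (jn a l 0) (t + 1) =
      (up 𝓜 (t + 1) c c').step I ((up 𝓜 (t + 1) c c').it I f g (jn a l 0) t)
        (f ((up 𝓜 (t + 1) c c').query I ((up 𝓜 (t + 1) c c').it I f g (jn a l 0) t)))
        (g t ((up 𝓜 (t + 1) c c').query I ((up 𝓜 (t + 1) c c').it I f g (jn a l 0) t))) := rfl
  rw [h1, upRun_inner 𝓜 c c' I f g a l t (by omega)]
  have h2 : (((t + 1 : ℕ) : ℝ) ≤ clk (jn (𝓜.it I f g a t) l (t : ℝ)) + 1) := by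
    rw [clk_jn]
    push_cast
    exact le_refl _
  exact sel_pos h2 _ _

theorem up_run (𝓜 : Mach d) {T : ℕ} (hT : 0 < T) (c c' : ℚ) (I : Inp A) (f : A.M → ℝ) (g : ℕ → A.M → E d) (x : A.M)
    (hval : ∀ k y, hsq I y ≤ thH I.K I.r c' → inV 𝓜 T I f g k y = f (inR 𝓜 T I f g k y)) (k : ℕ) :
    (up 𝓜 T c c').it I f g ((up 𝓜 T c c').start I x) (k * T) =
      jn (𝓜.start I (lvU 𝓜 T c c' I f g x k).y) (lvU 𝓜 T c c' I f g x k) 0 := by
  induction k with
  | zero =>
    rw [Nat.zero_mul]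
    rfl
  | succ k ih =>
    have hk : (k + 1) * T = k * T + T := by ring
    rw [hk, it_add, ih, upRun_block 𝓜 hT]
    have hx : (lvU 𝓜 T c c' I f g x k).x = x := lvs_x k
    have hy : (lvU 𝓜 T c c' I f g x k).y = A.Exp x (WithLp.toLp 2 (lvU 𝓜 T c c' I f g x k).c) := by
      unfold Lv.y
      rw [hx]
    have hu : updU I c c' (lvU 𝓜 T c c' I f g x k)
        ((𝓜.it I f (fun i => g (k * T + i)) (𝓜.start I (lvU 𝓜 T c c' I f g x k).y) T).2 𝓜.res)
        ((𝓜.it I f (fun i => g (k * T + i)) (𝓜.start I (lvU 𝓜 T c c' I f g x k).y) T).1 𝓜.rv) =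
        lvU 𝓜 T c c' I f g x (k + 1) := by
      have h1 : lvU 𝓜 T c c' I f g x (k + 1) = (lvU 𝓜 T c c' I f g x k).upd I (rad I.K I.r c) (thH I.K I.r c')
          (wU x (inR 𝓜 T I f g) k (lvU 𝓜 T c c' I f g x k).c)
          (inR 𝓜 T I f g k (A.Exp x (WithLp.toLp 2 (lvU 𝓜 T c c' I f g x k).c)))
          (f (inR 𝓜 T I f g k (A.Exp x (WithLp.toLp 2 (lvU 𝓜 T c c' I f g x k).c)))) := rfl
      rw [h1]
      unfold updU
      refine upd_congr _ fun hok => ?_
      have hH := ((ok_one_iff _).1 hok).2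
      have hv := hval k _ hH
      have hp : (𝓜.it I f (fun i => g (k * T + i)) (𝓜.start I (lvU 𝓜 T c c' I f g x k).y) T).2 𝓜.res =
          inR 𝓜 T I f g k (lvU 𝓜 T c c' I f g x k).y := rfl
      refine ⟨?_, ?_, ?_⟩
      · rw [hp]
        unfold wU
        rw [← hy, hx]
      · rw [hp, hy]
      · rw [← hy]
        exact hv
    rw [hu]

end Pool.Agent.H62.QP
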